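import Pool.Agent.H66.SG.T6

/-!
SHARP GAP (`MP_c59857_nt`): targets, section 7 (the descent).
-/

set_option autoImplicit false

open MeasureTheory ProbabilityTheory Filter Topology Finset
open scoped Nat ENNReal

namespace Pool.Agent.H66.SG

open Pool.Agent.H24.T2 (Pset)
open Pool.Agent.H40.AG (QQ dg)
open Pool.Agent.H67.AG (ul Inv Rt Av SA kap JJ TT InvZ nxt triv tow XN PN TN XX PX TX prX Fac
  Tup dl Dlt Mis Sw SwE)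

namespace CtxE

variable (c : CtxE)

/-- the conditional mismatch in the self-joining over `Z` -/
noncomputable def MR (Z : SA c.X) (q : c.X × c.X) : ℝ :=
  Mis (JJ c.μ Z) (Rt (TT c.T)) c.D1 c.D2 q

/-- close good points -/
def Rel (Z : SA c.X) : Set (c.X × c.X) := {q | q.1 ∈ c.Xg ∧ q.2 ∈ c.Xg ∧ c.MR Z q ≤ 1 / 2}

/-- the mismatch density in a window of length `L` along `T ^ W` -/
noncomputable def dL (W L : ℕ) (q : c.X × c.X) : ℝ := ∑ i, Av (TT c.T) W L (dl c.D1 c.D2 i) q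

open Classical in
/-- the word of length `L` along `T ^ W` -/
noncomputable def wd (W L : ℕ) (x : c.X) : Fin c.k → Fin L → Bool :=
  fun i l => decide (c.Dt i (c.T^[W * l] x) = 1)

open Classical in
/-- the first reference which is close to the last point -/
noncomputable def sel (W L n : ℕ) (B : Set c.X) (q : XX c.X (n + 1)) : Fin (n + 1) :=
  if h : (univ.filter fun b => c.dL W L (q.2.1 b, q.2.2) ≤ 1 / 2).Nonempty ∧ q.1.1 ∈ B then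
    (univ.filter fun b => c.dL W L (q.2.1 b, q.2.2) ≤ 1 / 2).min' h.1 else 0

/-- the good configurations -/
def GG (W L n : ℕ) (B : Set c.X) : Set (XX c.X (n + 1)) :=
  {q | q.1.1 ∈ B ∧ (∃ b, c.dL W L (q.2.1 b, q.2.2) ≤ 1 / 2) ∧
    ∀ b, c.dL W L (q.2.1 b, q.2.2) ≤ m₁ + 1 / 2000 ∨
      1 - m₁ - 1 / 2000 ≤ c.dL W L (q.2.1 b, q.2.2)}

/-- the bad configurations over `B` -/
def BG (W L n : ℕ) (B : Set c.X) : Set (XX c.X (n + 1)) :=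
  {q | q.1.1 ∈ B ∧ q ∉ c.GG W L n B}

/-- the tuple of the reference `b` -/
def yX (n : ℕ) (b : Fin (n + 1)) (i : Fin c.k) (q : XX c.X (n + 1)) : ℝ := c.Dt i (q.2.1 b)

/-- the tuple of the last point -/
def yL (n : ℕ) (i : Fin c.k) (q : XX c.X (n + 1)) : ℝ := c.Dt i q.2.2

/-- the tuple of the selected reference -/
noncomputable def yS (W L n : ℕ) (B : Set c.X) (i : Fin c.k) (q : XX c.X (n + 1)) : ℝ :=
  c.Dt i (q.2.1 (c.sel W L n B q))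

end CtxE

/-- DRM: the dichotomy on the good points. -/
def T_DRM : Prop := ∀ (c : CtxE) (Z : SA c.X), InvZ c.T Z →
  ∀ᵐ q ∂(JJ c.μ Z), q.1 ∈ c.Xg → q.2 ∈ c.Xg → 0 ≤ c.MR Z q ∧ (c.MR Z q ≤ m₁ ∨ 1 - m₁ ≤ c.MR Z q)

/-- CLM: the mass of the classes. -/
def T_CLM : Prop := ∀ (c : CtxE) (Z : SA c.X), InvZ c.T Z → c.CP Z →
  ∃ (c₀ : ℝ) (X1 : Set c.X), 0 < c₀ ∧ c₀ ≤ 1 ∧ MeasurableSet[Rt c.T] X1 ∧ X1 ⊆ c.Xg ∧
    0 < c.μ.real X1 ∧ ∀ᵐ x ∂c.μ, x ∈ X1 → c₀ ≤ (kap c.μ Z x).real {x' | (x', x) ∈ c.Rel Z}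

/-- CHW: choice of the modulus. -/
def T_CHW : Prop := ∀ (c : CtxE) (Z : SA c.X) (X1 : Set c.X) (θ : ℝ), InvZ c.T Z →
  MeasurableSet[Rt c.T] X1 → X1 ⊆ c.Xg → 0 < θ →
  ∃ (w : ℕ) (X1' : Set c.X), 0 < w ∧ MeasurableSet[Inv c.T (c.W w)] X1' ∧ X1' ⊆ c.Y ∧
    c.μ.real (symmDiff X1 X1') ≤ θ ∧
    Lam (c.U w) (c.W w) c.μ c.T c.β c.σ c.Dt X1' ≤ κ₂ * c.μ.real X1 + θ ∧
    ∫ q, |Mis (JJ c.μ Z) (Inv (TT c.T) (c.W w)) c.D1 c.D2 q - c.MR Z q| ∂(JJ c.μ Z) ≤ θ ∧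
    (∀ i, ∫ q, |((JJ c.μ Z)[fun q => c.D1 i q * c.D2 i q | Inv (TT c.T) (c.W w * Dlt c.β)]) q -
      ((JJ c.μ Z)[fun q => c.D1 i q * c.D2 i q | Inv (TT c.T) (c.W w)]) q| ∂(JJ c.μ Z) ≤ θ) ∧
    (c.k : ℝ) ^ 2 / w ≤ θ

/-- CHL: choice of the window. -/
def T_CHL : Prop := ∀ (c : CtxE) (Z : SA c.X) (W : ℕ) (θ : ℝ), InvZ c.T Z → 0 < θ →
  ∃ L₀ : ℕ, ∀ L, L₀ ≤ L →
    ∫ q, |c.dL W L q - Mis (JJ c.μ Z) (Inv (TT c.T) W) c.D1 c.D2 q| ∂(JJ c.μ Z) ≤ θ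

/-- CHG: choice of the window for the products. -/
def T_CHG : Prop := ∀ (c : CtxE) (Z : SA c.X) (W : ℕ) (θ θ' : ℝ), InvZ c.T Z → 0 < θ →
  (∀ i, ∫ q, |((JJ c.μ Z)[fun q => c.D1 i q * c.D2 i q | Inv (TT c.T) (W * Dlt c.β)]) q -
      ((JJ c.μ Z)[fun q => c.D1 i q * c.D2 i q | Inv (TT c.T) W]) q| ∂(JJ c.μ Z) ≤ θ') →
  ∃ L₀ : ℕ, ∀ L, L₀ ≤ L → ∀ i,
    ∫ q, |Av (TT c.T) (W * Dlt c.β) L (fun q => c.D1 i q * c.D2 i q) q -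
      Av (TT c.T) W L (fun q => c.D1 i q * c.D2 i q) q| ∂(JJ c.μ Z) ≤ θ' + θ

/-- WDS: the products of a reference and the last point. -/
def T_WDS : Prop := ∀ (c : CtxE) (Z : SA c.X) (W L L₂ n : ℕ) (R : Measure (c.X × c.X))
  [IsProbabilityMeasure R] (θ' θ'' : ℝ) (i : Fin c.k) (b : Fin (n + 1)), InvZ c.T Z → 0 < W →
  0 < L₂ → L₂ * Dlt c.β ≤ L →
  ∫ q, |Av (TT c.T) (W * Dlt c.β) L₂ (fun q => c.D1 i q * c.D2 i q) q -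
      Av (TT c.T) W L₂ (fun q => c.D1 i q * c.D2 i q) q| ∂(JJ c.μ Z) ≤ θ' →
  MeasurePreserving Prod.fst R c.μ → MeasurePreserving Prod.snd R c.μ →
  ∫ q, ∑ v, |(kap c.μ Z q.1).real (c.wd W L ⁻¹' {v}) -
    (kap c.μ Z q.2).real (c.wd W L ⁻¹' {v})| ∂(R) ≤ θ'' →
  ∫ q, |Av (TX c.T (n + 1)) (W * Dlt c.β) L₂ (fun q => c.yL n i q * c.yX n b i q) q -
      Av (TX c.T (n + 1)) W L₂ (fun q => c.yL n i q * c.yX n b i q) q| ∂(PX c.μ Z (n + 1) R) ≤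
    θ' + 2 * θ''

/-- CHR: choice of the law of the nearby points. -/
def T_CHR : Prop := ∀ (c : CtxE) (Z : SA c.X) (W L : ℕ) (B : Set c.X) (θ : ℝ), InvZ c.T Z →
  0 < W → MeasurableSet[Inv c.T W] B → 0 < θ →
  ∃ R : Measure (c.X × c.X), IsProbabilityMeasure R ∧ MeasurePreserving (TT c.T) R R ∧
    R ≪ JJ c.μ Z ∧ MeasurePreserving Prod.fst R c.μ ∧ MeasurePreserving Prod.snd R c.μ ∧
    ∫ q, ∑ v, |(kap c.μ (nxt c.μ c.T Z) q.1).real (c.wd W L ⁻¹' {v}) -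
      (kap c.μ (nxt c.μ c.T Z) q.2).real (c.wd W L ⁻¹' {v})| ∂(R) ≤ θ ∧
    R.real {q | ¬ (q.1 ∈ B ↔ q.2 ∈ B)} ≤ θ

/-- GGP: most configurations are good. -/
def T_GGP : Prop := ∀ (c : CtxE) (Z : SA c.X) (c₀ : ℝ) (X1 B : Set c.X) (W L n : ℕ)
  (R : Measure (c.X × c.X)) [IsProbabilityMeasure R] (θ θ' θ'' : ℝ), InvZ c.T Z → Rt c.T ≤ Z.1 →
  0 < c₀ → c₀ ≤ 1 → MeasurableSet[Rt c.T] X1 → X1 ⊆ c.Xg →
  (∀ᵐ x ∂c.μ, x ∈ X1 → c₀ ≤ (kap c.μ Z x).real {x' | (x', x) ∈ c.Rel Z}) →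
  0 < W → 0 < L → MeasurableSet[Inv c.T W] B → c.μ.real (symmDiff X1 B) ≤ θ →
  ∫ q, |c.dL W L q - c.MR Z q| ∂(JJ c.μ Z) ≤ θ' →
  MeasurePreserving Prod.fst R c.μ → MeasurePreserving Prod.snd R c.μ →
  ∫ q, ∑ v, |(kap c.μ Z q.1).real (c.wd W L ⁻¹' {v}) -
    (kap c.μ Z q.2).real (c.wd W L ⁻¹' {v})| ∂(R) ≤ θ'' →
  (PX c.μ Z (n + 1) R).real (c.BG W L n B) ≤
    2 * θ + θ'' + (1 - c₀) ^ (n + 1) + 2000 * ((n : ℝ) + 1) * θ'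

/-- SLV: the selection changes slowly. -/
def T_SLV : Prop := ∀ (c : CtxE) (B : Set c.X) (W L n l : ℕ)
  (P : Measure (XX c.X (n + 1))) [IsProbabilityMeasure P],
  MeasurePreserving (TX c.T (n + 1)) P P → 0 < W → 0 < L → MeasurableSet[Inv c.T W] B →
  Measurable (c.sel W L n B) ∧
  (16 * c.k * l ≤ L → P.real {q | c.sel W L n B ((TX c.T (n + 1))^[W * l] q) ≠ c.sel W L n B q} ≤
    2 * P.real (c.BG W L n B)) ∧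
  ∀ h : ℕ, L = 16 * c.k * h → l ≤ L →
    P.real {q | c.sel W L n B ((TX c.T (n + 1))^[W * l] q) ≠ c.sel W L n B q} ≤
    32 * c.k * P.real (c.BG W L n B)

/-- MSM: the mismatch of the selected reference and the last point, on every invariant set. -/
def T_MSM : Prop := ∀ (c : CtxE) (B : Set c.X) (W L n h : ℕ)
  (P : Measure (XX c.X (n + 1))) [IsProbabilityMeasure P] (A : Set (XX c.X (n + 1))),
  MeasurePreserving (TX c.T (n + 1)) P P → 0 < W → 0 < L → L = 16 * c.k * h →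
  MeasurableSet[Inv c.T W] B → MeasurableSet[Inv (TX c.T (n + 1)) W] A →
  (∀ q ∈ A, q.1.1 ∈ B) →
  ∑ i, P.real {q | q ∈ A ∧ c.Dt i (q.2.1 (c.sel W L n B q)) ≠ c.Dt i q.2.2} ≤
    (m₁ + 1 / 2000) * P.real A + ((c.k : ℝ) + 32 * (c.k : ℝ) ^ 2) * P.real (c.BG W L n B)

/-- LMD: comparison of the errors of two tuples. -/
def T_LMD : Prop := ∀ (Ω : Type) [MeasurableSpace Ω] (P : Measure Ω) [IsProbabilityMeasure P]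
  (T : Ω ≃ᵐ Ω) (k : ℕ) (β : Fin k → ℕ) (σ : ℝ) (W : ℕ) (U : Ultrafilter ℕ)
  (y y' : Fin k → Ω → ℝ) (A : Set Ω), MeasurePreserving T P P → 0 < W → (U : Filter ℕ) ≤ atTop →
  Tup y → Tup y' → MeasurableSet[Inv T W] A →
  Lam U W P T β σ y A ≤ Lam U W P T β σ y' A + ∑ i, P.real (A ∩ {ω | y i ω ≠ y' i ω})

/-- LMF: errors and factor maps, change of the set. -/
def T_LMF : Prop := ∀ (Ω Ω' : Type) [MeasurableSpace Ω] [MeasurableSpace Ω'] (P : Measure Ω)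
  [IsProbabilityMeasure P] (P' : Measure Ω') [IsProbabilityMeasure P'] (T : Ω ≃ᵐ Ω)
  (T' : Ω' ≃ᵐ Ω') (g : Ω → Ω') (k : ℕ) (β : Fin k → ℕ) (σ : ℝ) (W : ℕ) (U : Ultrafilter ℕ)
  (y : Fin k → Ω' → ℝ) (A : Set Ω) (A' : Set Ω'), Fac P T P' T' g → Tup y → MeasurableSet A →
  MeasurableSet A' →
  Lam U W P T β σ (fun i ω => y i (g ω)) A ≤ Lam U W P' T' β σ y A' + P.real (A \ g ⁻¹' A')

/-- FIN: from a set with small mismatch to closeness. -/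
def T_FIN : Prop := ∀ (c : CtxE) (Z : SA c.X) (R : Measure (c.X × c.X)) [IsProbabilityMeasure R]
  (W : ℕ) (X1 : Set c.X) (B : Set (c.X × c.X)) (θ : ℝ), InvZ c.T Z →
  MeasurePreserving (TT c.T) R R → R ≪ JJ c.μ Z → 0 < W → MeasurableSet[Rt c.T] X1 →
  X1 ⊆ c.Xg → MeasurableSet[Inv (TT c.T) W] B →
  (∀ᵐ q ∂(R), q ∈ B → Mis R (Inv (TT c.T) W) c.D1 c.D2 q ≤ 1 / 2) →
  R.real (B \ {q | q.1 ∈ X1 ∧ q.2 ∈ X1}) ≤ θ → 4 * θ < R.real B → c.CP Z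

/-- the intermediate statement -/
def Mid (c : CtxE) (Z : SA c.X) : Prop := ∃ (w : ℕ) (X1 X1' : Set c.X) (R : Measure (c.X × c.X))
    (θ : ℝ), IsProbabilityMeasure R ∧ MeasurableSet[Rt c.T] X1 ∧ X1 ⊆ c.Xg ∧
    MeasurableSet[Inv c.T (c.W w)] X1' ∧ c.μ.real (symmDiff X1 X1') ≤ θ ∧
    MeasurePreserving (TT c.T) R R ∧ R ≪ JJ c.μ Z ∧ MeasurePreserving Prod.fst R c.μ ∧
    MeasurePreserving Prod.snd R c.μ ∧ R.real {q | ¬ (q.1 ∈ X1' ↔ q.2 ∈ X1')} ≤ θ ∧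
    100 * θ < (QQ c.μ (nxt c.μ c.T Z) R).real {q | q.1 ∈ X1' ∧
      Mis (QQ c.μ (nxt c.μ c.T Z) R) (Inv (TT c.T) (c.W w)) c.D1 c.D2 q ≤ 1 / 2}

/-- the choice of all parameters, with the conclusion of the switching lemma -/
def Par (c : CtxE) (Z : SA c.X) : Prop :=
  ∃ (n w L : ℕ) (X1 X1' : Set c.X) (R : Measure (c.X × c.X)) (θ : ℝ),
    0 < w ∧ 0 < L ∧ 0 ≤ θ ∧ (∃ h, L = 16 * c.k * h) ∧
    IsProbabilityMeasure R ∧ MeasurableSet[Rt c.T] X1 ∧ X1 ⊆ c.Xg ∧ 0 < c.μ.real X1 ∧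
    MeasurableSet[Inv c.T (c.W w)] X1' ∧ c.μ.real (symmDiff X1 X1') ≤ θ ∧
    MeasurePreserving (TT c.T) R R ∧ R ≪ JJ c.μ Z ∧ MeasurePreserving Prod.fst R c.μ ∧
    MeasurePreserving Prod.snd R c.μ ∧ R.real {q | ¬ (q.1 ∈ X1' ↔ q.2 ∈ X1')} ≤ θ ∧
    Lam (c.U w) (c.W w) c.μ c.T c.β c.σ c.Dt X1' ≤ κ₂ * c.μ.real X1 + θ ∧
    (PX c.μ (nxt c.μ c.T Z) (n + 1) R).real (c.BG (c.W w) L n X1') ≤
      c.μ.real X1 / (10 ^ 6 * ((c.k : ℝ) + 1) ^ 2) ∧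
    θ * (10 ^ 6 * ((n : ℝ) + 1) ^ 2 * ((c.k : ℝ) + 1) ^ 2) ≤ c.μ.real X1 ∧
    (PX c.μ (nxt c.μ c.T Z) (n + 1) R).real ({q | q.1.1 ∈ X1'} ∩ {q |
      Mis (PX c.μ (nxt c.μ c.T Z) (n + 1) R) (Inv (TX c.T (n + 1)) (c.W w)) (c.yL n)
        (c.yS (c.W w) L n X1') q ≤ 1 / 2 ∧ ∀ b, 1 / 2 <
      Mis (PX c.μ (nxt c.μ c.T Z) (n + 1) R) (Inv (TX c.T (n + 1)) (c.W w)) (c.yL n)
        (c.yX n b) q}) ≤
      401 / 100 * (Lam (c.U w) (c.W w) (PX c.μ (nxt c.μ c.T Z) (n + 1) R) (TX c.T (n + 1)) c.β c.σ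
        (c.yL n) {q | q.1.1 ∈ X1'} +
        Lam (c.U w) (c.W w) (PX c.μ (nxt c.μ c.T Z) (n + 1) R) (TX c.T (n + 1)) c.β c.σ
        (c.yS (c.W w) L n X1') {q | q.1.1 ∈ X1'}) + c.μ.real X1 / 1000

/-- CB0: the choice of the parameters. -/
def T_CB0 : Prop := ∀ (c : CtxE) (Z : SA c.X), InvZ c.T Z → c.CP (nxt c.μ c.T Z) → Par c Z

/-- CB1: the computation. -/
def T_CB1 : Prop := ∀ (c : CtxE) (Z : SA c.X), InvZ c.T Z → Par c Z → Mid c Z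

/-- CB2: the end of the descent. -/
def T_CB2 : Prop := ∀ (c : CtxE) (Z : SA c.X), InvZ c.T Z → Mid c Z → c.CP Z

end Pool.Agent.H66.SG
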