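import Pool.Agent.H66.SG.T7

/-!
Row A0 of the board gap_modules (`MP_c59857_nt`): the relation for the conditional expectations.
-/

set_option autoImplicit false

open MeasureTheory ProbabilityTheory Filter Topology Finset
open scoped Nat ENNReal

namespace Pool.Agent.H66.SG.A0

open Pool.Agent.H67.AG

open Pool.Agent.H67.AG
open Pool.Agent.H24.T2 (Pset)

/-! ### averages over primes -/

theorem avgP_congr {W m : ℕ} {F G : ℕ → ℝ} (h : ∀ p ∈ Ps W m, F p = G p) :
    avgP W m F = avgP W m G := by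
  unfold avgP
  rw [Finset.sum_congr rfl h]

theorem avgP_sub (W m : ℕ) (F G : ℕ → ℝ) :
    avgP W m F - avgP W m G = avgP W m fun p => F p - G p := by
  unfold avgP
  rw [Finset.sum_sub_distrib, sub_div]

theorem avgP_mul (W m : ℕ) (a : ℝ) (F : ℕ → ℝ) :
    avgP W m (fun p => a * F p) = a * avgP W m F := by
  unfold avgP
  rw [← Finset.mul_sum, mul_div_assoc]

theorem avgP_const {W m : ℕ} (a : ℝ) (h : 0 < (Ps W m).card) :
    avgP W m (fun _ => a) = a := by
  unfold avgP
  have h' : ((Ps W m).card : ℝ) ≠ 0 := by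
    have : (0 : ℝ) < (Ps W m).card := by exact_mod_cast h
    exact this.ne'
  rw [Finset.sum_const, nsmul_eq_mul, mul_div_cancel_left₀ _ h']

theorem abs_avgP_le {W m : ℕ} {F : ℕ → ℝ} {C : ℝ} (hC : 0 ≤ C) (h : ∀ p, |F p| ≤ C) :
    |avgP W m F| ≤ C := by
  unfold avgP
  rw [abs_div, Nat.abs_cast]
  rcases Nat.eq_zero_or_pos (Ps W m).card with h0 | h0
  · rw [h0]
    simpa using hC
  · have h' : (0 : ℝ) < (Ps W m).card := by exact_mod_cast h0
    rw [div_le_iff₀ h']
    calc |∑ p ∈ Ps W m, F p| ≤ ∑ p ∈ Ps W m, |F p| := Finset.abs_sum_le_sum_abs _ _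
      _ ≤ ∑ _p ∈ Ps W m, C := Finset.sum_le_sum fun p _ => h p
      _ = C * (Ps W m).card := by rw [Finset.sum_const, nsmul_eq_mul, mul_comm]

theorem dvd_of_mem {W m p : ℕ} (hp : p ∈ Ps W m) : W ∣ p - 1 := by
  unfold Ps at hp
  rw [Finset.mem_filter] at hp
  have h1 : 1 ≤ p := hp.2.1.one_lt.le
  exact (Nat.modEq_iff_dvd' h1).mp hp.2.2.symm

/-! ### limits along ultrafilters -/

theorem ul_eq_of_sub {U : Ultrafilter ℕ} (hul : T_UL) (hU : (U : Filter ℕ) ≤ atTop)
    {f g : ℕ → ℝ} (hf : ∃ C, ∀ n, |f n| ≤ C) (hg : ∃ C, ∀ n, |g n| ≤ C)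
    (h : Tendsto (fun n => f n - g n) atTop (𝓝 0)) : ul U f = ul U g := by
  have h1 := (hul U).1 f hf
  have h2 := (hul U).1 g hg
  have h3 := h1.sub h2
  have h4 := h.mono_left hU
  have h5 := tendsto_nhds_unique h3 h4
  linarith

/-! ### the tuple and its conditional expectations -/

theorem Dt_meas (c : CtxE) (i : Fin c.k) : Measurable (c.Dt i) :=
  c.Dm.comp (c.T.measurable.iterate (c.β i))

theorem Dt_sign (c : CtxE) (i : Fin c.k) (x : c.X) : c.Dt i x = 1 ∨ c.Dt i x = -1 :=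
  c.Dv _

theorem Dt_abs (c : CtxE) (i : Fin c.k) (x : c.X) : |c.Dt i x| ≤ 1 := by
  rcases Dt_sign c i x with h | h <;> rw [h] <;> simp

theorem Db_measZ (c : CtxE) (i : Fin c.k) :
    Measurable[(tow c.μ c.T (c.k - 1)).1] (c.Db i) := by
  have h : Measurable[(tow c.μ c.T (c.k - 1)).1] (c.μ[c.Dt i | (tow c.μ c.T (c.k - 1)).1]) :=
    stronglyMeasurable_condExp.measurable
  exact Measurable.max measurable_const (Measurable.min measurable_const h)

theorem Db_meas (c : CtxE) (i : Fin c.k) : Measurable (c.Db i) :=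
  (Db_measZ c i).mono (tow c.μ c.T (c.k - 1)).2 le_rfl

theorem Db_abs (c : CtxE) (i : Fin c.k) (x : c.X) : |c.Db i x| ≤ 1 := by
  unfold CtxE.Db
  rw [abs_le]
  constructor
  · exact le_max_left _ _
  · exact max_le (by norm_num) (min_le_left _ _)

theorem Db_ae (c : CtxE) (i : Fin c.k) :
    c.Db i =ᵐ[c.μ] c.μ[c.Dt i | (tow c.μ c.T (c.k - 1)).1] := by
  have h : ∀ᵐ x ∂c.μ, |(c.μ[c.Dt i | (tow c.μ c.T (c.k - 1)).1]) x| ≤ (1 : ℝ) :=
    ae_bdd_abs_condExp_of_ae_bdd_abs (R := (1 : ℝ)) (Filter.Eventually.of_forall fun x =>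
      Dt_abs c i x)
  filter_upwards [h] with x hx
  rw [abs_le] at hx
  unfold CtxE.Db
  rw [min_eq_right hx.2, max_eq_right hx.1]

/-- half of the difference -/
noncomputable def fz (c : CtxE) (i : Fin c.k) (x : c.X) : ℝ := (1 / 2) * (c.Dt i x - c.Db i x)

theorem fz_meas (c : CtxE) (i : Fin c.k) : Measurable (fz c i) :=
  measurable_const.mul ((Dt_meas c i).sub (Db_meas c i))

theorem fz_abs (c : CtxE) (i : Fin c.k) (x : c.X) : |fz c i x| ≤ 1 := by
  unfold fz
  have h1 := Dt_abs c i x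
  have h2 := Db_abs c i x
  rw [abs_le] at h1 h2 ⊢
  constructor <;> linarith [h1.1, h1.2, h2.1, h2.2]

theorem integrable_of_bdd {X : Type} [MeasurableSpace X] {μ : Measure X} [IsFiniteMeasure μ]
    {f : X → ℝ} (hf : Measurable f) {C : ℝ} (h : ∀ x, |f x| ≤ C) : Integrable f μ :=
  Integrable.of_bound hf.aestronglyMeasurable C (Filter.Eventually.of_forall fun x => by
    rw [Real.norm_eq_abs]; exact h x)

theorem fz_condExp (c : CtxE) (i : Fin c.k) :
    c.μ[fz c i | (tow c.μ c.T (c.k - 1)).1] =ᵐ[c.μ] 0 := by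
  have hD : Integrable (c.Dt i) c.μ := integrable_of_bdd (Dt_meas c i) (Dt_abs c i)
  have hB : Integrable (c.Db i) c.μ := integrable_of_bdd (Db_meas c i) (Db_abs c i)
  have he : fz c i = (1 / 2 : ℝ) • (c.Dt i - c.Db i) := by
    funext x
    simp [fz]
  have h1 : c.μ[fz c i | (tow c.μ c.T (c.k - 1)).1] =ᵐ[c.μ]
      (1 / 2 : ℝ) • c.μ[c.Dt i - c.Db i | (tow c.μ c.T (c.k - 1)).1] := by
    rw [he]
    exact condExp_smul _ _ _
  have h2 : c.μ[c.Dt i - c.Db i | (tow c.μ c.T (c.k - 1)).1] =ᵐ[c.μ]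
      c.μ[c.Dt i | (tow c.μ c.T (c.k - 1)).1] - c.μ[c.Db i | (tow c.μ c.T (c.k - 1)).1] :=
    condExp_sub hD hB _
  have h3 : c.μ[c.Db i | (tow c.μ c.T (c.k - 1)).1] = c.Db i :=
    condExp_of_stronglyMeasurable (tow c.μ c.T (c.k - 1)).2 (Db_measZ c i).stronglyMeasurable hB
  filter_upwards [h1, h2, Db_ae c i] with x hx1 hx2 hx3
  rw [hx1, Pi.smul_apply, hx2, Pi.sub_apply, h3, hx3]
  simp

/-! ### invariant sets -/

theorem mem_iter {X : Type} {S : X → X} {A : Set X} (h : S ⁻¹' A = A) (n : ℕ) (x : X) :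
    S^[n] x ∈ A ↔ x ∈ A := by
  induction n with
  | zero => simp
  | succ n ih =>
    rw [Function.iterate_succ', Function.comp_apply]
    have h1 : S (S^[n] x) ∈ A ↔ S^[n] x ∈ A := by
      constructor
      · intro h2
        have : S^[n] x ∈ S ⁻¹' A := h2
        rwa [h] at this
      · intro h2
        have : S^[n] x ∈ S ⁻¹' A := by rw [h]; exact h2
        exact this
    rw [h1, ih]

theorem mem_iter_dvd {X : Type} {S : X → X} {A : Set X} {W : ℕ} (h : S^[W] ⁻¹' A = A) {n : ℕ}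
    (hn : W ∣ n) (x : X) : S^[n] x ∈ A ↔ x ∈ A := by
  obtain ⟨r, rfl⟩ := hn
  rw [Function.iterate_mul]
  exact mem_iter h r x

/-! ### the step -/

theorem prod_update {k : ℕ} (g : Fin k → ℝ) (j : Fin k) (a : ℝ) :
    ∏ i, (if i = j then a * g i else g i) = a * ∏ i, g i := by
  rw [← Finset.mul_prod_erase Finset.univ _ (Finset.mem_univ j),
    ← Finset.mul_prod_erase Finset.univ g (Finset.mem_univ j), if_pos rfl, mul_assoc]
  congr 2
  refine Finset.prod_congr rfl fun i hi => ?_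
  rw [if_neg (Finset.ne_of_mem_erase hi)]

theorem step (c : CtxE) (hk : 2 ≤ c.k) (hp3 : T_P3) {W : ℕ} (hW : 0 < W) (hWe : Even W)
    {A : Set c.X} (hA : MeasurableSet[Inv c.T W] A) (l : Fin c.k) (g : Fin c.k → c.X → ℝ)
    (hg : ∀ i, Measurable (g i)) (hb : ∀ i x, |g i x| ≤ 1) (hl : g l = fz c l) (ε : ℝ)
    (hε : 0 < ε) : ∃ m₀, ∀ m, m₀ ≤ m →
      |avgP W m fun p => ∫ x in A, ∏ i, g i (c.T^[(p - 1) * c.β i] x) ∂c.μ| ≤ ε := by
  have hA' := MeasurableSpace.measurableSet_invariants.mp hA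
  obtain ⟨j, hj⟩ : ∃ j : Fin c.k, j ≠ l := by
    by_cases h0 : l.val = 0
    · refine ⟨⟨1, by omega⟩, fun h => ?_⟩
      rw [← h] at h0
      simp at h0
    · refine ⟨⟨0, by omega⟩, fun h => ?_⟩
      rw [← h] at h0
      simp at h0
  obtain ⟨m₀, hm₀⟩ := hp3 c.X c.μ c.T c.k W c.β l (fz c l) ε c.erg c.inj hW hWe (fz_meas c l)
    (fz_abs c l) (fz_condExp c l) hε
  refine ⟨m₀, fun m hm => ?_⟩
  have key := hm₀ m hm
    (fun i => if i = j then (fun x => A.indicator (fun _ => (1 : ℝ)) x * g i x) else g i) ?_ ?_ ?_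
  · have e : (avgP W m fun p => ∫ x in A, ∏ i, g i (c.T^[(p - 1) * c.β i] x) ∂c.μ) =
        avgP W m fun p => ∫ x, ∏ i, (if i = j then
          (fun x => A.indicator (fun _ => (1 : ℝ)) x * g i x) else g i)
            (c.T^[(p - 1) * c.β i] x) ∂c.μ := by
      refine avgP_congr fun p hp => ?_
      rw [← integral_indicator hA'.1]
      congr 1
      funext x
      have e1 : ∏ i, (if i = j then
          (fun x => A.indicator (fun _ => (1 : ℝ)) x * g i x) else g i)
            (c.T^[(p - 1) * c.β i] x) =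
          ∏ i, (if i = j then A.indicator (fun _ => (1 : ℝ)) (c.T^[(p - 1) * c.β j] x) *
            g i (c.T^[(p - 1) * c.β i] x) else g i (c.T^[(p - 1) * c.β i] x)) := by
        refine Finset.prod_congr rfl fun i _ => ?_
        by_cases hi : i = j
        · subst hi
          rw [if_pos rfl, if_pos rfl]
        · rw [if_neg hi, if_neg hi]
      rw [e1, prod_update (fun i => g i (c.T^[(p - 1) * c.β i] x)) j]
      have hm1 : c.T^[(p - 1) * c.β j] x ∈ A ↔ x ∈ A :=
        mem_iter_dvd hA'.2 (Dvd.dvd.mul_right (dvd_of_mem hp) _) x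
      by_cases hx : x ∈ A
      · rw [Set.indicator_of_mem hx, Set.indicator_of_mem (hm1.mpr hx), one_mul]
      · rw [Set.indicator_of_notMem hx, Set.indicator_of_notMem (fun h => hx (hm1.mp h)), zero_mul]
    rw [e]
    exact key
  · intro i
    by_cases hi : i = j
    · rw [if_pos hi]
      exact (measurable_const.indicator hA'.1).mul (hg i)
    · rw [if_neg hi]
      exact hg i
  · intro i x
    by_cases hi : i = j
    · rw [if_pos hi]
      by_cases hx : x ∈ A
      · simp only [Set.indicator_of_mem hx, one_mul]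
        exact hb i x
      · simp only [Set.indicator_of_notMem hx, zero_mul, abs_zero]
        exact zero_le_one
    · rw [if_neg hi]
      exact hb i x
  · rw [if_neg (Ne.symm hj)]
    exact hl

/-! ### hybrids -/

/-- the first `s` functions are replaced -/
noncomputable def hyb (c : CtxE) (s : ℕ) (i : Fin c.k) : c.X → ℝ :=
  if i.val < s then c.Db i else c.Dt i

theorem hyb_meas (c : CtxE) (s : ℕ) (i : Fin c.k) : Measurable (hyb c s i) := by
  unfold hyb
  by_cases h : i.val < s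
  · rw [if_pos h]; exact Db_meas c i
  · rw [if_neg h]; exact Dt_meas c i

theorem hyb_abs (c : CtxE) (s : ℕ) (i : Fin c.k) (x : c.X) : |hyb c s i x| ≤ 1 := by
  unfold hyb
  by_cases h : i.val < s
  · rw [if_pos h]; exact Db_abs c i x
  · rw [if_neg h]; exact Dt_abs c i x

/-- the average for the hybrid -/
noncomputable def II (c : CtxE) (W : ℕ) (A : Set c.X) (s m : ℕ) : ℝ :=
  avgP W m fun p => ∫ x in A, ∏ i, hyb c s i (c.T^[(p - 1) * c.β i] x) ∂c.μ

theorem prod_meas (c : CtxE) (g : Fin c.k → c.X → ℝ) (hg : ∀ i, Measurable (g i)) (p : ℕ) :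
    Measurable fun x => ∏ i, g i (c.T^[(p - 1) * c.β i] x) :=
  Finset.measurable_prod _ fun i _ => (hg i).comp (c.T.measurable.iterate _)

theorem prod_abs (c : CtxE) (g : Fin c.k → c.X → ℝ) (hb : ∀ i x, |g i x| ≤ 1) (p : ℕ) (x : c.X) :
    |∏ i, g i (c.T^[(p - 1) * c.β i] x)| ≤ 1 := by
  rw [Finset.abs_prod]
  exact Finset.prod_le_one (fun i _ => abs_nonneg _) fun i _ => hb i _

theorem int_abs (c : CtxE) (A : Set c.X) (g : Fin c.k → c.X → ℝ)
    (hb : ∀ i x, |g i x| ≤ 1) (p : ℕ) :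
    |∫ x in A, ∏ i, g i (c.T^[(p - 1) * c.β i] x) ∂c.μ| ≤ 1 := by
  have h := norm_setIntegral_le_of_norm_le_const (μ := c.μ) (s := A) (C := 1)
    (f := fun x => ∏ i, g i (c.T^[(p - 1) * c.β i] x)) (measure_lt_top _ _)
    (fun x _ => by rw [Real.norm_eq_abs]; exact prod_abs c g hb p x)
  rw [Real.norm_eq_abs, one_mul] at h
  exact h.trans measureReal_le_one

theorem II_abs (c : CtxE) (W : ℕ) (A : Set c.X) (s : ℕ) : ∃ C, ∀ m, |II c W A s m| ≤ C :=
  ⟨1, fun _ => abs_avgP_le zero_le_one fun p =>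
    int_abs c A (hyb c s) (hyb_abs c s) p⟩

theorem II_step (c : CtxE) (hk : 2 ≤ c.k) (hp3 : T_P3) {W : ℕ} (hW : 0 < W) (hWe : Even W)
    {A : Set c.X} (hA : MeasurableSet[Inv c.T W] A) (s : ℕ) (hs : s < c.k) :
    Tendsto (fun m => II c W A s m - II c W A (s + 1) m) atTop (𝓝 0) := by
  set l : Fin c.k := ⟨s, hs⟩ with hldef
  have hgm : ∀ i, Measurable (if i = l then fz c i else hyb c s i) := by
    intro i
    by_cases hi : i = l
    · rw [if_pos hi]; exact fz_meas c i
    · rw [if_neg hi]; exact hyb_meas c s i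
  have hgb : ∀ i x, |(if i = l then fz c i else hyb c s i) x| ≤ 1 := by
    intro i x
    by_cases hi : i = l
    · rw [if_pos hi]; exact fz_abs c i x
    · rw [if_neg hi]; exact hyb_abs c s i x
  have heq : ∀ m, II c W A s m - II c W A (s + 1) m =
      2 * avgP W m fun p => ∫ x in A, ∏ i, (if i = l then fz c i else hyb c s i)
        (c.T^[(p - 1) * c.β i] x) ∂c.μ := by
    intro m
    unfold II
    rw [avgP_sub, ← avgP_mul]
    refine avgP_congr fun p _ => ?_
    rw [← integral_sub, ← integral_const_mul]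
    · congr 1
      funext x
      rw [← Finset.mul_prod_erase Finset.univ _ (Finset.mem_univ l),
        ← Finset.mul_prod_erase Finset.univ
          (fun i => hyb c (s + 1) i (c.T^[(p - 1) * c.β i] x)) (Finset.mem_univ l),
        ← Finset.mul_prod_erase Finset.univ
          (fun i => (if i = l then fz c i else hyb c s i) (c.T^[(p - 1) * c.β i] x))
          (Finset.mem_univ l)]
      have e1 : ∏ i ∈ Finset.univ.erase l, hyb c (s + 1) i (c.T^[(p - 1) * c.β i] x) =
          ∏ i ∈ Finset.univ.erase l, hyb c s i (c.T^[(p - 1) * c.β i] x) := by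
        refine Finset.prod_congr rfl fun i hi => ?_
        have hne : i.val ≠ s := fun h => Finset.ne_of_mem_erase hi (Fin.ext h)
        have e2 : hyb c (s + 1) i = hyb c s i := by
          unfold hyb
          by_cases h : i.val < s
          · rw [if_pos h, if_pos (by omega)]
          · rw [if_neg h, if_neg (by omega)]
        rw [e2]
      have e3 : ∏ i ∈ Finset.univ.erase l, (if i = l then fz c i else hyb c s i)
          (c.T^[(p - 1) * c.β i] x) =
          ∏ i ∈ Finset.univ.erase l, hyb c s i (c.T^[(p - 1) * c.β i] x) := by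
        refine Finset.prod_congr rfl fun i hi => ?_
        rw [if_neg (Finset.ne_of_mem_erase hi)]
      rw [e1, e3, if_pos rfl]
      have e4 : hyb c s l = c.Dt l := by
        unfold hyb
        rw [if_neg (by simp [hldef])]
      have e5 : hyb c (s + 1) l = c.Db l := by
        unfold hyb
        rw [if_pos (by simp [hldef])]
      rw [e4, e5]
      unfold fz
      ring
    · exact (integrable_of_bdd (prod_meas c _ (hyb_meas c s) p)
        (prod_abs c _ (hyb_abs c s) p)).integrableOn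
    · exact (integrable_of_bdd (prod_meas c _ (hyb_meas c (s + 1)) p)
        (prod_abs c _ (hyb_abs c (s + 1)) p)).integrableOn
  rw [Metric.tendsto_atTop]
  intro ε hε
  obtain ⟨m₀, hm₀⟩ := step c hk hp3 hW hWe hA l
    (fun i => if i = l then fz c i else hyb c s i) hgm hgb (by rw [if_pos rfl]) (ε / 4)
    (by linarith)
  refine ⟨m₀, fun m hm => ?_⟩
  rw [Real.dist_eq, sub_zero, heq m, abs_mul, abs_two]
  have := hm₀ m hm
  linarith

theorem II_ul (c : CtxE) (hk : 2 ≤ c.k) (hul : T_UL) (hp3 : T_P3) {W : ℕ} (hW : 0 < W)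
    (hWe : Even W) {A : Set c.X} (hA : MeasurableSet[Inv c.T W] A) {U : Ultrafilter ℕ}
    (hU : (U : Filter ℕ) ≤ atTop) (s : ℕ) (hs : s ≤ c.k) :
    ul U (II c W A 0) = ul U (II c W A s) := by
  induction s with
  | zero => rfl
  | succ s ih =>
    rw [ih (by omega)]
    exact ul_eq_of_sub hul hU (II_abs c W A s) (II_abs c W A (s + 1))
      (II_step c hk hp3 hW hWe hA s (by omega))

/-! ### the relation -/

theorem prod_sign (c : CtxE) (p : ℕ) (x : c.X) :
    ∏ i, c.Dt i (c.T^[(p - 1) * c.β i] x) = 1 ∨ ∏ i, c.Dt i (c.T^[(p - 1) * c.β i] x) = -1 := by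
  refine Finset.prod_induction _ (fun r : ℝ => r = 1 ∨ r = -1) ?_ (Or.inl rfl)
    fun i _ => Dt_sign c i _
  rintro a b (ha | ha) (hb | hb) <;> rw [ha, hb] <;> simp

theorem rel_int (c : CtxE) {A : Set c.X} (p : ℕ) :
    c.μ.real A - 2 * c.μ.real (A ∩ bd c.T c.β c.σ c.Dt p) =
      c.σ * ∫ x in A, ∏ i, c.Dt i (c.T^[(p - 1) * c.β i] x) ∂c.μ := by
  have hm := prod_meas c c.Dt (Dt_meas c) p
  have hB : MeasurableSet (bd c.T c.β c.σ c.Dt p) := by
    have : bd c.T c.β c.σ c.Dt p =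
        (fun x => ∏ i, c.Dt i (c.T^[(p - 1) * c.β i] x)) ⁻¹' {c.σ}ᶜ := by
      ext x
      simp [bd]
    rw [this]
    exact hm (measurableSet_singleton _).compl
  rw [← integral_const_mul]
  have e : ∀ x, c.σ * ∏ i, c.Dt i (c.T^[(p - 1) * c.β i] x) =
      1 - 2 * (bd c.T c.β c.σ c.Dt p).indicator (fun _ => (1 : ℝ)) x := by
    intro x
    by_cases hx : x ∈ bd c.T c.β c.σ c.Dt p
    · rw [Set.indicator_of_mem hx]
      have hx' : ∏ i, c.Dt i (c.T^[(p - 1) * c.β i] x) ≠ c.σ := hx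
      rcases prod_sign c p x with h | h <;> rcases c.σv with h' | h'
      · exact absurd (h.trans h'.symm) hx'
      · rw [h, h']; norm_num
      · rw [h, h']; norm_num
      · exact absurd (h.trans h'.symm) hx'
    · rw [Set.indicator_of_notMem hx]
      have hx' : ∏ i, c.Dt i (c.T^[(p - 1) * c.β i] x) = c.σ := by
        by_contra h
        exact hx h
      rw [hx']
      rcases c.σv with h' | h' <;> rw [h'] <;> norm_num
  have e1 : (∫ x in A, c.σ * ∏ i, c.Dt i (c.T^[(p - 1) * c.β i] x) ∂c.μ) =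
      ∫ x in A, (1 - 2 * (bd c.T c.β c.σ c.Dt p).indicator (fun _ => (1 : ℝ)) x) ∂c.μ := by
    congr 1
    funext x
    exact e x
  rw [e1, integral_sub (integrable_const _)
    (((integrable_const (1 : ℝ)).indicator hB).const_mul 2), integral_const_mul,
    integral_const, integral_indicator_const _ hB, measureReal_restrict_apply hB,
    measureReal_restrict_apply MeasurableSet.univ, Set.univ_inter, Set.inter_comm A]
  simp

/-- A0 -/
theorem pf_A0 (hul : T_UL) (hpn : T_PN) (hp3 : T_P3) : T_A0 := by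
  intro c hk w A hA
  have hW : 0 < c.W w := Nat.mul_pos c.Qpos (Nat.factorial_pos w)
  have hWe : Even (c.W w) := c.Qev.mul_right _
  have hU := c.hU w
  obtain ⟨_, _, m₀, hm₀⟩ := hpn (c.W w) (c.W w) hW dvd_rfl
  have hbd : ∃ C, ∀ m, |avgP (c.W w) m fun p => c.μ.real (A ∩ bd c.T c.β c.σ c.Dt p)| ≤ C :=
    ⟨1, fun _ => abs_avgP_le zero_le_one fun p => by
      rw [abs_of_nonneg measureReal_nonneg]
      exact measureReal_le_one⟩
  have h1 : Tendsto (fun m => avgP (c.W w) m fun p => c.μ.real (A ∩ bd c.T c.β c.σ c.Dt p))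
      (c.U w : Filter ℕ) (𝓝 (Lam (c.U w) (c.W w) c.μ c.T c.β c.σ c.Dt A)) := (hul (c.U w)).1 _ hbd
  have h2 : Tendsto (II c (c.W w) A 0) (c.U w : Filter ℕ) (𝓝 (ul (c.U w) (II c (c.W w) A 0))) :=
    (hul (c.U w)).1 _ (II_abs c (c.W w) A 0)
  have h3 : Tendsto (fun m => c.μ.real A - 2 * avgP (c.W w) m fun p =>
      c.μ.real (A ∩ bd c.T c.β c.σ c.Dt p)) (c.U w : Filter ℕ)
      (𝓝 (c.μ.real A - 2 * Lam (c.U w) (c.W w) c.μ c.T c.β c.σ c.Dt A)) :=
    (tendsto_const_nhds).sub (h1.const_mul 2)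
  have h4 : Tendsto (fun m => c.σ * II c (c.W w) A 0 m) (c.U w : Filter ℕ)
      (𝓝 (c.σ * ul (c.U w) (II c (c.W w) A 0))) := h2.const_mul _
  have h5 : (fun m => c.μ.real A - 2 * avgP (c.W w) m fun p =>
      c.μ.real (A ∩ bd c.T c.β c.σ c.Dt p)) =ᶠ[(c.U w : Filter ℕ)]
      fun m => c.σ * II c (c.W w) A 0 m := by
    refine (Filter.eventually_ge_atTop m₀).filter_mono hU |>.mono fun m hm => ?_
    have hc := (hm₀ m hm).2
    change c.μ.real A - 2 * avgP (c.W w) m (fun p => c.μ.real (A ∩ bd c.T c.β c.σ c.Dt p)) =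
      c.σ * II c (c.W w) A 0 m
    unfold II
    rw [← avgP_mul, ← avgP_mul, ← avgP_const (W := c.W w) (m := m) (c.μ.real A) hc, avgP_sub]
    refine avgP_congr fun p _ => ?_
    have e0 : hyb c 0 = c.Dt := by
      funext i
      unfold hyb
      rw [if_neg (by omega)]
    rw [e0]
    exact rel_int c p
  have h6 := tendsto_nhds_unique_of_eventuallyEq h3 h4 h5
  rw [one_mul, h6, II_ul c hk hul hp3 hW hWe hA hU c.k le_rfl]
  have e1 : II c (c.W w) A c.k = fun m => avgP (c.W w) m fun p =>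
      ∫ x in A, ∏ i, c.Db i (c.T^[(p - 1) * c.β i] x) ∂c.μ := by
    funext m
    unfold II
    have e0 : hyb c c.k = c.Db := by
      funext i
      unfold hyb
      rw [if_pos i.isLt]
    rw [e0]
  rw [e1]

end Pool.Agent.H66.SG.A0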