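import Pool.Agent.H66.SG.T7

/-!
ABSOLUTE GAP (`MP_c59857_nt`): row A2, the inequality for the conditional variances, rational sets.
-/

set_option autoImplicit false

open MeasureTheory ProbabilityTheory Filter Topology Finset
open scoped Nat ENNReal

namespace Pool.Agent.H66.SG.A2

open Pool.Agent.H67.AG

open Pool.Agent.H67.AG

theorem inv_mono {Ω : Type} [MeasurableSpace Ω] (T : Ω ≃ᵐ Ω) {a b : ℕ} (h : a ∣ b) :
    Inv T a ≤ Inv T b := by
  intro A hA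
  obtain ⟨n, rfl⟩ := h
  rw [MeasurableSpace.measurableSet_invariants] at hA ⊢
  refine ⟨hA.1, ?_⟩
  rw [Function.iterate_mul]
  induction n with
  | zero => rfl
  | succ n ih =>
    rw [Function.iterate_succ, Set.preimage_comp, ih, hA.2]

theorem inv_le_rt {Ω : Type} [MeasurableSpace Ω] (T : Ω ≃ᵐ Ω) {a : ℕ} (h : 0 < a) :
    Inv T a ≤ Rt T :=
  (inv_mono T (Nat.dvd_factorial h le_rfl)).trans (le_iSup (fun w : ℕ => Inv T (w !)) a)

theorem rt_le {Ω : Type} [mΩ : MeasurableSpace Ω] (T : Ω ≃ᵐ Ω) : Rt T ≤ mΩ :=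
  iSup_le fun _ => MeasurableSpace.invariants_le _

theorem dlt_pos {k : ℕ} (β : Fin k → ℕ) : 0 < Dlt β := by
  unfold Dlt
  refine Finset.prod_pos fun i _ => Finset.prod_pos fun j _ => ?_
  split_ifs with h
  · exact one_pos
  · rw [Int.natAbs_pos, sub_ne_zero]
    exact_mod_cast h

theorem int_of_bdd {X : Type} [MeasurableSpace X] (μ : Measure X) [IsProbabilityMeasure μ]
    (f : X → ℝ) (hf : Measurable f) (h0 : ∀ x, 0 ≤ f x) (h1 : ∀ x, f x ≤ 1) : Integrable f μ :=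
  Integrable.of_bound hf.aestronglyMeasurable 1
    (Filter.Eventually.of_forall fun x => by
      rw [Real.norm_eq_abs, abs_of_nonneg (h0 x)]
      exact h1 x)

theorem bd01 {X : Type} (m : MeasurableSpace X) [mX : MeasurableSpace X] (μ : Measure X)
    [IsProbabilityMeasure μ] (hm : m ≤ mX) (f : X → ℝ) (hf : Measurable f) (h0 : ∀ x, 0 ≤ f x)
    (h1 : ∀ x, f x ≤ 1) : ∀ᵐ x ∂μ, 0 ≤ (μ[f | m]) x ∧ (μ[f | m]) x ≤ 1 := by
  have hi := int_of_bdd μ f hf h0 h1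
  have ha : 0 ≤ᵐ[μ] μ[f | m] := condExp_nonneg (Filter.Eventually.of_forall h0)
  have hb : μ[f | m] ≤ᵐ[μ] μ[fun _ => (1 : ℝ) | m] :=
    condExp_mono hi (integrable_const 1) (Filter.Eventually.of_forall h1)
  rw [condExp_const hm] at hb
  filter_upwards [ha, hb] with x hx hx'
  exact ⟨hx, hx'⟩

theorem var_le {X : Type} [MeasurableSpace X] (μ : Measure X) [IsProbabilityMeasure μ] {k : ℕ}
    (u v : Fin k → X → ℝ) (hu : ∀ i, Integrable (u i) μ) (hv : ∀ i, Integrable (v i) μ)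
    (hu01 : ∀ i, ∀ᵐ x ∂μ, 0 ≤ u i x ∧ u i x ≤ 1) (hv01 : ∀ i, ∀ᵐ x ∂μ, 0 ≤ v i x ∧ v i x ≤ 1)
    (I : Finset (Fin k)) (A : Set X) :
    ∫ x in A, ((∑ i ∈ I, u i x) - (∑ i ∈ I, u i x) ^ 2 / 2) ∂μ ≤
      ∫ x in A, ((∑ i ∈ I, v i x) - (∑ i ∈ I, v i x) ^ 2 / 2) ∂μ +
        (1 + k) * ∑ i, ∫ x, |u i x - v i x| ∂μ := by
  have hs : ∀ (w : Fin k → X → ℝ), (∀ i, Integrable (w i) μ) →
      (∀ i, ∀ᵐ x ∂μ, 0 ≤ w i x ∧ w i x ≤ 1) →
      Integrable (fun x => (∑ i ∈ I, w i x) - (∑ i ∈ I, w i x) ^ 2 / 2) μ ∧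
        ∀ᵐ x ∂μ, 0 ≤ ∑ i ∈ I, w i x ∧ ∑ i ∈ I, w i x ≤ k := by
    intro w hw hw01
    have hb : ∀ᵐ x ∂μ, 0 ≤ ∑ i ∈ I, w i x ∧ ∑ i ∈ I, w i x ≤ k := by
      filter_upwards [ae_all_iff.2 hw01] with x hx
      refine ⟨Finset.sum_nonneg fun i _ => (hx i).1, ?_⟩
      calc ∑ i ∈ I, w i x ≤ ∑ _i ∈ I, (1 : ℝ) := Finset.sum_le_sum fun i _ => (hx i).2
        _ = I.card := by rw [Finset.sum_const, nsmul_eq_mul, mul_one]
        _ ≤ k := by
          have := Finset.card_le_univ I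
          rw [Fintype.card_fin] at this
          exact_mod_cast this
    have hi : Integrable (fun x => ∑ i ∈ I, w i x) μ := integrable_finsetSum I fun i _ => hw i
    refine ⟨hi.sub ?_, hb⟩
    have h2 : Integrable (fun x => (∑ i ∈ I, w i x) ^ 2) μ := by
      refine Integrable.of_bound (hi.aestronglyMeasurable.pow 2) ((k : ℝ) ^ 2) ?_
      filter_upwards [hb] with x hx
      rw [Real.norm_eq_abs, abs_pow, abs_of_nonneg hx.1]
      exact pow_le_pow_left₀ hx.1 hx.2 2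
    exact h2.div_const 2
  obtain ⟨iu, bu⟩ := hs u hu hu01
  obtain ⟨iv, bv⟩ := hs v hv hv01
  have id : ∀ i, Integrable (fun x => |u i x - v i x|) μ := fun i => ((hu i).sub (hv i)).abs
  have isum : Integrable (fun x => ∑ i, |u i x - v i x|) μ :=
    integrable_finsetSum Finset.univ fun i _ => id i
  have ir : Integrable (fun x => (1 + (k : ℝ)) * ∑ i, |u i x - v i x|) μ := isum.const_mul _
  have hpt : ∀ᵐ x ∂μ, (∑ i ∈ I, u i x) - (∑ i ∈ I, u i x) ^ 2 / 2 ≤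
      ((∑ i ∈ I, v i x) - (∑ i ∈ I, v i x) ^ 2 / 2) +
        (1 + (k : ℝ)) * ∑ i, |u i x - v i x| := by
    filter_upwards [bu, bv] with x hx hx'
    have hd : |(∑ i ∈ I, u i x) - ∑ i ∈ I, v i x| ≤ ∑ i, |u i x - v i x| := by
      rw [← Finset.sum_sub_distrib]
      exact (Finset.abs_sum_le_sum_abs _ _).trans
        (Finset.sum_le_sum_of_subset_of_nonneg (Finset.subset_univ _) fun i _ _ => abs_nonneg _)
    set a := ∑ i ∈ I, u i x
    set b := ∑ i ∈ I, v i x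
    have h3 : a - a ^ 2 / 2 - (b - b ^ 2 / 2) = (a - b) * (1 - (a + b) / 2) := by ring
    have h4 : (a - b) * (1 - (a + b) / 2) ≤ |a - b| * (1 + k) := by
      refine (le_abs_self _).trans ?_
      rw [abs_mul]
      refine mul_le_mul_of_nonneg_left ?_ (abs_nonneg _)
      rw [abs_le]
      constructor <;> linarith [hx.1, hx.2, hx'.1, hx'.2]
    have h5 : |a - b| * (1 + k) ≤ (1 + (k : ℝ)) * ∑ i, |u i x - v i x| := by
      rw [mul_comm]
      exact mul_le_mul_of_nonneg_left hd (by positivity)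
    linarith
  have h6 : ∫ x in A, ((∑ i ∈ I, u i x) - (∑ i ∈ I, u i x) ^ 2 / 2) ∂μ ≤
      ∫ x in A, (((∑ i ∈ I, v i x) - (∑ i ∈ I, v i x) ^ 2 / 2) +
        (1 + (k : ℝ)) * ∑ i, |u i x - v i x|) ∂μ :=
    integral_mono_ae iu.integrableOn (iv.add ir).integrableOn (ae_restrict_of_ae hpt)
  rw [integral_add iv.integrableOn ir.integrableOn] at h6
  have h7 : ∫ x in A, (1 + (k : ℝ)) * ∑ i, |u i x - v i x| ∂μ ≤
      ∫ x, (1 + (k : ℝ)) * ∑ i, |u i x - v i x| ∂μ :=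
    setIntegral_le_integral ir (Filter.Eventually.of_forall fun x => by positivity)
  have h8 : ∫ x, (1 + (k : ℝ)) * ∑ i, |u i x - v i x| ∂μ =
      (1 + k) * ∑ i, ∫ x, |u i x - v i x| ∂μ := by
    rw [integral_const_mul, integral_finsetSum _ fun i _ => id i]
  linarith

theorem pf_A2 (h1 : T_A1) (hle : T_LE) (hra : T_RA) (hlv : T_LV) : T_A2 := by
  intro c hk I
  have hmp : MeasurePreserving c.T c.μ c.μ := c.erg.toMeasurePreserving
  have haam : ∀ i, Measurable (c.aa i) := by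
    intro i
    unfold CtxE.aa CtxE.Db
    have hm : Measurable (c.μ[c.Dt i | (tow c.μ c.T (c.k - 1)).1]) :=
      (stronglyMeasurable_condExp.mono (tow c.μ c.T (c.k - 1)).2).measurable
    exact measurable_const.sub ((measurable_const.max (measurable_const.min hm)).pow_const 2)
  have haa0 : ∀ i x, 0 ≤ c.aa i x ∧ c.aa i x ≤ 1 := by
    intro i x
    unfold CtxE.aa
    have h2 : -1 ≤ c.Db i x := le_max_left _ _
    have h3 : c.Db i x ≤ 1 := max_le (by norm_num) (min_le_left _ _)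
    constructor <;> nlinarith
  have hcb : ∀ m : MeasurableSpace c.X, m ≤ c.mX → ∀ i,
      ∀ᵐ x ∂c.μ, 0 ≤ (c.μ[c.aa i | m]) x ∧ (c.μ[c.aa i | m]) x ≤ 1 := fun m hm i =>
    @bd01 c.X m c.mX c.μ _ hm (c.aa i) (haam i) (fun x => (haa0 i x).1) (fun x => (haa0 i x).2)
  -- the errors tend to zero
  have herr : ∀ (i : Fin c.k) (D : ℕ), 0 < D → Tendsto (fun w => ∫ x,
      |(c.μ[c.aa i | Rt c.T]) x - (c.μ[c.aa i | Inv c.T (c.W w * D)]) x| ∂c.μ)
      (c.V : Filter ℕ) (𝓝 0) := by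
    intro i D hD
    refine Tendsto.mono_left ?_ c.hV
    rw [Metric.tendsto_atTop]
    intro ε hε
    obtain ⟨w₀, hw₀⟩ := hlv c.X c.μ c.T (c.aa i) (ε / 2) (haam i)
      ⟨1, fun x => by rw [abs_of_nonneg (haa0 i x).1]; exact (haa0 i x).2⟩ (by positivity)
    refine ⟨w₀, fun w hw => ?_⟩
    have h3 := hw₀ (c.W w * D)
      (Nat.mul_pos (Nat.mul_pos c.Qpos (Nat.factorial_pos w)) hD)
      (Dvd.dvd.mul_right (Dvd.dvd.mul_left (Nat.factorial_dvd_factorial hw) _) _)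
    rw [Real.dist_eq, sub_zero, abs_of_nonneg (integral_nonneg fun x => abs_nonneg _)]
    linarith
  have hVR : ∀ m : MeasurableSpace c.X, m ≤ c.mX →
      Integrable (fun x => c.VI m I x - c.VI m I x ^ 2 / 2) c.μ := by
    intro m hm
    have h2 : Integrable (fun x => c.VI m I x) c.μ :=
      integrable_finsetSum I fun i _ => integrable_condExp
    refine h2.sub (Integrable.div_const ?_ 2)
    refine Integrable.of_bound (h2.aestronglyMeasurable.pow 2) ((c.k : ℝ) ^ 2) ?_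
    filter_upwards [ae_all_iff.2 (hcb m hm)] with x hx
    have h3 : 0 ≤ c.VI m I x := Finset.sum_nonneg fun i _ => (hx i).1
    have h4 : c.VI m I x ≤ c.k := by
      calc c.VI m I x ≤ ∑ _i ∈ I, (1 : ℝ) := Finset.sum_le_sum fun i _ => (hx i).2
        _ = I.card := by rw [Finset.sum_const, nsmul_eq_mul, mul_one]
        _ ≤ c.k := by
          have := Finset.card_le_univ I
          rw [Fintype.card_fin] at this
          exact_mod_cast this
    rw [Real.norm_eq_abs, abs_pow, abs_of_nonneg h3]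
    exact pow_le_pow_left₀ h3 h4 2
  have hem : Measurable c.e := c.em.mono (rt_le c.T) le_rfl
  have hei : Integrable c.e c.μ := int_of_bdd c.μ c.e hem (fun x => (c.e0 x).1) fun x => (c.e0 x).2
  have hRm : Measurable[Rt c.T] (fun x => c.VI (Rt c.T) I x) := by
    unfold CtxE.VI
    exact Finset.measurable_fun_sum I fun i _ => stronglyMeasurable_condExp.measurable
  have hYQ : MeasurableSet[Inv c.T c.Q] c.Y :=
    MeasurableSpace.measurableSet_invariants.2 ⟨c.Ym, c.Yinv⟩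
  have key := hra c.X c.μ c.T c.Q
    (fun x => c.VI (Rt c.T) I x - c.VI (Rt c.T) I x ^ 2 / 2 - 4 * c.e x) c.Y c.Qpos
    ((hRm.sub ((hRm.pow_const 2).div_const 2)).sub (c.em.const_mul 4))
    ((hVR _ (rt_le c.T)).sub (hei.const_mul 4)) hYQ ?_
  · filter_upwards [key] with x hx hxY
    have := hx hxY
    linarith
  intro w₀ A hA hAY
  have hAR : MeasurableSet[Rt c.T] A :=
    inv_le_rt c.T (Nat.mul_pos c.Qpos (Nat.factorial_pos w₀)) A hA
  have hAm : MeasurableSet A := rt_le c.T A hAR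
  have hfac : Fac c.μ c.T c.μ c.T (id : c.X → c.X) := ⟨MeasurePreserving.id _, fun _ => rfl⟩
  have hLam := hle c c.X c.μ c.T id A hmp hfac hAR (by simpa using hAY)
  simp only [id] at hLam
  -- the right hand side
  have hRHS : Tendsto (fun w => 4 * Lam (c.U w) (c.W w) c.μ c.T c.β c.σ c.Dt A +
      c.k * ∑ i, (∫ x, |(c.μ[c.aa i | Rt c.T]) x -
        (c.μ[c.aa i | Inv c.T (c.W w * Dlt c.β)]) x| ∂c.μ +
        ∫ x, |(c.μ[c.aa i | Rt c.T]) x - (c.μ[c.aa i | Inv c.T (c.W w * 1)]) x| ∂c.μ) +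
      (c.k : ℝ) ^ 2 / w + (1 + c.k) * ∑ i, ∫ x, |(c.μ[c.aa i | Rt c.T]) x -
        (c.μ[c.aa i | Inv c.T (c.W w * 1)]) x| ∂c.μ) (c.V : Filter ℕ)
      (𝓝 (4 * ∫ x in A, c.e x ∂c.μ)) := by
    have e1 := hLam.const_mul 4
    have e2 : Tendsto (fun w => c.k * ∑ i, (∫ x, |(c.μ[c.aa i | Rt c.T]) x -
        (c.μ[c.aa i | Inv c.T (c.W w * Dlt c.β)]) x| ∂c.μ +
        ∫ x, |(c.μ[c.aa i | Rt c.T]) x - (c.μ[c.aa i | Inv c.T (c.W w * 1)]) x| ∂c.μ))
        (c.V : Filter ℕ) (𝓝 (c.k * ∑ _i : Fin c.k, ((0 : ℝ) + 0))) :=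
      (tendsto_finsetSum _ fun i _ =>
        (herr i (Dlt c.β) (dlt_pos c.β)).add (herr i 1 one_pos)).const_mul _
    have e3 : Tendsto (fun w : ℕ => (c.k : ℝ) ^ 2 / (w : ℝ)) (c.V : Filter ℕ) (𝓝 0) :=
      (tendsto_const_div_atTop_nhds_zero_nat ((c.k : ℝ) ^ 2)).mono_left c.hV
    have e4 : Tendsto (fun w => (1 + (c.k : ℝ)) * ∑ i, ∫ x, |(c.μ[c.aa i | Rt c.T]) x -
        (c.μ[c.aa i | Inv c.T (c.W w * 1)]) x| ∂c.μ) (c.V : Filter ℕ)
        (𝓝 ((1 + (c.k : ℝ)) * ∑ _i : Fin c.k, (0 : ℝ))) :=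
      (tendsto_finsetSum _ fun i _ => herr i 1 one_pos).const_mul _
    have e5 := ((e1.add e2).add e3).add e4
    simpa using e5
  have hev : ∀ᶠ w in (c.V : Filter ℕ),
      ∫ x in A, (c.VI (Rt c.T) I x - c.VI (Rt c.T) I x ^ 2 / 2) ∂c.μ ≤
      4 * Lam (c.U w) (c.W w) c.μ c.T c.β c.σ c.Dt A +
      c.k * ∑ i, (∫ x, |(c.μ[c.aa i | Rt c.T]) x -
        (c.μ[c.aa i | Inv c.T (c.W w * Dlt c.β)]) x| ∂c.μ +
        ∫ x, |(c.μ[c.aa i | Rt c.T]) x - (c.μ[c.aa i | Inv c.T (c.W w * 1)]) x| ∂c.μ) +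
      (c.k : ℝ) ^ 2 / w + (1 + c.k) * ∑ i, ∫ x, |(c.μ[c.aa i | Rt c.T]) x -
        (c.μ[c.aa i | Inv c.T (c.W w * 1)]) x| ∂c.μ := by
    refine Filter.Eventually.filter_mono c.hV ?_
    filter_upwards [eventually_ge_atTop (max w₀ 1)] with w hw
    have hw0 : w₀ ≤ w := (le_max_left _ _).trans hw
    have hw1 : 0 < w := (le_max_right _ _).trans hw
    have hAw : MeasurableSet[Inv c.T (c.W w)] A :=
      inv_mono c.T (Nat.mul_dvd_mul_left _ (Nat.factorial_dvd_factorial hw0)) A hA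
    have h2 := h1 c hk w I A hw1 hAw
    have h3 := var_le c.μ (fun i => c.μ[c.aa i | Rt c.T])
      (fun i => c.μ[c.aa i | Inv c.T (c.W w)]) (fun i => integrable_condExp)
      (fun i => integrable_condExp) (hcb _ (rt_le c.T))
      (hcb _ (MeasurableSpace.invariants_le _)) I A
    have h4 : ∑ i, ∫ x, |(c.μ[c.aa i | Inv c.T (c.W w * Dlt c.β)]) x -
        (c.μ[c.aa i | Inv c.T (c.W w)]) x| ∂c.μ ≤
        ∑ i, (∫ x, |(c.μ[c.aa i | Rt c.T]) x -
        (c.μ[c.aa i | Inv c.T (c.W w * Dlt c.β)]) x| ∂c.μ +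
        ∫ x, |(c.μ[c.aa i | Rt c.T]) x - (c.μ[c.aa i | Inv c.T (c.W w * 1)]) x| ∂c.μ) := by
      refine Finset.sum_le_sum fun i _ => ?_
      rw [mul_one]
      have ia : Integrable (fun x => |(c.μ[c.aa i | Rt c.T]) x -
        (c.μ[c.aa i | Inv c.T (c.W w * Dlt c.β)]) x|) c.μ :=
        (integrable_condExp.sub integrable_condExp).abs
      have ib : Integrable (fun x => |(c.μ[c.aa i | Rt c.T]) x -
        (c.μ[c.aa i | Inv c.T (c.W w)]) x|) c.μ :=
        (integrable_condExp.sub integrable_condExp).abs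
      have ic : Integrable (fun x => |(c.μ[c.aa i | Inv c.T (c.W w * Dlt c.β)]) x -
        (c.μ[c.aa i | Inv c.T (c.W w)]) x|) c.μ :=
        (integrable_condExp.sub integrable_condExp).abs
      rw [← integral_add ia ib]
      refine integral_mono ic (ia.add ib) fun x => ?_
      have := abs_sub_le ((c.μ[c.aa i | Inv c.T (c.W w * Dlt c.β)]) x)
        ((c.μ[c.aa i | Rt c.T]) x) ((c.μ[c.aa i | Inv c.T (c.W w)]) x)
      rw [abs_sub_comm ((c.μ[c.aa i | Inv c.T (c.W w * Dlt c.β)]) x)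
        ((c.μ[c.aa i | Rt c.T]) x)] at this
      exact this
    have h5 := mul_le_mul_of_nonneg_left h4 (Nat.cast_nonneg (α := ℝ) c.k)
    rw [mul_one] at h5 ⊢
    have h6 : ∫ x in A, (c.VI (Rt c.T) I x - c.VI (Rt c.T) I x ^ 2 / 2) ∂c.μ ≤
      ∫ x in A, (c.VI (Inv c.T (c.W w)) I x - c.VI (Inv c.T (c.W w)) I x ^ 2 / 2) ∂c.μ +
        (1 + c.k) * ∑ i, ∫ x, |(c.μ[c.aa i | Rt c.T]) x -
        (c.μ[c.aa i | Inv c.T (c.W w)]) x| ∂c.μ := h3
    linarith
  have hfin := le_of_tendsto_of_tendsto tendsto_const_nhds hRHS hev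
  rw [integral_sub (hVR _ (rt_le c.T)).integrableOn (hei.const_mul 4).integrableOn,
    integral_const_mul]
  linarith

end Pool.Agent.H66.SG.A2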