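import Pool.Agent.H66.SG.T9

/-!
ABSOLUTE GAP, section 9, row ARR: the families of densities which come from a failure of the local
statement.
-/

set_option autoImplicit false

open Filter Finset
open scoped Nat

namespace Pool.Agent.H66.SG.ARR

open Pool.Agent.H67.AG

open Pool.Agent.H24.MR (lam dens)
open Pool.Agent.H24.T2 (Pset rel)
open Pool.Agent.H80.AG

/-- a member of a finite set with a large weighted value -/
lemma exists_ge_avg {M : Finset ℕ} {wt S : ℕ → ℝ} {x : ℝ} (h0 : ∀ m ∈ M, 0 ≤ wt m)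
    (h1 : ∑ m ∈ M, wt m = 1) (h2 : x ≤ ∑ m ∈ M, wt m * S m) : ∃ m ∈ M, x ≤ S m := by
  have hne : M.Nonempty := by
    rw [Finset.nonempty_iff_ne_empty]
    rintro rfl
    simp at h1
  obtain ⟨m, hm, hmax⟩ := Finset.exists_max_image M S hne
  refine ⟨m, hm, h2.trans ?_⟩
  calc ∑ m' ∈ M, wt m' * S m' ≤ ∑ m' ∈ M, wt m' * S m :=
        Finset.sum_le_sum fun m' hm' => mul_le_mul_of_nonneg_left (hmax m' hm') (h0 m' hm')
    _ = S m := by rw [← Finset.sum_mul, h1, one_mul]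

/-- **Row ARR.** -/
theorem pf_ARR (hM : T_MMX) (hE : T_ENS) : T_ARR := by
  classical
  intro η hη hη1 hnot
  unfold LocN at hnot
  push Not at hnot
  obtain ⟨k, Q, β, hQ, hQe, hβ, ρ, hρ, hL⟩ := hnot
  choose Mf wt h1 h2 h3 using fun w i => hE Q (k + 1) β (ρ / 2) w i hQ (by positivity)
  refine ⟨k, Q, β, ρ, Mf, hQ, hQe, hβ, hρ, fun w i m hm => (h1 w i m hm).1, fun J => ?_⟩
  -- the scales
  set MJ : Finset ℕ := (range (J + 1) ×ˢ range (J + 1)).biUnion fun x => Mf x.1 x.2 with hMJ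
  have hsub : ∀ w ≤ J, ∀ i ≤ J, Mf w i ⊆ MJ := by
    intro w hw i hi m hm
    rw [hMJ, mem_biUnion]
    exact ⟨(w, i), mem_product.2 ⟨mem_range.2 (by omega), mem_range.2 (by omega)⟩, hm⟩
  have hne : ∀ w i, (Mf w i).Nonempty := by
    intro w i
    rw [Finset.nonempty_iff_ne_empty]
    intro h
    have h4 := h2 w i
    rw [h] at h4
    simp at h4
  have hMJne : MJ.Nonempty := (hne 0 0).mono (hsub 0 (Nat.zero_le _) 0 (Nat.zero_le _))
  set VJ : Finset (Finset ℕ) := MJ.powerset.filter fun B => ∃ (U : Ultrafilter ℕ) (N : ℕ → ℕ),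
    Tendsto N (U : Filter ℕ) atTop ∧ ∀ m ∈ B, RelAt η Q β U N m with hVJ
  obtain ⟨u, hu0, hu1, hu⟩ := hM MJ VJ ρ hMJne
    (fun B hB => Finset.mem_powerset.1 (mem_filter.1 hB).1) hρ (fun v hv hv1 => by
      obtain ⟨U, N, hN, B, hB, hB1, hB2⟩ := hL MJ v hv hv1
      exact ⟨B, mem_filter.2 ⟨Finset.mem_powerset.2 hB, U, N, hN, hB1⟩, hB2⟩)
  have hch : ∀ B : Finset ℕ, ∃ x : Ultrafilter ℕ × (ℕ → ℕ), B ∈ VJ →
      Tendsto x.2 (x.1 : Filter ℕ) atTop ∧ ∀ m ∈ B, RelAt η Q β x.1 x.2 m := by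
    intro B
    by_cases hB : B ∈ VJ
    · obtain ⟨-, U, N, h⟩ := mem_filter.1 hB
      exact ⟨(U, N), fun _ => h⟩
    · exact ⟨(hyperfilter ℕ, id), fun h => absurd h hB⟩
  choose X hX using hch
  let e : Fin VJ.card ≃ VJ := VJ.equivFin.symm
  have hsum : ∀ f : Finset ℕ → ℝ, ∑ a, f (e a) = ∑ B ∈ VJ, f B := by
    intro f
    rw [← Finset.sum_coe_sort VJ f]
    exact Equiv.sum_comp e fun B : VJ => f B
  let F : Fam :=
    { n := VJ.card
      u := fun a => u (e a)
      u0 := fun a => hu0 _ (e a).2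
      u1 := by rw [hsum u, hu1]
      U := fun a => (X (e a)).1
      N := fun a => (X (e a)).2
      hN := fun a => (hX _ (e a).2).1 }
  -- the good pairs
  let GB : Finset ℕ → ℕ → ℕ → ℕ → Prop := fun B w i m =>
    m ∈ B ∧ ∃ c b, GoodAt η Q β (X B).1 (X B).2 w i m c b
  have hm : ∀ w i : ℕ, ∃ m, w ≤ J → i ≤ J →
      m ∈ Mf w i ∧ ρ / 2 ≤ ∑ B ∈ VJ, if GB B w i m then u B else 0 := by
    intro w i
    by_cases hw : w ≤ J ∧ i ≤ J
    swap
    · exact ⟨0, fun h h' => absurd ⟨h, h'⟩ hw⟩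
    have h4 := exists_ge_avg (M := Mf w i) (wt := wt w i)
      (S := fun m => ∑ B ∈ VJ, if GB B w i m then u B else 0) (x := ρ / 2)
      (fun m hm => (h1 w i m hm).2.2) (h2 w i) ?_
    · obtain ⟨m, hm, hm'⟩ := h4
      exact ⟨m, fun _ _ => ⟨hm, hm'⟩⟩
    -- the average
    have h5 : ρ ≤ ∑ m ∈ Mf w i, wt w i m * ∑ B ∈ VJ, if m ∈ B then u B else 0 := by
      calc ρ = ∑ m ∈ Mf w i, wt w i m * ρ := by rw [← Finset.sum_mul, h2, one_mul]
        _ ≤ _ := Finset.sum_le_sum fun m hm => mul_le_mul_of_nonneg_left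
            (hu m (hsub w hw.1 i hw.2 hm)) (h1 w i m hm).2.2
    have h6 : ∑ m ∈ Mf w i, wt w i m * ∑ B ∈ VJ, (if m ∈ B ∧ ¬ GB B w i m then u B else 0) ≤
        ρ / 2 := by
      have h7 : ∑ m ∈ Mf w i, wt w i m * ∑ B ∈ VJ, (if m ∈ B ∧ ¬ GB B w i m then u B else 0) =
          ∑ B ∈ VJ, u B * ∑ m ∈ (Mf w i).filter (fun m => m ∈ B ∧ ¬ GB B w i m), wt w i m := by
        simp only [Finset.mul_sum]
        rw [Finset.sum_comm]
        refine Finset.sum_congr rfl fun B _ => ?_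
        rw [Finset.sum_filter]
        refine Finset.sum_congr rfl fun m _ => ?_
        split_ifs
        · ring
        · ring
      rw [h7]
      calc ∑ B ∈ VJ, u B * ∑ m ∈ (Mf w i).filter (fun m => m ∈ B ∧ ¬ GB B w i m), wt w i m
          ≤ ∑ B ∈ VJ, u B * (ρ / 2) := by
            refine Finset.sum_le_sum fun B hB => mul_le_mul_of_nonneg_left ?_ (hu0 B hB)
            refine h3 w i η hη hη1 (X B).1 (X B).2 (hX B hB).1 _ (filter_subset _ _)
              fun m hm => ?_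
            obtain ⟨-, hmB, hmG⟩ := mem_filter.1 hm
            exact ⟨(hX B hB).2 m hmB, fun h => hmG ⟨hmB, h⟩⟩
        _ = ρ / 2 := by rw [← Finset.sum_mul, hu1, one_mul]
    have h8 : ∑ m ∈ Mf w i, wt w i m * (∑ B ∈ VJ, if m ∈ B then u B else 0) =
        ∑ m ∈ Mf w i, wt w i m * (∑ B ∈ VJ, if GB B w i m then u B else 0) +
        ∑ m ∈ Mf w i, wt w i m * ∑ B ∈ VJ, (if m ∈ B ∧ ¬ GB B w i m then u B else 0) := by
      rw [← Finset.sum_add_distrib]
      refine Finset.sum_congr rfl fun m _ => ?_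
      rw [← mul_add, ← Finset.sum_add_distrib]
      congr 1
      refine Finset.sum_congr rfl fun B _ => ?_
      by_cases h9 : GB B w i m
      · rw [if_pos h9.1, if_pos h9, if_neg (fun h => h.2 h9), add_zero]
      · by_cases h10 : m ∈ B
        · rw [if_pos h10, if_neg h9, if_pos ⟨h10, h9⟩, zero_add]
        · rw [if_neg h10, if_neg h9, if_neg (fun h => h10 h.1), add_zero]
    linarith
  choose m hm using hm
  -- the labels
  let l : Fin F.n → ℕ × ℕ → Lb Q := fun a x =>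
    if h : GB (e a) x.1 x.2 (m x.1 x.2) then (true, (h.2.choose : ZMod Q), h.2.choose_spec.choose)
    else (false, 0, false)
  have hl : ∀ a x, (l a x).1 = true ↔ GB (e a) x.1 x.2 (m x.1 x.2) := by
    intro a x
    by_cases h : GB (e a) x.1 x.2 (m x.1 x.2)
    · have h4 : l a x = (true, (h.2.choose : ZMod Q), h.2.choose_spec.choose) := dif_pos h
      rw [h4]
      exact iff_of_true rfl h
    · have h4 : l a x = (false, 0, false) := dif_neg h
      rw [h4]
      exact iff_of_false (by simp) h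
  refine ⟨F, m, l, fun w hw i hi => ⟨(hm w i hw hi).1, ?_, fun a ha => ?_⟩⟩
  · refine (hm w i hw hi).2.trans (le_of_eq ?_)
    rw [← hsum fun B => if GB B w i (m w i) then u B else 0]
    refine Finset.sum_congr rfl fun a _ => ?_
    by_cases h : GB (e a) w i (m w i)
    · rw [if_pos h, if_pos ((hl a (w, i)).2 h)]
    · rw [if_neg h, if_neg fun h' => h ((hl a (w, i)).1 h')]
  · have h : GB (e a) w i (m w i) := (hl a (w, i)).1 ha
    have h4 : l a (w, i) = (true, (h.2.choose : ZMod Q), h.2.choose_spec.choose) := dif_pos h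
    rw [h4]
    have h5 := h.2.choose_spec.choose_spec.2
    refine le_trans (le_of_eq ?_) h5
    refine Finset.sum_congr rfl fun p _ => ?_
    congr 1
    ext y
    change ((y : ZMod Q) = (h.2.choose : ZMod Q) ∧ _) ↔ _
    rw [ZMod.natCast_eq_natCast_iff]
    exact Iff.rfl

end Pool.Agent.H66.SG.ARR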