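import Pool.Agent.H66.SG.T7

/-!
ABSOLUTE GAP (`MP_c59857_nt`): row S3b, the dichotomy for the shifted selection.
-/

set_option autoImplicit false

open MeasureTheory ProbabilityTheory Filter Topology Finset
open scoped Nat ENNReal

namespace Pool.Agent.H66.SG.S3b

open Pool.Agent.H67.AG

open Pool.Agent.H67.AG

theorem tup_sel {d : Sw} (e : SwE d) (s : e.Ω → Fin d.n) (hs : Measurable s) :
    Tup (fun (i : Fin d.k) (ω : e.Ω) => d.y (s ω) i (e.g ω)) := by
  refine ⟨fun i => ?_, fun i ω => (d.hy (s ω)).2 i (e.g ω)⟩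
  have hg : Measurable e.g := e.fac.1.measurable
  have he : (fun ω : e.Ω => d.y (s ω) i (e.g ω)) =
      fun ω => ∑ b : Fin d.n, if s ω = b then d.y b i (e.g ω) else 0 := by
    funext ω
    simp
  change Measurable (fun ω : e.Ω => d.y (s ω) i (e.g ω))
  rw [he]
  refine Finset.measurable_sum _ fun b _ => ?_
  refine Measurable.ite (hs (measurableSet_singleton b)) (((d.hy b).1 i).comp hg) measurable_const

theorem tup_ys {d : Sw} (e : SwE d) : Tup e.ys := tup_sel e e.s e.sm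

theorem tup_yt {d : Sw} (e : SwE d) (t : ℕ) : Tup (e.yt t) :=
  tup_sel e (fun ω => e.s (e.T^[d.W * t] ω)) (e.sm.comp (e.T.measurable.iterate _))

theorem pf_S3b (hdw : T_DW) (h2 : T_S2) (h3 : T_S3) : T_S3b := by
  intro d e yl L L₂ t A hyl hL hL₂ hA
  have h := hdw e.Ω e.P e.T d.k d.β d.σ d.w d.W d.U yl (e.yt t) A e.mp d.inj d.σv d.hw d.hW
    d.hd d.hU hyl (tup_yt e t) hA
  have h2' := h2 d e L t A hL hA
  have h3' : (d.k : ℝ) * ∑ i, ∫ ω in A, |(e.P[dl yl (e.yt t) i | Inv e.T (d.W * Dlt d.β)]) ω -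
      (e.P[dl yl (e.yt t) i | Inv e.T d.W]) ω| ∂e.P ≤ d.k * ∑ i, E4 e yl L₂ i A := by
    refine mul_le_mul_of_nonneg_left ?_ (Nat.cast_nonneg _)
    exact Finset.sum_le_sum fun i _ => h3 d e yl L₂ t i A hyl hL₂ hA
  unfold EL
  linarith

end Pool.Agent.H66.SG.S3b
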