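import Pool.Agent.H66.SG.T7

/-!
ABSOLUTE GAP (`MP_c59857_nt`), CHL: the choice of the window.
-/

set_option autoImplicit false

open MeasureTheory Filter Topology Finset

namespace Pool.Agent.H66.SG.CHL

open Pool.Agent.H67.AG

open Pool.Agent.H67.AG

theorem meas_dl {Ω : Type} [MeasurableSpace Ω] {k : ℕ} {y y' : Fin k → Ω → ℝ}
    (hy : ∀ i, Measurable (y i)) (hy' : ∀ i, Measurable (y' i)) (i : Fin k) :
    Measurable (dl y y' i) := by
  have h : MeasurableSet {ω | y i ω = y' i ω} := measurableSet_eq_fun (hy i) (hy' i)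
  have h2 : dl y y' i = {ω | y i ω = y' i ω}ᶜ.indicator fun _ => (1 : ℝ) := by
    funext ω
    by_cases h0 : y i ω = y' i ω
    · have h1 : ω ∉ {ω | y i ω = y' i ω}ᶜ := fun h1 => h1 h0
      rw [dl, if_pos h0, Set.indicator_of_notMem h1]
    · rw [dl, if_neg h0, Set.indicator_of_mem (show ω ∈ {ω | y i ω = y' i ω}ᶜ from h0)]
  rw [h2]
  exact measurable_const.indicator h.compl

theorem dl_bd {Ω : Type} [MeasurableSpace Ω] {k : ℕ} (y y' : Fin k → Ω → ℝ) (i : Fin k) (ω : Ω) :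
    0 ≤ dl y y' i ω ∧ dl y y' i ω ≤ 1 := by
  rw [dl]
  split_ifs <;> norm_num

theorem meas_Av {Ω : Type} [MeasurableSpace Ω] (T : Ω ≃ᵐ Ω) (W n : ℕ) {f : Ω → ℝ}
    (hf : Measurable f) : Measurable (Av T W n f) := by
  have : Av T W n f = fun ω => (∑ l ∈ range n, f (T^[W * l] ω)) / n := rfl
  rw [this]
  exact (Finset.measurable_sum _ fun l _ => hf.comp (T.measurable.iterate _)).div_const _

theorem Av_bd {Ω : Type} [MeasurableSpace Ω] (T : Ω ≃ᵐ Ω) (W n : ℕ) {f : Ω → ℝ}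
    (hb : ∀ ω, |f ω| ≤ 1) (ω : Ω) : |Av T W n f ω| ≤ 1 := by
  rw [Av, abs_div, Nat.abs_cast]
  refine div_le_one_of_le₀ ?_ (Nat.cast_nonneg n)
  refine (Finset.abs_sum_le_sum_abs _ _).trans ?_
  refine (Finset.sum_le_sum fun l _ => hb _).trans ?_
  rw [Finset.sum_const, Finset.card_range, nsmul_eq_mul, mul_one]

theorem pf_CHL (hme : T_ME) (hj2 : T_J2) (hj3 : T_J3) : T_CHL := by
  intro c Z W θ hZ hθ
  obtain ⟨hp, _, _, _⟩ := hj2 c.X c.μ Z
  obtain ⟨hT, _⟩ := hj3 c.X c.μ c.T Z c.erg.toMeasurePreserving hZ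
  set P := JJ c.μ Z with hP
  set S := TT c.T with hS
  have hk : (0 : ℝ) < c.k := Nat.cast_pos.2 c.kpos
  set δ : ℝ := θ / c.k with hδ
  have hδ0 : 0 < δ := div_pos hθ hk
  have hf : ∀ i, Measurable (dl c.D1 c.D2 i) := meas_dl
    (fun i => (c.Dm.comp (c.T.measurable.iterate _)).comp measurable_fst)
    (fun i => (c.Dm.comp (c.T.measurable.iterate _)).comp measurable_snd)
  have hb : ∀ i q, |dl c.D1 c.D2 i q| ≤ 1 := fun i q => by
    have := dl_bd c.D1 c.D2 i q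
    rw [abs_of_nonneg this.1]
    exact this.2
  have hev : ∀ i : Fin c.k, ∃ L₀ : ℕ, ∀ L, L₀ ≤ L →
      ∫ q, (Av S W L (dl c.D1 c.D2 i) q - (P[dl c.D1 c.D2 i | Inv S W]) q) ^ 2 ∂P < δ ^ 2 := by
    intro i
    have h1 := hme (c.X × c.X) P S W (dl c.D1 c.D2 i) hT (hf i) (hb i)
    have h2 := h1.eventually (gt_mem_nhds (show (0 : ℝ) < δ ^ 2 by positivity))
    exact eventually_atTop.1 h2
  choose L₀ hL₀ using hev
  refine ⟨∑ i, L₀ i, fun L hL => ?_⟩
  have hc : ∀ i, ∀ᵐ q ∂P, |(P[dl c.D1 c.D2 i | Inv S W]) q| ≤ 1 := fun i =>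
    ae_bdd_abs_condExp_of_ae_bdd_abs (Filter.Eventually.of_forall fun q => hb i q)
  have hcm : ∀ i, AEStronglyMeasurable (P[dl c.D1 c.D2 i | Inv S W]) P := fun i =>
    integrable_condExp.aestronglyMeasurable
  have ham : ∀ i, AEStronglyMeasurable
      (fun q => Av S W L (dl c.D1 c.D2 i) q - (P[dl c.D1 c.D2 i | Inv S W]) q) P := fun i =>
    (meas_Av S W L (hf i)).aestronglyMeasurable.sub (hcm i)
  have hab : ∀ i, ∀ᵐ q ∂P,
      |Av S W L (dl c.D1 c.D2 i) q - (P[dl c.D1 c.D2 i | Inv S W]) q| ≤ 2 := fun i => by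
    filter_upwards [hc i] with q hq
    have := Av_bd S W L (hb i) q
    calc _ ≤ |Av S W L (dl c.D1 c.D2 i) q| + |(P[dl c.D1 c.D2 i | Inv S W]) q| := abs_sub _ _
      _ ≤ 2 := by linarith
  have hi1 : ∀ i, Integrable
      (fun q => |Av S W L (dl c.D1 c.D2 i) q - (P[dl c.D1 c.D2 i | Inv S W]) q|) P := fun i =>
    (Integrable.of_bound (ham i) 2 (by
      filter_upwards [hab i] with q hq
      rw [Real.norm_eq_abs]
      exact hq)).abs
  have hi2 : ∀ i, Integrable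
      (fun q => (Av S W L (dl c.D1 c.D2 i) q - (P[dl c.D1 c.D2 i | Inv S W]) q) ^ 2) P := fun i =>
    Integrable.of_bound ((ham i).pow 2) (2 ^ 2) (by
      filter_upwards [hab i] with q hq
      rw [Real.norm_eq_abs, abs_pow]
      exact pow_le_pow_left₀ (abs_nonneg _) hq 2)
  have hone : ∀ i,
      ∫ q, |Av S W L (dl c.D1 c.D2 i) q - (P[dl c.D1 c.D2 i | Inv S W]) q| ∂P ≤ δ := by
    intro i
    have h1 := hL₀ i L ((Finset.single_le_sum (f := L₀) (fun _ _ => Nat.zero_le _)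
      (Finset.mem_univ i)).trans hL)
    have h2 : ∫ q, |Av S W L (dl c.D1 c.D2 i) q - (P[dl c.D1 c.D2 i | Inv S W]) q| ∂P ≤
        ∫ q, (δ / 2 + (1 / (2 * δ)) *
          (Av S W L (dl c.D1 c.D2 i) q - (P[dl c.D1 c.D2 i | Inv S W]) q) ^ 2) ∂P := by
      refine integral_mono (hi1 i) ((integrable_const _).add ((hi2 i).const_mul _)) fun q => ?_
      show |Av S W L (dl c.D1 c.D2 i) q - (P[dl c.D1 c.D2 i | Inv S W]) q| ≤ _
      set a := Av S W L (dl c.D1 c.D2 i) q - (P[dl c.D1 c.D2 i | Inv S W]) q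
      have h3 : δ / 2 + (1 / (2 * δ)) * a ^ 2 - |a| = (δ - |a|) ^ 2 / (2 * δ) := by
        rw [← sq_abs a]
        field_simp
        ring
      have h4 : 0 ≤ (δ - |a|) ^ 2 / (2 * δ) := by positivity
      linarith
    have h5 : ∫ q, (δ / 2 + (1 / (2 * δ)) *
          (Av S W L (dl c.D1 c.D2 i) q - (P[dl c.D1 c.D2 i | Inv S W]) q) ^ 2) ∂P =
        δ / 2 + (1 / (2 * δ)) *
          ∫ q, (Av S W L (dl c.D1 c.D2 i) q - (P[dl c.D1 c.D2 i | Inv S W]) q) ^ 2 ∂P := by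
      rw [integral_add (integrable_const _) ((hi2 i).const_mul _), integral_const_mul,
        integral_const, probReal_univ, one_smul]
    have h6 : (1 / (2 * δ)) *
        ∫ q, (Av S W L (dl c.D1 c.D2 i) q - (P[dl c.D1 c.D2 i | Inv S W]) q) ^ 2 ∂P ≤
        (1 / (2 * δ)) * δ ^ 2 := mul_le_mul_of_nonneg_left h1.le (by positivity)
    have h7 : (1 / (2 * δ)) * δ ^ 2 = δ / 2 := by
      field_simp
    linarith
  calc ∫ q, |c.dL W L q - Mis P (Inv S W) c.D1 c.D2 q| ∂P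
      ≤ ∫ q, ∑ i, |Av S W L (dl c.D1 c.D2 i) q - (P[dl c.D1 c.D2 i | Inv S W]) q| ∂P := by
        refine integral_mono_of_nonneg (Filter.Eventually.of_forall fun q => abs_nonneg _)
          (integrable_finsetSum _ fun i _ => hi1 i) (Filter.Eventually.of_forall fun q => ?_)
        show |c.dL W L q - Mis P (Inv S W) c.D1 c.D2 q| ≤ _
        rw [CtxE.dL, Mis, ← Finset.sum_sub_distrib]
        exact Finset.abs_sum_le_sum_abs _ _
    _ = ∑ i, ∫ q, |Av S W L (dl c.D1 c.D2 i) q - (P[dl c.D1 c.D2 i | Inv S W]) q| ∂P :=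
        integral_finsetSum _ fun i _ => hi1 i
    _ ≤ ∑ _i : Fin c.k, δ := Finset.sum_le_sum fun i _ => hone i
    _ = θ := by
        rw [Finset.sum_const, Finset.card_univ, Fintype.card_fin, nsmul_eq_mul, hδ]
        field_simp

end Pool.Agent.H66.SG.CHL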