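import Pool.Agent.H66.SG.T7
import Pool.Agent.H66.SG.FIN

/-!
ABSOLUTE GAP (`MP_c59857_nt`): row CHR, choice of the law of the nearby points.
-/

set_option autoImplicit false

open MeasureTheory ProbabilityTheory Filter Topology Finset
open scoped Nat ENNReal

namespace Pool.Agent.H66.SG.CHR

open Pool.Agent.H67.AG Pool.Agent.H66.SG.FIN Pool.Agent.H66.SG.A2

open Pool.Agent.H67.AG Pool.Agent.H66.SG.FIN Pool.Agent.H66.SG.A2

theorem wd_meas (c : CtxE) (W L : ℕ) (v : Fin c.k → Fin L → Bool) :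
    MeasurableSet (c.wd W L ⁻¹' {v}) := by
  have h1 : c.wd W L ⁻¹' {v} = ⋂ i : Fin c.k, ⋂ l : Fin L, {x | c.wd W L x i l = v i l} := by
    ext x
    simp only [Set.mem_preimage, Set.mem_singleton_iff, Set.mem_iInter, Set.mem_ofPred]
    constructor
    · intro h i l
      rw [h]
    · intro h
      funext i l
      exact h i l
  rw [h1]
  refine MeasurableSet.iInter fun i => MeasurableSet.iInter fun l => ?_
  have h2 : MeasurableSet {x | c.Dt i (c.T^[W * l] x) = 1} :=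
    measurableSet_eq_fun ((dt_meas c i).comp (c.T.measurable.iterate _)) measurable_const
  have h3 : ∀ b : Bool, {x | c.wd W L x i l = b} =
      if b then {x | c.Dt i (c.T^[W * l] x) = 1} else {x | c.Dt i (c.T^[W * l] x) = 1}ᶜ := by
    intro b
    cases b
    · ext x
      simp [CtxE.wd]
    · ext x
      simp [CtxE.wd]
  rw [h3]
  split_ifs
  · exact h2
  · exact h2.compl

theorem pf_CHR (hap : T_AP) (hnx : T_NXI) (hqm : T_QM) : T_CHR := by
  intro c Z W L B θ hZ hW hB hθ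
  have hm : MeasurableSet[(nxt c.μ c.T Z).1] B :=
    (hnx c.X c.μ c.T Z c.erg hZ).2.2 B (inv_le_rt c.T hW B hB)
  have hBm : MeasurableSet B := (nxt c.μ c.T Z).2 B hm
  -- the functions
  set fv : (Fin c.k → Fin L → Bool) → c.X → ℝ := fun v x =>
    (kap c.μ (nxt c.μ c.T Z) x).real (c.wd W L ⁻¹' {v}) with hfv
  set fB : c.X → ℝ := B.indicator fun _ => (1 : ℝ) with hfB
  have hfvm : ∀ v, Measurable[(nxt c.μ c.T Z).1] (fv v) := by
    intro v
    have h1 : Measurable[(nxt c.μ c.T Z).1] fun x =>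
        condExpKernel c.μ (nxt c.μ c.T Z).1 x (c.wd W L ⁻¹' {v}) :=
      measurable_condExpKernel (wd_meas c W L v)
    exact h1.ennreal_toReal
  have hfv0 : ∀ v x, 0 ≤ fv v x ∧ fv v x ≤ 1 := fun v x =>
    ⟨measureReal_nonneg, measureReal_le_one⟩
  have hfBm : Measurable[(nxt c.μ c.T Z).1] fB := measurable_const.indicator hm
  have hfB0 : ∀ x, 0 ≤ fB x ∧ fB x ≤ 1 := by
    intro x
    by_cases hx : x ∈ B <;> simp [hfB, hx]
  set g : Option (Fin c.k → Fin L → Bool) → c.X → ℝ := fun o => o.elim fB fv with hg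
  have hgm : ∀ o, Measurable[(nxt c.μ c.T Z).1] (g o) := by
    intro o
    cases o with
    | none => exact hfBm
    | some v => exact hfvm v
  have hg0 : ∀ o x, 0 ≤ g o x ∧ g o x ≤ 1 := by
    intro o x
    cases o with
    | none => exact hfB0 x
    | some v => exact hfv0 v x
  have hgm' : ∀ o, Measurable (g o) := fun o => (hgm o).mono (nxt c.μ c.T Z).2 le_rfl
  set e := Fintype.equivFin (Option (Fin c.k → Fin L → Bool)) with he
  obtain ⟨E, hE, hEi, hE0, hEs⟩ := hap c.X c.μ c.T Z c.erg hZ _ (fun j => g (e.symm j)) θ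
    (fun j => hgm _) (fun j x => by
      rw [abs_of_nonneg (hg0 _ x).1]
      exact (hg0 _ x).2) hθ
  obtain ⟨q1, q2, q3⟩ := (hqm c.X c.μ c.T Z c.erg hZ).2 E hE hEi hE0
  obtain ⟨q4, q5⟩ := (hqm c.X c.μ c.T Z c.erg hZ).1 _ q1 q2 q3
  -- the sum over the options
  have hsum : ∑ o, ∫ q in E, |g o q.1 - g o q.2| ∂(JJ c.μ Z) ≤ θ * (JJ c.μ Z).real E := by
    rw [← e.symm.sum_comp (fun o => ∫ q in E, |g o q.1 - g o q.2| ∂(JJ c.μ Z))]
    exact hEs
  have hcond : ∀ f : c.X × c.X → ℝ, ∫ q, f q ∂((JJ c.μ Z)[|E]) =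
      ((JJ c.μ Z).real E)⁻¹ * ∫ q in E, f q ∂(JJ c.μ Z) := by
    intro f
    rw [ProbabilityTheory.cond, integral_smul_measure, ENNReal.toReal_inv, smul_eq_mul]
    rfl
  have hsum' : ∑ o, ∫ q, |g o q.1 - g o q.2| ∂((JJ c.μ Z)[|E]) ≤ θ := by
    simp only [hcond]
    rw [← Finset.mul_sum, inv_mul_le_iff₀ hE0, mul_comm]
    exact hsum
  rw [Fintype.sum_option] at hsum'
  have hi : ∀ o, Integrable (fun q : c.X × c.X => |g o q.1 - g o q.2|) ((JJ c.μ Z)[|E]) := by
    intro o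
    refine int_of_bdd _ _ (((hgm' o).comp measurable_fst).sub
      ((hgm' o).comp measurable_snd)).abs (fun q => abs_nonneg _) fun q => ?_
    rw [abs_le]
    constructor <;> linarith [(hg0 o q.1).1, (hg0 o q.1).2, (hg0 o q.2).1, (hg0 o q.2).2]
  have hn1 : 0 ≤ ∫ q, |g none q.1 - g none q.2| ∂((JJ c.μ Z)[|E]) :=
    integral_nonneg fun q => abs_nonneg _
  have hn2 : 0 ≤ ∑ v, ∫ q, |g (some v) q.1 - g (some v) q.2| ∂((JJ c.μ Z)[|E]) :=
    Finset.sum_nonneg fun v _ => integral_nonneg fun q => abs_nonneg _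
  refine ⟨(JJ c.μ Z)[|E], q1, q2, q3, q4, q5, ?_, ?_⟩
  · have h1 : ∫ q, ∑ v, |(kap c.μ (nxt c.μ c.T Z) q.1).real (c.wd W L ⁻¹' {v}) -
        (kap c.μ (nxt c.μ c.T Z) q.2).real (c.wd W L ⁻¹' {v})| ∂((JJ c.μ Z)[|E]) =
        ∑ v, ∫ q, |g (some v) q.1 - g (some v) q.2| ∂((JJ c.μ Z)[|E]) :=
      integral_finsetSum _ fun v _ => hi (some v)
    rw [h1]
    linarith
  · have hS : MeasurableSet {q : c.X × c.X | ¬ (q.1 ∈ B ↔ q.2 ∈ B)} := by
      have h1 : MeasurableSet {q : c.X × c.X | q.1 ∈ B} := measurable_fst hBm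
      have h2 : MeasurableSet {q : c.X × c.X | q.2 ∈ B} := measurable_snd hBm
      have h3 : {q : c.X × c.X | ¬ (q.1 ∈ B ↔ q.2 ∈ B)} =
          symmDiff {q : c.X × c.X | q.1 ∈ B} {q : c.X × c.X | q.2 ∈ B} := by
        ext q
        simp only [Set.mem_ofPred, Set.mem_symmDiff]
        tauto
      rw [h3]
      exact h1.symmDiff h2
    have h1 : ((JJ c.μ Z)[|E]).real {q : c.X × c.X | ¬ (q.1 ∈ B ↔ q.2 ∈ B)} =
        ∫ q, |g none q.1 - g none q.2| ∂((JJ c.μ Z)[|E]) := by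
      rw [← integral_indicator_one hS]
      refine integral_congr_ae (Filter.Eventually.of_forall fun q => ?_)
      show _ = |fB q.1 - fB q.2|
      by_cases h1 : q.1 ∈ B <;> by_cases h2 : q.2 ∈ B <;>
        simp [hfB, Set.indicator, h1, h2]
    rw [h1]
    linarith

end Pool.Agent.H66.SG.CHR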