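import Pool.Agent.H66.SG.AllA
import Pool.Agent.H66.SG.S3b
import Pool.Agent.H66.SG.SW
import Pool.Agent.H37.SG.CB0
import Pool.Agent.H24.SG.CB1
import Pool.Agent.H86.SG.CHG
import Pool.Agent.H86.SG.WDS
import Pool.Agent.H19.SG.GGP
import Pool.Agent.H19.SG.MSM
import Pool.Agent.H17.SG.S3
import Pool.Agent.H98.SG.S4b
import Pool.Agent.H75.SG.S6
import Pool.Agent.H34.SG.SLV

/-!
SHARP GAP (`MP_c59857_nt`): assembly.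
-/

set_option autoImplicit false

namespace Pool.Agent.H66.SG.All

open Pool.Agent.H67.AG.AllF Pool.Agent.H66.SG.AllA

theorem s_S3 : T_S3 := Pool.Agent.H17.SG.pf_S3 c_EC c_PW

theorem s_S3b : T_S3b := Pool.Agent.H66.SG.S3b.pf_S3b s_DW s_S2 s_S3

theorem s_S4b : T_S4b := Pool.Agent.H66.SG.S4b.pf_S4b c_UL c_EC

theorem s_S6 : T_S6 := Pool.Agent.H66.SG.S6.pf_S6 c_UL c_ME c_NA s_S1

theorem s_SW : T_SW := Pool.Agent.H66.SG.SW.pf_SW s_S3b s_S4 s_S4b s_S5 s_S6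

theorem s_SLV : T_SLV := Pool.Agent.H66.SG.SLV.pf_SLV

theorem s_MSM : T_MSM := Pool.Agent.H66.SG.MSM.pf_MSM s_SLV

theorem s_GGP : T_GGP := Pool.Agent.H66.SG.GGP.pf_GGP s_DRM c_PNL c_PXL c_MEM c_RPC c_NCO c_DGJ

theorem s_CHG : T_CHG := Pool.Agent.H86.SG.pf_CHG c_ME c_J2 c_J3

theorem s_WDS : T_WDS := Pool.Agent.H86.SG.pf_WDS c_PNL c_PXL c_MEM c_RPC c_NCO c_DGJ

theorem s_CB0 : T_CB0 := Pool.Agent.H66.SG.CB0.pf_CB0 s_CLM s_CHW s_CHL s_CHG s_CHR s_GGP s_WDS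
  s_SLV s_SW c_NA c_NXI c_J2 c_J3 c_PNL c_PNT c_PXL c_PXT c_PXF

theorem s_CB1 : T_CB1 := Pool.Agent.H66.SG.CB1.pf_CB1 c_NXI c_TRI c_MN s_MSM s_SLV s_LMD s_LMF
  c_PNL c_PXL c_PXT c_PXF c_MEM c_QQT

theorem s_CB : T_CB := Pool.Agent.H66.SG.CB.pf_CB s_CB0 s_CB1 s_CB2

/-- the gap `1 / 9` -/
theorem gap : AbsGapAt (1 / 9) := almost s_CB

end Pool.Agent.H66.SG.All
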