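import Pool.Agent.H66.SG.T7
import Pool.Agent.H40.AG.Base

/-!
ABSOLUTE GAP (`MP_c59857_nt`): the end of the descent.
-/

set_option autoImplicit false

open MeasureTheory ProbabilityTheory Filter Topology Finset
open scoped Nat ENNReal

namespace Pool.Agent.H66.SG.CB2

open Pool.Agent.H67.AG

open Pool.Agent.H67.AG Pool.Agent.H40.AG

/-- `QQ` is the law of the pair `(x_0, x'')` -/
theorem qq_map (X : Type) [MeasurableSpace X] [StandardBorelSpace X] (μ : Measure X)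
    [IsProbabilityMeasure μ] (Z : SA X) (R : Measure (X × X)) :
    QQ μ Z R = (PX μ Z 1 R).map fun q => (q.2.1 0, q.2.2) := rfl

theorem meas_pair (X : Type) [MeasurableSpace X] :
    Measurable (fun q : XX X 1 => (q.2.1 0, q.2.2)) := by fun_prop

theorem qq_mem (hmem : T_MEM) (hpxl : T_PXL) (X : Type) [MeasurableSpace X]
    [StandardBorelSpace X] (μ : Measure X) [IsProbabilityMeasure μ] (Z : SA X)
    (R : Measure (X × X)) [IsProbabilityMeasure R] (h1 : MeasurePreserving Prod.fst R μ)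
    (h2 : MeasurePreserving Prod.snd R μ) (A : Set X) (hA : MeasurableSet[Z.1] A) :
    (QQ μ Z R).real {q | q.1 ∈ A ∧ q.2 ∉ A} ≤ R.real {q | ¬ (q.1 ∈ A ↔ q.2 ∈ A)} := by
  have hA' : MeasurableSet A := Z.2 _ hA
  have hm : MeasurableSet {q : X × X | q.1 ∈ A ∧ q.2 ∉ A} :=
    (measurable_fst hA').inter (measurable_snd hA').compl
  have hm2 : MeasurableSet {q : X × X | ¬ (q.1 ∈ A ↔ q.2 ∈ A)} := by
    have : {q : X × X | ¬ (q.1 ∈ A ↔ q.2 ∈ A)} =
        {q : X × X | q.1 ∈ A ∧ q.2 ∉ A} ∪ {q : X × X | q.1 ∉ A ∧ q.2 ∈ A} := by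
      ext q
      simp only [Set.mem_ofPred_eq, Set.mem_union]
      tauto
    rw [this]
    exact hm.union ((measurable_fst hA').compl.inter (measurable_snd hA'))
  obtain ⟨e1, e2⟩ := (hmem X μ Z 1 A hA).2 R h1 h2
  have e1 := e1 0
  obtain ⟨-, p1, -⟩ := hpxl X μ Z 1 R h1 h2
  have key : (QQ μ Z R) {q | q.1 ∈ A ∧ q.2 ∉ A} ≤ R {q | ¬ (q.1 ∈ A ↔ q.2 ∈ A)} := by
    rw [qq_map, Measure.map_apply (meas_pair X) hm, ← p1.measure_preimage hm2.nullMeasurableSet]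
    apply measure_mono_ae
    filter_upwards [e1, e2] with q e1 e2
    intro hq
    have hq : q.2.1 0 ∈ A ∧ q.2.2 ∉ A := hq
    change ¬ (q.1.1 ∈ A ↔ q.1.2 ∈ A)
    tauto
  exact ENNReal.toReal_mono (measure_ne_top _ _) key

theorem mis_meas {Ω : Type} (m : MeasurableSpace Ω) [mΩ : MeasurableSpace Ω] (P : Measure Ω)
    {k : ℕ} (y y' : Fin k → Ω → ℝ) : Measurable[m] (Mis P m y y') := by
  unfold Mis
  exact Finset.measurable_sum _ fun i _ => stronglyMeasurable_condExp.measurable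

theorem W_pos (c : CtxE) (w : ℕ) : 0 < c.W w := Nat.mul_pos c.Qpos (Nat.factorial_pos w)

theorem inv_pair {X : Type} [MeasurableSpace X] [StandardBorelSpace X] (T : X ≃ᵐ X) (W : ℕ) {A : Set X}
    (hA : MeasurableSet[Inv T W] A) :
    MeasurableSet[Inv (TT T) W] {q : X × X | q.1 ∈ A} ∧
    MeasurableSet[Inv (TT T) W] {q : X × X | q.2 ∈ A} := by
  obtain ⟨h1, h2⟩ := (set_inv_iff T W A).1 hA
  constructor
  · exact (set_inv_iff _ _ _).2 ⟨measurable_fst h1, fun q => by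
      rw [TT_it]; exact h2 q.1⟩
  · exact (set_inv_iff _ _ _).2 ⟨measurable_snd h1, fun q => by
      rw [TT_it]; exact h2 q.2⟩

theorem pf_CB2 (hnx : T_NXI) (hfin : T_FIN) (hmem : T_MEM) (hpxl : T_PXL) (hqqa : T_QQA)
    (hqqt : T_QQT) : T_CB2 := by
  intro c Z hZ hmid
  obtain ⟨w, X1, X1', R, θ, hR, hX1, hXg, hX1', hsd, hTR, hRJ, hR1, hR2, hxor, hbig⟩ := hmid
  obtain ⟨hZ', hle, hrt⟩ := hnx c.X c.μ c.T Z c.erg hZ
  have hT : MeasurePreserving c.T c.μ c.μ := c.erg.toMeasurePreserving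
  obtain ⟨q1, q2, q3, q4⟩ := hqqt c.X c.μ c.T (nxt c.μ c.T Z) R hT hZ' hR1 hR2 hTR
  have q5 := hqqa c.X c.μ Z (nxt c.μ c.T Z) R hle hRJ
  set Q := QQ c.μ (nxt c.μ c.T Z) R with hQ
  have hW : 0 < c.W w := W_pos c w
  have hθ : 0 ≤ θ := le_trans measureReal_nonneg hsd
  have hm1 : MeasurableSet X1 := rt_le _ _ hX1
  have hm1' : MeasurableSet X1' := inv_le _ _ _ hX1'
  have hz : MeasurableSet[(nxt c.μ c.T Z).1] X1' := hrt _ (inv_rt c.T hW _ hX1')
  have hx := qq_mem hmem hpxl c.X c.μ (nxt c.μ c.T Z) R hR1 hR2 X1' hz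
  rw [← hQ] at hx
  have hx := hx.trans hxor
  obtain ⟨i1, i2⟩ := inv_pair c.T (c.W w) hX1'
  set B : Set (c.X × c.X) := {q | q.1 ∈ X1' ∧ q.2 ∈ X1' ∧
    Mis Q (Inv (TT c.T) (c.W w)) c.D1 c.D2 q ≤ 1 / 2} with hB
  have hBm : MeasurableSet[Inv (TT c.T) (c.W w)] B := by
    have i3 : MeasurableSet[Inv (TT c.T) (c.W w)]
        {q | Mis Q (Inv (TT c.T) (c.W w)) c.D1 c.D2 q ≤ 1 / 2} :=
      mis_meas (Inv (TT c.T) (c.W w)) Q c.D1 c.D2 measurableSet_Iic
    exact @MeasurableSet.inter _ (Inv (TT c.T) (c.W w)) _ _ i1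
      (@MeasurableSet.inter _ (Inv (TT c.T) (c.W w)) _ _ i2 i3)
  have hbig2 : 100 * θ < Q.real B + θ := by
    refine hbig.trans_le ?_
    have hsub : {q : c.X × c.X | q.1 ∈ X1' ∧
        Mis Q (Inv (TT c.T) (c.W w)) c.D1 c.D2 q ≤ 1 / 2} ⊆
        B ∪ {q | q.1 ∈ X1' ∧ q.2 ∉ X1'} := by
      rintro q ⟨a, b⟩
      by_cases h : q.2 ∈ X1'
      · exact Or.inl ⟨a, h, b⟩
      · exact Or.inr ⟨a, h⟩
    refine (measureReal_mono hsub).trans ((measureReal_union_le _ _).trans ?_)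
    linarith
  have hd1 : Q.real {q | q.1 ∈ X1' \ X1} ≤ θ := by
    have : Q.real {q | q.1 ∈ X1' \ X1} = c.μ.real (X1' \ X1) := by
      unfold Measure.real
      congr 1
      exact q3.measure_preimage (hm1'.diff hm1).nullMeasurableSet
    rw [this]
    refine le_trans (measureReal_mono ?_) hsd
    intro x hx
    exact Or.inr hx
  have hd2 : Q.real {q | q.2 ∈ X1' \ X1} ≤ θ := by
    have : Q.real {q | q.2 ∈ X1' \ X1} = c.μ.real (X1' \ X1) := by
      unfold Measure.real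
      congr 1
      exact q4.measure_preimage (hm1'.diff hm1).nullMeasurableSet
    rw [this]
    refine le_trans (measureReal_mono ?_) hsd
    intro x hx
    exact Or.inr hx
  refine hfin c Z Q (c.W w) X1 B (2 * θ) hZ q2 q5 hW hX1 hXg hBm ?_ ?_ ?_
  · exact ae_of_all _ fun q hq => hq.2.2
  · have hsub : B \ {q | q.1 ∈ X1 ∧ q.2 ∈ X1} ⊆
        {q | q.1 ∈ X1' \ X1} ∪ {q | q.2 ∈ X1' \ X1} := by
      rintro q ⟨⟨a, b, -⟩, hn⟩
      by_cases h : q.1 ∈ X1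
      · exact Or.inr ⟨b, fun h2 => hn ⟨h, h2⟩⟩
      · exact Or.inl ⟨a, h⟩
    refine (measureReal_mono hsub).trans ((measureReal_union_le _ _).trans ?_)
    linarith
  · linarith

end Pool.Agent.H66.SG.CB2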