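import Pool.Agent.H66.SG.T7

/-!
ABSOLUTE GAP (`MP_c59857_nt`), row ER: the density of the errors.
-/

set_option autoImplicit false

open MeasureTheory ProbabilityTheory Filter Topology Finset
open scoped Nat ENNReal

namespace Pool.Agent.H66.SG.ER

open Pool.Agent.H67.AG

open Pool.Agent.H67.AG
open Pool.Agent.H24.T2 (Pset)

/-! ### averages over primes -/

theorem avgP_add (W m : ℕ) (F G : ℕ → ℝ) :
    avgP W m (fun p => F p + G p) = avgP W m F + avgP W m G := by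
  unfold avgP
  rw [Finset.sum_add_distrib, add_div]

theorem avgP_mul (W m : ℕ) (a : ℝ) (F : ℕ → ℝ) :
    avgP W m (fun p => a * F p) = a * avgP W m F := by
  unfold avgP
  rw [← Finset.mul_sum, mul_div_assoc]

theorem avgP_abs (W m : ℕ) (F : ℕ → ℝ) (C : ℝ) (hC : 0 ≤ C) (h : ∀ p, |F p| ≤ C) :
    |avgP W m F| ≤ C := by
  unfold avgP
  rw [abs_div, Nat.abs_cast]
  rcases Nat.eq_zero_or_pos (Ps W m).card with h0 | h0
  · rw [h0]
    simpa using hC
  · rw [div_le_iff₀ (by exact_mod_cast h0)]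
    calc |∑ p ∈ Ps W m, F p| ≤ ∑ p ∈ Ps W m, |F p| := Finset.abs_sum_le_sum_abs _ _
      _ ≤ ∑ _p ∈ Ps W m, C := Finset.sum_le_sum fun p _ => h p
      _ = C * (Ps W m).card := by rw [Finset.sum_const, nsmul_eq_mul, mul_comm]

theorem avgP_nonneg (W m : ℕ) (F : ℕ → ℝ) (h : ∀ p, 0 ≤ F p) : 0 ≤ avgP W m F := by
  unfold avgP
  exact div_nonneg (Finset.sum_nonneg fun p _ => h p) (Nat.cast_nonneg _)

theorem avgP_le (W m : ℕ) (F : ℕ → ℝ) (C : ℝ) (hC : 0 ≤ C) (h : ∀ p, F p ≤ C) :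
    avgP W m F ≤ C := by
  unfold avgP
  rcases Nat.eq_zero_or_pos (Ps W m).card with h0 | h0
  · rw [h0]
    simpa using hC
  · rw [div_le_iff₀ (by exact_mod_cast h0)]
    calc ∑ p ∈ Ps W m, F p ≤ ∑ _p ∈ Ps W m, C := Finset.sum_le_sum fun p _ => h p
      _ = C * (Ps W m).card := by rw [Finset.sum_const, nsmul_eq_mul, mul_comm]

theorem avgP_congr (W m : ℕ) (F G : ℕ → ℝ) (h : ∀ p ∈ Ps W m, F p = G p) :
    avgP W m F = avgP W m G := by
  unfold avgP
  rw [Finset.sum_congr rfl h]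

/-! ### limits along ultrafilters -/

theorem ul_le (hul : T_UL) (U : Ultrafilter ℕ) (f : ℕ → ℝ) (C : ℝ) (hb : ∃ C, ∀ n, |f n| ≤ C)
    (h : ∀ᶠ n in (U : Filter ℕ), f n ≤ C) : ul U f ≤ C := by
  obtain ⟨h1, h2, h3, h4, h5⟩ := hul U
  have := h2 f (fun _ => C) hb ⟨|C|, fun _ => le_rfl⟩ h
  rwa [h5] at this

theorem le_ul (hul : T_UL) (U : Ultrafilter ℕ) (f : ℕ → ℝ) (C : ℝ) (hb : ∃ C, ∀ n, |f n| ≤ C)
    (h : ∀ᶠ n in (U : Filter ℕ), C ≤ f n) : C ≤ ul U f := by
  obtain ⟨h1, h2, h3, h4, h5⟩ := hul U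
  have := h2 (fun _ => C) f ⟨|C|, fun _ => le_rfl⟩ hb h
  rwa [h5] at this

theorem ul_abs (hul : T_UL) (U : Ultrafilter ℕ) (f : ℕ → ℝ) (C : ℝ) (h : ∀ n, |f n| ≤ C) :
    |ul U f| ≤ C :=
  abs_le.2 ⟨le_ul hul U f _ ⟨C, h⟩ (Eventually.of_forall fun n => (abs_le.1 (h n)).1),
    ul_le hul U f _ ⟨C, h⟩ (Eventually.of_forall fun n => (abs_le.1 (h n)).2)⟩

/-! ### the functional -/

section

variable {X : Type} [mX : MeasurableSpace X] (μ : Measure X)
  (B : ℕ → Set X) (Wf : ℕ → ℕ) (V : Ultrafilter ℕ) (U : ℕ → Ultrafilter ℕ)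

/-- the averages -/
noncomputable def inr (f : X → ℝ) (w m : ℕ) : ℝ := avgP (Wf w) m fun p => ∫ x in B p, f x ∂μ

/-- the limit -/
noncomputable def ell (f : X → ℝ) : ℝ := ul V fun w => ul (U w) (inr μ B Wf f w)

theorem int_bd (f : X → ℝ) (hf : Integrable f μ) (S : Set X) :
    |∫ x in S, f x ∂μ| ≤ ∫ x, |f x| ∂μ :=
  (abs_integral_le_integral_abs).trans
    (integral_mono_measure Measure.restrict_le_self (ae_of_all _ fun _ => abs_nonneg _) hf.abs)

theorem inr_abs (f : X → ℝ) (hf : Integrable f μ) (w m : ℕ) :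
    |inr μ B Wf f w m| ≤ ∫ x, |f x| ∂μ :=
  avgP_abs _ _ _ _ (integral_nonneg fun _ => abs_nonneg _) fun p => int_bd μ f hf (B p)

variable {V U}

theorem ell_abs (hul : T_UL) (f : X → ℝ) (hf : Integrable f μ) :
    |ell μ B Wf V U f| ≤ ∫ x, |f x| ∂μ :=
  ul_abs hul V _ _ fun w => ul_abs hul (U w) _ _ fun m => inr_abs μ B Wf f hf w m

theorem ell_lim (hul : T_UL) (f : X → ℝ) (hf : Integrable f μ) :
    Tendsto (fun w => ul (U w) (inr μ B Wf f w)) (V : Filter ℕ) (𝓝 (ell μ B Wf V U f)) :=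
  (hul V).1 _ ⟨_, fun w => ul_abs hul (U w) _ _ fun m => inr_abs μ B Wf f hf w m⟩

theorem ell_add (hul : T_UL) (f g : X → ℝ) (hf : Integrable f μ) (hg : Integrable g μ) :
    ell μ B Wf V U (fun x => f x + g x) = ell μ B Wf V U f + ell μ B Wf V U g := by
  unfold ell
  rw [← (hul V).2.2.1 _ _ ⟨_, fun w => ul_abs hul (U w) _ _ fun m => inr_abs μ B Wf f hf w m⟩
    ⟨_, fun w => ul_abs hul (U w) _ _ fun m => inr_abs μ B Wf g hg w m⟩]
  congr 1
  funext w
  rw [← (hul (U w)).2.2.1 _ _ ⟨_, fun m => inr_abs μ B Wf f hf w m⟩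
    ⟨_, fun m => inr_abs μ B Wf g hg w m⟩]
  congr 1
  funext m
  unfold inr
  rw [← avgP_add]
  congr 1
  funext p
  exact integral_add hf.integrableOn hg.integrableOn

theorem ell_mul (hul : T_UL) (a : ℝ) (f : X → ℝ) (hf : Integrable f μ) :
    ell μ B Wf V U (fun x => a * f x) = a * ell μ B Wf V U f := by
  unfold ell
  rw [← (hul V).2.2.2.1 _ _ ⟨_, fun w => ul_abs hul (U w) _ _ fun m => inr_abs μ B Wf f hf w m⟩]
  congr 1
  funext w
  rw [← (hul (U w)).2.2.2.1 _ _ ⟨_, fun m => inr_abs μ B Wf f hf w m⟩]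
  congr 1
  funext m
  unfold inr
  rw [← avgP_mul]
  congr 1
  funext p
  exact integral_const_mul _ _

theorem ell_congr (f g : X → ℝ) (h : f =ᵐ[μ] g) : ell μ B Wf V U f = ell μ B Wf V U g := by
  unfold ell
  congr 1
  funext w
  congr 1
  funext m
  unfold inr
  congr 1
  funext p
  exact integral_congr_ae (ae_restrict_of_ae h)

theorem ell_nonneg (hul : T_UL) (f : X → ℝ) (hf : Integrable f μ) (h : ∀ x, 0 ≤ f x) :
    0 ≤ ell μ B Wf V U f :=
  le_ul hul V _ _ ⟨_, fun w => ul_abs hul (U w) _ _ fun m => inr_abs μ B Wf f hf w m⟩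
    (Eventually.of_forall fun w => le_ul hul (U w) _ _ ⟨_, fun m => inr_abs μ B Wf f hf w m⟩
      (Eventually.of_forall fun _ => avgP_nonneg _ _ _ fun _ => integral_nonneg h))

theorem ell_le (hul : T_UL) (f : X → ℝ) (hf : Integrable f μ) (C : ℝ) (hC : 0 ≤ C)
    (h : ∀ p, ∫ x in B p, f x ∂μ ≤ C) :
    ell μ B Wf V U f ≤ C :=
  ul_le hul V _ _ ⟨_, fun w => ul_abs hul (U w) _ _ fun m => inr_abs μ B Wf f hf w m⟩
    (Eventually.of_forall fun w => ul_le hul (U w) _ _ ⟨_, fun m => inr_abs μ B Wf f hf w m⟩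
      (Eventually.of_forall fun _ => avgP_le _ _ _ _ hC h))

end

/-! ### the density -/

theorem riesz {X : Type} {m0 : MeasurableSpace X} (ν : Measure X) [IsProbabilityMeasure ν]
    (L : (X → ℝ) → ℝ) (hcongr : ∀ f g : X → ℝ, f =ᵐ[ν] g → L f = L g)
    (hadd : ∀ f g : X → ℝ, Integrable f ν → Integrable g ν → L (fun x => f x + g x) = L f + L g)
    (hmul : ∀ (a : ℝ) (f : X → ℝ), Integrable f ν → L (fun x => a * f x) = a * L f)
    (hb : ∀ f : X → ℝ, Integrable f ν → |L f| ≤ ∫ x, |f x| ∂ν) (Y : Set X) (hY : MeasurableSet Y)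
    (hpos : ∀ s, MeasurableSet s → 0 ≤ L (s.indicator fun _ => (1 : ℝ)))
    (hle : ∀ s, MeasurableSet s → L (s.indicator fun _ => (1 : ℝ)) ≤ ν.real (s ∩ Y)) :
    ∃ e : X → ℝ, Measurable e ∧ (∀ x, 0 ≤ e x ∧ e x ≤ 1) ∧
      ∀ ψ : X → ℝ, Measurable ψ → (∃ C, ∀ x, |ψ x| ≤ C) → L ψ = ∫ x in Y, ψ x * e x ∂ν := by
  have hint : ∀ f : Lp ℝ 2 ν, Integrable f ν := fun f => (Lp.memLp f).integrable one_le_two
  let ph : (Lp ℝ 2 ν) →ₗ[ℝ] ℝ :=
    { toFun := fun f => L f
      map_add' := fun f g => by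
        rw [hcongr _ _ (Lp.coeFn_add f g)]
        exact hadd _ _ (hint f) (hint g)
      map_smul' := fun a f => by
        rw [hcongr _ _ (Lp.coeFn_smul a f)]
        exact hmul a _ (hint f) }
  have hph : ∀ f : Lp ℝ 2 ν, ‖ph f‖ ≤ 1 * ‖f‖ := by
    intro f
    have h1 : |L f| ≤ ∫ x, |f x| ∂ν := hb _ (hint f)
    have h2 : ∫ x, ‖f x‖ ∂ν ≤ ‖f‖ := by
      rw [integral_norm_eq_lintegral_enorm (hint f).aestronglyMeasurable, Lp.norm_def,
        ← eLpNorm_one_eq_lintegral_enorm]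
      exact ENNReal.toReal_mono (Lp.eLpNorm_ne_top f)
        (eLpNorm_le_eLpNorm_of_exponent_le one_le_two (hint f).aestronglyMeasurable)
    rw [one_mul, Real.norm_eq_abs]
    exact h1.trans h2
  let Lc : StrongDual ℝ (Lp ℝ 2 ν) := ph.mkContinuous 1 hph
  let e1 : Lp ℝ 2 ν := (InnerProductSpace.toDual ℝ (Lp ℝ 2 ν)).symm Lc
  have he1 : ∀ f : Lp ℝ 2 ν, L f = ∫ x, e1 x * f x ∂ν := by
    intro f
    have h1 : inner ℝ e1 f = Lc f := InnerProductSpace.toDual_symm_apply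
    rw [L2.inner_def] at h1
    have h2 : Lc f = L f := rfl
    rw [← h2, ← h1]
    refine integral_congr_ae (ae_of_all _ fun x => ?_)
    simp [mul_comm]
  have hrep : ∀ ψ : X → ℝ, Measurable ψ → (∃ C, ∀ x, |ψ x| ≤ C) → L ψ = ∫ x, e1 x * ψ x ∂ν := by
    intro ψ hψ ⟨C, hC⟩
    have hm : MemLp ψ 2 ν := MemLp.of_bound hψ.aestronglyMeasurable C (ae_of_all _ hC)
    rw [← hcongr _ _ hm.coeFn_toLp, he1]
    refine integral_congr_ae ?_
    filter_upwards [hm.coeFn_toLp] with x hx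
    rw [hx]
  have hind : ∀ s, MeasurableSet s → L (s.indicator fun _ => (1 : ℝ)) = ∫ x in s, e1 x ∂ν := by
    intro s hs
    rw [hrep _ (measurable_const.indicator hs) ⟨1, fun x => by
      by_cases hx : x ∈ s <;> simp [hx]⟩, ← integral_indicator hs]
    refine integral_congr_ae (ae_of_all _ fun x => ?_)
    by_cases hx : x ∈ s <;> simp [hx]
  have h0 : 0 ≤ᵐ[ν] fun x => e1 x := by
    refine ae_nonneg_of_forall_setIntegral_nonneg (hint e1) fun s hs _ => ?_
    rw [← hind s hs]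
    exact hpos s hs
  have h1 : 0 ≤ᵐ[ν] fun x => Y.indicator (fun _ => (1 : ℝ)) x - e1 x := by
    have hYi : Integrable (Y.indicator fun _ => (1 : ℝ)) ν := (integrable_const 1).indicator hY
    refine ae_nonneg_of_forall_setIntegral_nonneg (hYi.sub (hint e1)) fun s hs _ => ?_
    have h2 : ∫ x in s, (Y.indicator (fun _ => (1 : ℝ)) x - e1 x) ∂ν =
        ν.real (s ∩ Y) - ∫ x in s, e1 x ∂ν := by
      rw [integral_sub hYi.integrableOn (hint e1).integrableOn, setIntegral_indicator hY,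
        setIntegral_const, smul_eq_mul, mul_one]
    have h3 := hle s hs
    rw [hind s hs] at h3
    refine le_of_le_of_eq ?_ h2.symm
    linarith
  have hem : Measurable (fun x => e1 x) := (Lp.stronglyMeasurable e1).measurable
  refine ⟨fun x => max 0 (min 1 (e1 x)), measurable_const.max (measurable_const.min hem),
    fun x => ⟨le_max_left _ _, max_le zero_le_one (min_le_left _ _)⟩, fun ψ hψ hψb => ?_⟩
  rw [hrep ψ hψ hψb, ← integral_indicator hY]
  refine integral_congr_ae ?_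
  filter_upwards [h0, h1] with x hx0 hx1
  by_cases hx : x ∈ Y
  · simp only [Pi.zero_apply, hx, Set.indicator_of_mem] at hx0 hx1 ⊢
    rw [min_eq_right (by linarith), max_eq_right hx0, mul_comm]
  · simp only [Pi.zero_apply, hx, not_false_eq_true, Set.indicator_of_notMem] at hx0 hx1 ⊢
    have : e1 x = 0 := by linarith
    rw [this, zero_mul]

/-! ### the rational sets -/

theorem Rt_le {Ω : Type} [mΩ : MeasurableSpace Ω] (T : Ω ≃ᵐ Ω) : Rt T ≤ mΩ :=
  iSup_le fun _ => MeasurableSpace.invariants_le _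

theorem inv_Rt {Ω : Type} [mΩ : MeasurableSpace Ω] (T : Ω ≃ᵐ Ω) (Q : ℕ) (hQ : 0 < Q) (Y : Set Ω)
    (hY : MeasurableSet Y) (h : T^[Q] ⁻¹' Y = Y) : MeasurableSet[Rt T] Y := by
  have h1 : Inv T (Q !) ≤ Rt T := le_iSup (fun w : ℕ => Inv T (w !)) Q
  refine h1 _ (MeasurableSpace.measurableSet_invariants.2 ⟨hY, ?_⟩)
  obtain ⟨d, hd⟩ := Nat.dvd_factorial hQ le_rfl
  rw [hd, Function.iterate_mul]
  clear hd
  induction d with
  | zero => rfl
  | succ d ih =>
    rw [Function.iterate_succ, Set.preimage_comp, ih, h]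

theorem pf_ER (hul : T_UL) : T_ER := by
  intro c
  let Bs : ℕ → Set c.X := fun p => c.Y ∩ bd c.T c.β c.σ (fun i x => c.D (c.T^[c.β i] x)) p
  let Wf : ℕ → ℕ := fun w => (c.Q * w !)
  have hm : Rt c.T ≤ c.mX := Rt_le c.T
  have hYR : MeasurableSet[Rt c.T] c.Y := inv_Rt c.T c.Q c.Qpos c.Y c.Ym c.Yinv
  let L : (c.X → ℝ) → ℝ := ell c.μ Bs Wf c.V c.U
  have hpr : IsProbabilityMeasure (c.μ.trim hm) := ⟨by
    rw [trim_measurableSet_eq hm MeasurableSet.univ]
    exact measure_univ⟩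
  have hiR : ∀ f : c.X → ℝ, Integrable f (c.μ.trim hm) → Integrable f c.μ :=
    fun f hf => integrable_of_integrable_trim hm hf
  have hreal : ∀ s, MeasurableSet[Rt c.T] s → (c.μ.trim hm).real s = c.μ.real s := by
    intro s hs
    rw [measureReal_def, measureReal_def, trim_measurableSet_eq hm hs]
  have hindi : ∀ s, MeasurableSet[Rt c.T] s →
      Integrable (s.indicator fun _ => (1 : ℝ)) c.μ := fun s hs =>
    (integrable_const 1).indicator (hm s hs)
  obtain ⟨e, hem, heb, her⟩ := riesz (c.μ.trim hm) L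
    (fun f g h => ell_congr c.μ Bs Wf f g (ae_eq_of_ae_eq_trim h))
    (fun f g hf hg => ell_add c.μ Bs Wf hul f g (hiR f hf) (hiR g hg))
    (fun a f hf => ell_mul c.μ Bs Wf hul a f (hiR f hf))
    (fun f hf => by
      refine (ell_abs c.μ Bs Wf hul f (hiR f hf)).trans (le_of_eq ?_)
      exact integral_trim_ae hm hf.abs.aestronglyMeasurable)
    c.Y hYR
    (fun s hs => ell_nonneg c.μ Bs Wf hul _ (hindi s hs) fun x => Set.indicator_nonneg
      (fun _ _ => zero_le_one) x)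
    (fun s hs => by
      refine ell_le c.μ Bs Wf hul _ (hindi s hs) _ measureReal_nonneg fun p => ?_
      rw [setIntegral_indicator (hm s hs), setIntegral_const, smul_eq_mul, mul_one,
        hreal _ (hs.inter hYR)]
      refine measureReal_mono fun x hx => ⟨hx.2, hx.1.1⟩)
  refine ⟨e, hem, heb, ?_, fun ψ hψ hψb => ?_⟩
  · have h1 : L (fun _ => 1) = ∫ x in c.Y, e x ∂c.μ := by
      have h2 := her (fun _ => (1 : ℝ)) measurable_const ⟨1, fun _ => by simp⟩
      simp only [one_mul] at h2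
      rw [h2]
      exact (setIntegral_trim hm hem.stronglyMeasurable hYR).symm
    rw [← h1]
    refine ul_le hul c.V _ _ ⟨_, fun w => ul_abs hul (c.U w) _ _ fun m =>
      inr_abs c.μ Bs Wf _ (integrable_const 1) w m⟩ ?_
    filter_upwards [c.rel] with w hw
    refine le_of_eq_of_le ?_ hw
    congr 1
    funext m
    unfold inr
    refine avgP_congr _ _ _ _ fun p hp => ?_
    have hp1 : 1 ≤ p := (Finset.mem_filter.1 hp).2.1.one_le
    have hB : Bs p = c.Y ∩ {x | ∏ i, c.D (c.T^[p * c.β i] x) ≠ c.σ} := by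
      have h3 : ∀ (i : Fin c.k) (x : c.X),
          c.T^[c.β i] (c.T^[(p - 1) * c.β i] x) = c.T^[p * c.β i] x := by
        intro i x
        rw [← Function.iterate_add_apply]
        congr 2
        obtain ⟨q, rfl⟩ := Nat.exists_eq_add_of_le hp1
        rw [Nat.add_sub_cancel_left]
        ring
      simp only [Bs, bd, h3]
    rw [setIntegral_const, smul_eq_mul, mul_one, hB]
  · have h1 : L ψ = ∫ x in c.Y, ψ x * e x ∂c.μ := by
      rw [her ψ hψ ⟨1, hψb⟩]
      exact (setIntegral_trim hm (hψ.mul hem).stronglyMeasurable hYR).symm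
    rw [← h1]
    exact ell_lim c.μ Bs Wf hul ψ (Integrable.of_bound (hψ.mono hm le_rfl).aestronglyMeasurable 1
      (ae_of_all _ hψb))

end Pool.Agent.H66.SG.ER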