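import Pool.Agent.H66.SG.T9
import Mathlib
import Pool.Agent.H84.B.Erg

/-!
ABSOLUTE GAP (`MP_c59857_nt`), row ER1: ergodic components of the symbolic system.
-/

set_option autoImplicit false

open MeasureTheory ProbabilityTheory Filter Topology Finset
open scoped Nat ENNReal

namespace Pool.Agent.H66.SG.ER1

open Pool.Agent.H67.AG

open Pool.Agent.H67.AG Pool.Agent.H80.AG

section ER1

variable {Ω : Type} [MeasurableSpace Ω]

/-- the integer powers of a measurable bijection -/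
def er1G (T : Ω ≃ᵐ Ω) : Set (Ω ≃ᵐ Ω) := {g | ∃ n : ℤ, g.toEquiv = (T.toEquiv : Equiv.Perm Ω) ^ n}

lemma er1G_countable (T : Ω ≃ᵐ Ω) : (er1G T).Countable := by
  have h : (Set.range fun n : ℤ => (T.toEquiv : Equiv.Perm Ω) ^ n).Countable :=
    Set.countable_range _
  have h2 := h.preimage_of_injOn (f := fun g : Ω ≃ᵐ Ω => (g.toEquiv : Equiv.Perm Ω))
    (MeasurableEquiv.toEquiv_injective.injOn)
  refine h2.mono ?_
  rintro g ⟨n, hn⟩
  exact ⟨n, hn.symm⟩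

lemma er1G_mp (T : Ω ≃ᵐ Ω) (P : Measure Ω) (hT : MeasurePreserving T P P) (g : Ω ≃ᵐ Ω)
    (hg : g ∈ er1G T) : MeasurePreserving g P P := by
  have hpos : ∀ (n : ℕ) (g : Ω ≃ᵐ Ω), g.toEquiv = (T.toEquiv : Equiv.Perm Ω) ^ (n : ℤ) →
      MeasurePreserving g P P := by
    intro n g hg
    have h1 : (g : Ω → Ω) = (T : Ω → Ω)^[n] := by
      have h2 : (g : Ω → Ω) = ((T.toEquiv : Equiv.Perm Ω) ^ n : Equiv.Perm Ω) := by
        rw [zpow_natCast] at hg
        rw [← hg]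
        rfl
      rw [h2, Equiv.Perm.coe_pow]
      rfl
    rw [h1]
    exact hT.iterate n
  obtain ⟨n, hn⟩ := hg
  obtain ⟨k, rfl | rfl⟩ := n.eq_nat_or_neg
  · exact hpos k g hn
  · have h1 : g.symm.toEquiv = (T.toEquiv : Equiv.Perm Ω) ^ (k : ℤ) := by
      have h2 : g.symm.toEquiv = ((g.toEquiv : Equiv.Perm Ω))⁻¹ := rfl
      rw [h2, hn, zpow_neg, inv_inv]
    have h3 := hpos k g.symm h1
    have h4 := h3.symm
    simpa using h4

lemma er1_inv (T : Ω ≃ᵐ Ω) (s : Set Ω) (hs : T ⁻¹' s = s) (n : ℤ) (x : Ω) :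
    ((T.toEquiv : Equiv.Perm Ω) ^ n) x ∈ s ↔ x ∈ s := by
  have h0 : ∀ x, T x ∈ s ↔ x ∈ s := fun x => by
    conv_rhs => rw [← hs]
    rfl
  have h1 : ∀ (k : ℕ) (x : Ω), ((T.toEquiv : Equiv.Perm Ω) ^ k) x ∈ s ↔ x ∈ s := by
    intro k
    induction k with
    | zero => intro x; simp
    | succ k ih =>
      intro x
      rw [pow_succ, Equiv.Perm.mul_apply, ih]
      exact h0 x
  obtain ⟨k, rfl | rfl⟩ := n.eq_nat_or_neg
  · rw [zpow_natCast]; exact h1 k x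
  · have h2 := h1 k (((T.toEquiv : Equiv.Perm Ω) ^ (-(k : ℤ))) x)
    rw [← h2, ← zpow_natCast, ← Equiv.Perm.mul_apply, ← zpow_add, add_neg_cancel, zpow_zero]
    rfl

lemma er1_ergodic (T : Ω ≃ᵐ Ω) (μ : Measure Ω) [IsProbabilityMeasure μ]
    (h1 : ∀ g ∈ er1G T, MeasurePreserving g μ μ)
    (h2 : ∀ f : Ω → ℂ, MemLp f 2 μ → (∀ g ∈ er1G T, f ∘ g =ᵐ[μ] f) → ∃ c : ℂ, f =ᵐ[μ] fun _ => c) :
    Ergodic T μ := by
  refine ⟨h1 T ⟨1, by simp⟩, ⟨fun s hsm hs => ?_⟩⟩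
  have hm : MemLp (s.indicator (fun _ => (1 : ℂ))) 2 μ :=
    memLp_indicator_const 2 hsm 1 (Or.inr (measure_ne_top μ s))
  obtain ⟨c, hc⟩ := h2 _ hm (by
    rintro g ⟨n, hn⟩
    refine Filter.Eventually.of_forall fun x => ?_
    have h3 := er1_inv T s hs n x
    have h4 : g x = ((T.toEquiv : Equiv.Perm Ω) ^ n) x := by rw [← hn]; rfl
    simp only [Function.comp_apply]
    by_cases hx : x ∈ s
    · rw [Set.indicator_of_mem hx, Set.indicator_of_mem (by rw [h4]; exact h3.2 hx)]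
    · rw [Set.indicator_of_notMem hx,
        Set.indicator_of_notMem (by rw [h4]; exact fun h => hx (h3.1 h))])
  rw [Filter.eventuallyConst_set]
  by_cases h1c : c = 1
  · left
    filter_upwards [hc] with x hx
    by_contra hxs
    rw [Set.indicator_of_notMem hxs, h1c] at hx
    exact zero_ne_one hx
  · right
    filter_upwards [hc] with x hx hxs
    rw [Set.indicator_of_mem hxs] at hx
    exact h1c hx.symm

end ER1

theorem pf_ER1 (hM : T_MRC) : T_ER1 := by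
  intro Q n _ β ρ η m P hS
  haveI := hS.prob
  obtain ⟨κ, hκ, hB, hae⟩ := Pool.Agent.H84.B.erg (Om Q) P (er1G (shM Q)) hS.prob
    (er1G_countable _) ⟨0, by simp; rfl⟩
    (by
      rintro g ⟨a, ha⟩ h ⟨b, hb⟩
      refine ⟨b + a, ?_⟩
      rw [zpow_add, ← ha, ← hb]
      rfl)
    (by
      rintro g ⟨a, ha⟩
      refine ⟨-a, ?_⟩
      rw [zpow_neg, ← ha]
      rfl)
    (fun g hg => er1G_mp (shM Q) P hS.inv g hg)
  haveI := hκ
  refine ⟨κ, hκ, hB, ?_⟩
  have hmp : ∀ᵐ ω ∂P, MeasurePreserving (shM Q) (κ ω) (κ ω) := by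
    filter_upwards [hae] with ω hω
    exact hω.1 (shM Q) ⟨1, by simp⟩
  have hDm : Measurable (DD Q) := by
    have h1 : Measurable fun ω : Om Q => ω.1 0 := (measurable_pi_apply 0).comp measurable_fst
    exact (measurable_of_countable sg).comp h1
  have hD1 : ∀ ω : Om Q, DD Q ω = 1 ∨ DD Q ω = -1 := by
    intro ω
    unfold DD sg
    cases ω.1 0 <;> simp
  have hall : ∀ᵐ ω ∂P, ∀ W : ℕ, 0 < W → (κ ω)[DD Q | Inv (shM Q) W] =ᵐ[κ ω] 0 := by
    rw [ae_all_iff]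
    intro W
    by_cases hW : 0 < W
    · filter_upwards [hM (Om Q) P (shM Q) κ (DD Q) W hDm hD1 hW hB hmp (hS.mr W hW)] with ω hω _
      exact hω
    · exact Filter.Eventually.of_forall fun ω h => absurd h hW
  filter_upwards [hae, hall] with ω h1 h2
  exact ⟨er1_ergodic (shM Q) (κ ω) h1.1 h1.2, h2⟩

end Pool.Agent.H66.SG.ER1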