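import Pool.Agent.H66.SG.T7

/-! ABSOLUTE GAP, row K1: one point. -/

set_option autoImplicit false

open MeasureTheory ProbabilityTheory Filter Topology Finset
open scoped Nat ENNReal

namespace Pool.Agent.H66.SG.K1

open Pool.Agent.H67.AG

open Pool.Agent.H67.AG
open Pool.Agent.H24.T2 (Pset)

theorem pf_K1 (_hul : T_UL) (hpn : T_PN) : T_K1 := by
  intro c hk
  obtain ⟨i0, hi0⟩ : ∃ i0 : Fin c.k, ∀ i : Fin c.k, i = i0 := by
    refine ⟨⟨0, c.kpos⟩, fun i => ?_⟩
    apply Fin.ext
    have := i.2
    simp only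
    omega
  have hmp : MeasurePreserving c.T c.μ c.μ := c.erg.toMeasurePreserving
  have hprod : ∀ (p : ℕ) (x : c.X), ∏ i, c.D (c.T^[p * c.β i] x) = c.D (c.T^[p * c.β i0] x) := by
    intro p x
    rw [Finset.prod_eq_single i0]
    · intro i _ hi
      exact absurd (hi0 i) hi
    · intro h
      exact absurd (Finset.mem_univ i0) h
  set b := c.β i0 with hb
  -- the set Y is invariant under the multiples of Q
  have hY : ∀ n : ℕ, c.T^[c.Q * n] ⁻¹' c.Y = c.Y := by
    intro n
    induction n with
    | zero => simp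
    | succ n ih =>
      have h1 : c.T^[c.Q * (n + 1)] = c.T^[c.Q * n] ∘ c.T^[c.Q] := by
        rw [← Function.iterate_add, Nat.mul_succ]
      rw [h1, Set.preimage_comp, ih, c.Yinv]
  have hm : ∀ n : ℕ, MeasurePreserving (c.T^[n]) c.μ c.μ := fun n => hmp.iterate n
  have hDb : Measurable fun x => c.D (c.T^[b] x) := c.Dm.comp (hm b).measurable
  have hset : MeasurableSet (c.Y ∩ {x | c.D (c.T^[b] x) ≠ c.σ}) := by
    refine c.Ym.inter ?_
    exact (measurableSet_eq_fun hDb measurable_const).compl
  set a := c.μ.real (c.Y ∩ {x | c.D (c.T^[b] x) ≠ c.σ}) with ha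
  have hterm : ∀ p : ℕ, 1 ≤ p → c.Q ∣ p - 1 →
      c.μ.real (c.Y ∩ {x | ∏ i, c.D (c.T^[p * c.β i] x) ≠ c.σ}) = a := by
    intro p hp hq
    obtain ⟨n, hn⟩ := hq
    have h1 : ∀ x, c.T^[p * b] x = c.T^[b] (c.T^[c.Q * (n * b)] x) := by
      intro x
      rw [← Function.iterate_add_apply]
      congr 1
      have : p = c.Q * n + 1 := by omega
      rw [this]; ring
    have h2 : c.Y ∩ {x | ∏ i, c.D (c.T^[p * c.β i] x) ≠ c.σ} =
        c.T^[c.Q * (n * b)] ⁻¹' (c.Y ∩ {x | c.D (c.T^[b] x) ≠ c.σ}) := by
      rw [Set.preimage_inter, hY]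
      congr 1
      ext x
      simp only [Set.mem_ofPred_eq, Set.mem_preimage, hprod, h1]
    rw [h2, ha]
    unfold Measure.real
    rw [(hm _).measure_preimage hset.nullMeasurableSet]
  -- the integral of D ∘ T^b over Y vanishes
  have hint0 : ∫ x in c.Y, c.D (c.T^[b] x) ∂c.μ = 0 := by
    have hbij : ∀ n : ℕ, (c.T.symm)^[n] ∘ (c.T^[n]) = id := by
      intro n
      have := (c.T.left_inv : Function.LeftInverse c.T.symm c.T).iterate n
      funext x
      exact this x
    have hbij' : ∀ n : ℕ, (c.T^[n]) ∘ ((c.T.symm)^[n]) = id := by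
      intro n
      have := (c.T.right_inv : Function.RightInverse c.T.symm c.T).iterate n
      funext x
      exact this x
    set Y' : Set c.X := (c.T.symm)^[b] ⁻¹' c.Y with hY'
    have hsm : Measurable ((c.T.symm)^[b]) := c.T.symm.measurable.iterate b
    have hY'm : MeasurableSet Y' := hsm c.Ym
    have h1 : c.T^[b] ⁻¹' Y' = c.Y := by
      rw [hY', ← Set.preimage_comp, hbij, Set.preimage_id]
    have h2 : c.T^[c.Q] ⁻¹' Y' = Y' := by
      have h3 : (c.T.symm)^[b] ∘ c.T^[c.Q] = c.T^[c.Q] ∘ (c.T.symm)^[b] := by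
        have hc : Function.Commute (c.T.symm : c.X → c.X) (c.T : c.X → c.X) := by
          intro x
          simp
        have := (hc.iterate_iterate b c.Q)
        funext x
        exact this x
      rw [hY', ← Set.preimage_comp, h3, Set.preimage_comp, c.Yinv]
    have h4 : ∫ x in c.Y, c.D (c.T^[b] x) ∂c.μ = ∫ x in Y', c.D x ∂c.μ := by
      rw [← h1]
      have he : MeasurableEmbedding (c.T^[b]) := by
        have : ∀ n : ℕ, MeasurableEmbedding (c.T^[n]) := by
          intro n
          induction n with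
          | zero => exact MeasurableEmbedding.id
          | succ n ih =>
            rw [Function.iterate_succ]
            exact ih.comp c.T.measurableEmbedding
        exact this b
      exact (hm b).setIntegral_preimage_emb he _ _
    rw [h4]
    have h5 : MeasurableSet[Inv c.T c.Q] Y' := by
      rw [MeasurableSpace.measurableSet_invariants]
      exact ⟨hY'm, h2⟩
    have hle : Inv c.T c.Q ≤ c.mX := MeasurableSpace.invariants_le _
    have hDi : Integrable c.D c.μ := by
      refine Integrable.of_bound c.Dm.aestronglyMeasurable 1 (Eventually.of_forall fun x => ?_)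
      rcases c.Dv x with h | h <;> rw [h] <;> simp
    rw [← setIntegral_condExp hle hDi h5]
    have h6 : ∫ x in Y', (c.μ[c.D | Inv c.T c.Q]) x ∂c.μ = ∫ x in Y', (0 : c.X → ℝ) x ∂c.μ :=
      integral_congr_ae (ae_restrict_of_ae (c.mr c.Q c.Qpos))
    rw [h6]
    simp
  have haY : 2 * a = c.μ.real c.Y := by
    have h1 : ∫ x in c.Y, c.D (c.T^[b] x) ∂c.μ =
        ∫ x in c.Y, (c.σ - 2 * c.σ * ({x | c.D (c.T^[b] x) ≠ c.σ}.indicator (fun _ => (1 : ℝ)) x))
          ∂c.μ := by
      refine integral_congr_ae (Eventually.of_forall fun x => ?_)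
      simp only
      by_cases hx : c.D (c.T^[b] x) = c.σ
      · rw [Set.indicator_of_notMem (by simpa using hx), hx]; ring
      · rw [Set.indicator_of_mem (by simpa using hx)]
        rcases c.Dv (c.T^[b] x) with h | h <;> rcases c.σv with h' | h' <;>
          first
            | (exfalso; apply hx; rw [h, h']; done)
            | (rw [h, h']; norm_num; done)
    have hsD : MeasurableSet {x | c.D (c.T^[b] x) ≠ c.σ} :=
      (measurableSet_eq_fun hDb measurable_const).compl
    rw [h1, integral_sub, integral_const_mul, integral_indicator hsD] at hint0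
    · rw [Measure.restrict_restrict hsD] at hint0
      simp only [integral_const, smul_eq_mul, mul_one, measureReal_restrict_apply_univ] at hint0
      rw [Set.inter_comm, ← ha] at hint0
      rcases c.σv with h' | h' <;> rw [h'] at hint0 <;> linarith
    · exact integrable_const _
    · refine Integrable.const_mul ?_ _
      exact (integrable_const _).indicator hsD
  -- the relation
  obtain ⟨w, hw⟩ := c.rel.exists
  have hev : (fun m => avgP (c.Q * w !) m fun p =>
      c.μ.real (c.Y ∩ {x | ∏ i, c.D (c.T^[p * c.β i] x) ≠ c.σ})) =ᶠ[(c.U w : Filter ℕ)]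
        fun _ => a := by
    refine Filter.Eventually.filter_mono (c.hU w) ?_
    obtain ⟨c0, hc0, m₀, hm₀⟩ := hpn c.Q (c.Q * w !)
      (Nat.mul_pos c.Qpos (Nat.factorial_pos w)) (Dvd.intro _ rfl)
    filter_upwards [eventually_ge_atTop m₀] with m hm'
    have hpos := (hm₀ m hm').2
    unfold avgP
    have h1 : ∀ p ∈ Ps (c.Q * w !) m,
        c.μ.real (c.Y ∩ {x | ∏ i, c.D (c.T^[p * c.β i] x) ≠ c.σ}) = a := by
      intro p hp
      have h2 : p.Prime ∧ c.Q ∣ p - 1 := by
        unfold Ps at hp
        obtain ⟨_, hpp, hmod⟩ := Finset.mem_filter.1 hp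
        refine ⟨hpp, ?_⟩
        have h3 : c.Q * w ! ∣ p - 1 := (Nat.modEq_iff_dvd' hpp.one_le).1 hmod.symm
        exact (Dvd.intro _ rfl).trans h3
      exact hterm p h2.1.one_le h2.2
    rw [Finset.sum_congr rfl h1, Finset.sum_const, nsmul_eq_mul]
    have : ((Ps (c.Q * w !) m).card : ℝ) ≠ 0 := by
      have : (0 : ℝ) < (Ps (c.Q * w !) m).card := by exact_mod_cast hpos
      exact this.ne'
    field_simp
  have hul : ul (c.U w) (fun m => avgP (c.Q * w !) m fun p =>
      c.μ.real (c.Y ∩ {x | ∏ i, c.D (c.T^[p * c.β i] x) ≠ c.σ})) = a := by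
    unfold ul
    exact (tendsto_const_nhds.congr' hev.symm).limUnder_eq
  rw [hul] at hw
  have h7 := c.Ypos
  unfold κ₁ at hw
  linarith

end Pool.Agent.H66.SG.K1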