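import Pool.Agent.H66.SG.T7

/-!
ABSOLUTE GAP: the row LE, the limit of the errors on a joint system.
-/

set_option autoImplicit false

open MeasureTheory ProbabilityTheory Filter Topology Finset
open scoped Nat ENNReal

namespace Pool.Agent.H66.SG.LE

open Pool.Agent.H67.AG

open Pool.Agent.H67.AG

lemma rt_le {Ω : Type} [mΩ : MeasurableSpace Ω] (T : Ω ≃ᵐ Ω) : Rt T ≤ mΩ :=
  iSup_le fun _ => MeasurableSpace.invariants_le _

lemma semi_iter {Ω Ω' : Type} [MeasurableSpace Ω] [MeasurableSpace Ω'] {T : Ω ≃ᵐ Ω}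
    {T' : Ω' ≃ᵐ Ω'} {g : Ω → Ω'} (h : ∀ ω, g (T ω) = T' (g ω)) (n : ℕ) (ω : Ω) :
    g (T^[n] ω) = T'^[n] (g ω) := by
  induction n with
  | zero => rfl
  | succ n ih => rw [Function.iterate_succ_apply', Function.iterate_succ_apply', h, ih]

lemma dt_meas (c : Ctx) (i : Fin c.k) : Measurable (c.Dt i) :=
  c.Dm.comp (c.T.measurable.iterate _)

lemma bd_meas (c : Ctx) (p : ℕ) : MeasurableSet (bd c.T c.β c.σ c.Dt p) := by
  have h1 : Measurable fun x : c.X => ∏ i, c.Dt i (c.T^[(p - 1) * c.β i] x) :=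
    Finset.measurable_prod _ fun i _ => (dt_meas c i).comp (c.T.measurable.iterate _)
  have h2 : bd c.T c.β c.σ c.Dt p = {x | ∏ i, c.Dt i (c.T^[(p - 1) * c.β i] x) = c.σ}ᶜ := by
    ext x
    rfl
  rw [h2]
  exact (measurableSet_eq_fun h1 measurable_const).compl

theorem pf_LE (hdu : T_DU) : T_LE := by
  intro c Ω mΩ P hP T g A hT hg hA hAY
  have hAm : MeasurableSet A := rt_le T _ hA
  have hgm : Measurable g := hg.1.measurable
  have hTc : MeasurePreserving c.T c.μ c.μ := c.erg.toMeasurePreserving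
  have hind : Measurable[Rt T] (A.indicator fun _ => (1 : ℝ)) :=
    Measurable.indicator measurable_const hA
  obtain ⟨ψ, hψ1, hψ2, hψ3⟩ := hdu Ω c.X P c.μ T c.T g (A.indicator fun _ => (1 : ℝ)) hT hTc hg
    hind fun ω => by
      by_cases h : ω ∈ A
      · rw [Set.indicator_of_mem h]; norm_num
      · rw [Set.indicator_of_notMem h]; norm_num
  -- integrals of functions which come from the base
  have key : ∀ h : c.X → ℝ, Measurable h → (∃ C, ∀ x, |h x| ≤ C) →
      ∫ ω in A, h (g ω) ∂P = ∫ x in c.Y, ψ x * h x ∂c.μ := by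
    intro h hm ⟨C, hC⟩
    have h1 := hψ3 (c.Y.indicator h) (hm.indicator c.Ym) ⟨C, fun x => by
      by_cases hx : x ∈ c.Y
      · rw [Set.indicator_of_mem hx]; exact hC x
      · rw [Set.indicator_of_notMem hx, abs_zero]; exact (abs_nonneg _).trans (hC x)⟩
    have h2 : (fun ω => A.indicator (fun _ => (1 : ℝ)) ω * c.Y.indicator h (g ω)) =
        A.indicator fun ω => h (g ω) := by
      funext ω
      by_cases hω : ω ∈ A
      · rw [Set.indicator_of_mem hω, Set.indicator_of_mem hω,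
          Set.indicator_of_mem (show g ω ∈ c.Y from hAY hω), one_mul]
      · rw [Set.indicator_of_notMem hω, Set.indicator_of_notMem hω, zero_mul]
    have h3 : (fun x => ψ x * c.Y.indicator h x) = c.Y.indicator fun x => ψ x * h x := by
      funext x
      by_cases hx : x ∈ c.Y
      · rw [Set.indicator_of_mem hx, Set.indicator_of_mem hx]
      · rw [Set.indicator_of_notMem hx, Set.indicator_of_notMem hx, mul_zero]
    rw [h2, h3, integral_indicator hAm, integral_indicator c.Ym] at h1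
    exact h1
  have hbd : ∀ p, P.real (A ∩ bd T c.β c.σ (fun i ω => c.Dt i (g ω)) p) =
      ∫ x in c.Y ∩ bd c.T c.β c.σ c.Dt p, ψ x ∂c.μ := by
    intro p
    have hB := bd_meas c.toCtx p
    have h1 : bd T c.β c.σ (fun i ω => c.Dt i (g ω)) p = g ⁻¹' bd c.T c.β c.σ c.Dt p := by
      ext ω
      change (∏ i, c.Dt i (g (T^[(p - 1) * c.β i] ω)) ≠ c.σ) ↔
        (∏ i, c.Dt i (c.T^[(p - 1) * c.β i] (g ω)) ≠ c.σ)
      simp only [semi_iter hg.2]
    have h2 := key ((bd c.T c.β c.σ c.Dt p).indicator fun _ => (1 : ℝ))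
      (measurable_const.indicator hB) ⟨1, fun x => by
        by_cases hx : x ∈ bd c.T c.β c.σ c.Dt p
        · rw [Set.indicator_of_mem hx]; norm_num
        · rw [Set.indicator_of_notMem hx]; norm_num⟩
    have h3 : (fun ω => (bd c.T c.β c.σ c.Dt p).indicator (fun _ => (1 : ℝ)) (g ω)) =
        (g ⁻¹' bd c.T c.β c.σ c.Dt p).indicator fun _ => (1 : ℝ) := by
      funext ω
      rfl
    have h4 : (fun x => ψ x * (bd c.T c.β c.σ c.Dt p).indicator (fun _ => (1 : ℝ)) x) =
        (bd c.T c.β c.σ c.Dt p).indicator ψ := by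
      funext x
      by_cases hx : x ∈ bd c.T c.β c.σ c.Dt p
      · rw [Set.indicator_of_mem hx, Set.indicator_of_mem hx, mul_one]
      · rw [Set.indicator_of_notMem hx, Set.indicator_of_notMem hx, mul_zero]
    rw [h3, h4, setIntegral_indicator (hgm hB), setIntegral_indicator hB, setIntegral_const,
      smul_eq_mul, mul_one] at h2
    rw [h1]
    exact h2
  have h5 := c.elim ψ hψ1 fun x => abs_le.2 ⟨by linarith [(hψ2 x).1], (hψ2 x).2⟩
  rw [← key c.e (c.em.mono (rt_le c.T) le_rfl) ⟨1, fun x => abs_le.2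
    ⟨by linarith [(c.e0 x).1], (c.e0 x).2⟩⟩] at h5
  have h6 : (fun w => Lam (c.U w) (c.W w) P T c.β c.σ (fun i ω => c.Dt i (g ω)) A) =
      fun w => ul (c.U w) fun m => avgP (c.Q * w !) m fun p =>
      ∫ x in c.Y ∩ bd c.T c.β c.σ (fun i x => c.D (c.T^[c.β i] x)) p, ψ x ∂c.μ := by
    funext w
    unfold Lam
    simp only [hbd]
    rfl
  rw [h6]
  exact h5

end Pool.Agent.H66.SG.LE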