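import Pool.Agent.H66.SG.T7

/-!
ABSOLUTE GAP (`MP_c59857_nt`): row LMD, comparison of the errors of two tuples.
-/

set_option autoImplicit false

open MeasureTheory ProbabilityTheory Filter Topology Finset
open scoped Nat ENNReal

namespace Pool.Agent.H66.SG.LMD

open Pool.Agent.H67.AG

open Pool.Agent.H67.AG
open Pool.Agent.H24.T2 (Pset)

/-- a strictly invariant set is invariant under the multiples -/
theorem inv_pre {Ω : Type} (T : Ω → Ω) (W n : ℕ) (A : Set Ω) (hA : T^[W] ⁻¹' A = A)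
    (hn : W ∣ n) : T^[n] ⁻¹' A = A := by
  obtain ⟨j, rfl⟩ := hn
  induction j with
  | zero => simp
  | succ j ih =>
    rw [Nat.mul_succ, Function.iterate_add, Set.preimage_comp, ih, hA]

/-- averages over primes: monotone -/
theorem avgP_le (W m : ℕ) (F G : ℕ → ℝ) (h : ∀ p ∈ Ps W m, F p ≤ G p) :
    avgP W m F ≤ avgP W m G := by
  unfold avgP
  exact div_le_div_of_nonneg_right (Finset.sum_le_sum h) (Nat.cast_nonneg _)

theorem avgP_add_const (W m : ℕ) (F : ℕ → ℝ) (c : ℝ) (hc : 0 ≤ c) :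
    avgP W m (fun p => F p + c) ≤ avgP W m F + c := by
  unfold avgP
  rw [Finset.sum_add_distrib, Finset.sum_const, nsmul_eq_mul, add_div]
  refine add_le_add le_rfl ?_
  rcases Nat.eq_zero_or_pos (Ps W m).card with h | h
  · rw [h]; simpa using hc
  · have : (0 : ℝ) < (Ps W m).card := by exact_mod_cast h
    rw [mul_comm, mul_div_assoc, div_self this.ne', mul_one]

theorem avgP_abs (W m : ℕ) (F : ℕ → ℝ) (h : ∀ p, |F p| ≤ 1) : |avgP W m F| ≤ 1 := by
  unfold avgP
  rw [abs_div, Nat.abs_cast]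
  refine div_le_one_of_le₀ ?_ (Nat.cast_nonneg _)
  refine (Finset.abs_sum_le_sum_abs _ _).trans ?_
  refine (Finset.sum_le_sum fun p _ => h p).trans ?_
  rw [Finset.sum_const, nsmul_eq_mul, mul_one]

theorem pf_LMD (hul : T_UL) (_hpn : T_PN) : T_LMD := by
  intro Ω _ P _ T k β σ W U y y' A hT hW hU hy hy' hA
  obtain ⟨hAm, hAi⟩ := hA
  set c : ℝ := ∑ i, P.real (A ∩ {ω | y i ω ≠ y' i ω}) with hc
  have hc0 : 0 ≤ c := Finset.sum_nonneg fun i _ => measureReal_nonneg
  have hkey : ∀ m, ∀ p ∈ Ps W m, P.real (A ∩ bd T β σ y p) ≤ P.real (A ∩ bd T β σ y' p) + c := by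
    intro m p hp
    have hp' : W ∣ p - 1 := by
      have h2 := (Finset.mem_filter.mp hp).2
      exact (Nat.modEq_iff_dvd' h2.1.one_lt.le).mp h2.2.symm
    have hsub : A ∩ bd T β σ y p ⊆ (A ∩ bd T β σ y' p) ∪
        ⋃ i ∈ (Finset.univ : Finset (Fin k)), T^[(p - 1) * β i] ⁻¹' (A ∩ {ω | y i ω ≠ y' i ω}) := by
      rintro ω ⟨hωA, hω⟩
      by_cases hall : ∀ i, y i (T^[(p - 1) * β i] ω) = y' i (T^[(p - 1) * β i] ω)
      · left
        refine ⟨hωA, ?_⟩
        unfold bd at hω ⊢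
        rw [Set.mem_ofPred_eq] at hω ⊢
        rw [Finset.prod_congr rfl fun i _ => (hall i).symm]
        exact hω
      · right
        push Not at hall
        obtain ⟨i, hi⟩ := hall
        rw [Set.mem_iUnion₂]
        refine ⟨i, Finset.mem_univ i, ?_, hi⟩
        have := inv_pre T W ((p - 1) * β i) A hAi (hp'.mul_right _)
        have h' : ω ∈ T^[(p - 1) * β i] ⁻¹' A := by rw [this]; exact hωA
        exact h'
    have hms : ∀ i, MeasurableSet (A ∩ {ω | y i ω ≠ y' i ω}) := fun i =>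
      hAm.inter (measurableSet_eq_fun (hy.1 i) (hy'.1 i)).compl
    have hpre : ∀ i, P.real (T^[(p - 1) * β i] ⁻¹' (A ∩ {ω | y i ω ≠ y' i ω})) =
        P.real (A ∩ {ω | y i ω ≠ y' i ω}) := fun i =>
      (hT.iterate _).measureReal_preimage (hms i).nullMeasurableSet
    calc P.real (A ∩ bd T β σ y p) ≤ P.real ((A ∩ bd T β σ y' p) ∪
        ⋃ i ∈ (Finset.univ : Finset (Fin k)), T^[(p - 1) * β i] ⁻¹' (A ∩ {ω | y i ω ≠ y' i ω})) :=
          measureReal_mono hsub (measure_ne_top _ _)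
      _ ≤ P.real (A ∩ bd T β σ y' p) +
          P.real (⋃ i ∈ (Finset.univ : Finset (Fin k)),
            T^[(p - 1) * β i] ⁻¹' (A ∩ {ω | y i ω ≠ y' i ω})) := measureReal_union_le _ _
      _ ≤ P.real (A ∩ bd T β σ y' p) +
          ∑ i, P.real (T^[(p - 1) * β i] ⁻¹' (A ∩ {ω | y i ω ≠ y' i ω})) :=
          add_le_add le_rfl (measureReal_biUnion_finset_le _ _)
      _ = P.real (A ∩ bd T β σ y' p) + c := by
          rw [Finset.sum_congr rfl fun i _ => hpre i]
  obtain ⟨-, h2, h3, -, h5⟩ := hul U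
  have hbd : ∀ z : Fin k → Ω → ℝ, ∀ m, |avgP W m fun p => P.real (A ∩ bd T β σ z p)| ≤ 1 := by
    intro z m
    refine avgP_abs W m _ fun p => ?_
    rw [abs_of_nonneg measureReal_nonneg]
    exact measureReal_le_one
  have hle := h2 (fun m => avgP W m fun p => P.real (A ∩ bd T β σ y p))
    (fun m => (avgP W m fun p => P.real (A ∩ bd T β σ y' p)) + c)
    ⟨1, hbd y⟩ ⟨1 + c, fun m => (abs_add_le _ _).trans
      (add_le_add (hbd y' m) (abs_of_nonneg hc0).le)⟩
    (Eventually.of_forall fun m => (avgP_le W m _ _ (hkey m)).trans (avgP_add_const W m _ c hc0))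
  have hadd := h3 (fun m => avgP W m fun p => P.real (A ∩ bd T β σ y' p)) (fun _ => c)
    ⟨1, hbd y'⟩ ⟨c, fun _ => (abs_of_nonneg hc0).le⟩
  rw [h5 c] at hadd
  unfold Lam
  rw [hadd] at hle
  exact hle

end Pool.Agent.H66.SG.LMD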