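import Pool.Agent.H66.SG.T7

/-!
ABSOLUTE GAP (`MP_c59857_nt`), row PI: pair independence (section 3.4 of `H67_gap.md`).
-/

set_option autoImplicit false

open MeasureTheory ProbabilityTheory Filter Topology Finset
open scoped Nat ENNReal

namespace Pool.Agent.H66.SG.PI

open Pool.Agent.H67.AG

open Pool.Agent.H67.AG
open Pool.Agent.H24.T2 (Pset)

section

variable {Ω : Type} [mΩ : MeasurableSpace Ω] {P : Measure Ω} [IsProbabilityMeasure P]

/-- bounded measurable functions are integrable -/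
theorem int_bd {f : Ω → ℝ} (hf : Measurable f) {C : ℝ} (h : ∀ ω, |f ω| ≤ C) : Integrable f P :=
  Integrable.of_bound hf.aestronglyMeasurable C
    (ae_of_all _ fun ω => by simpa [Real.norm_eq_abs] using h ω)

/-- pull out -/
theorem po {m : MeasurableSpace Ω} (hm : m ≤ mΩ) {h k : Ω → ℝ} (hh : Measurable[m] h) {C : ℝ}
    (hb : ∀ᵐ ω ∂P, |h ω| ≤ C) (hk : Integrable k P) :
    ∫ ω, h ω * (P[k | m]) ω ∂P = ∫ ω, h ω * k ω ∂P := by
  have h1 := condExp_stronglyMeasurable_mul_of_bound (μ := P) hm hh.stronglyMeasurable hk C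
    (by filter_upwards [hb] with ω hω; simpa [Real.norm_eq_abs] using hω)
  have h2 : ∫ ω, (P[h * k | m]) ω ∂P = ∫ ω, (h * k) ω ∂P := integral_condExp hm
  rw [integral_congr_ae h1] at h2
  simpa using h2

theorem inv_it {T : Ω ≃ᵐ Ω} {V n : ℕ} {h : Ω → ℝ} (hh : Measurable[Inv T V] h) (hn : V ∣ n)
    (ω : Ω) : h (T^[n] ω) = h ω := by
  obtain ⟨q, rfl⟩ := hn
  have h1 : h ∘ T^[V] = h := MeasurableSpace.comp_eq_of_measurable_invariants hh
  rw [Function.iterate_mul]
  induction q with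
  | zero => simp
  | succ q ih =>
    rw [Function.iterate_succ_apply']
    have h2 := congrFun h1 ((T^[V])^[q] ω)
    simp only [Function.comp_apply] at h2
    rw [h2, ih]

omit [IsProbabilityMeasure P] in
theorem int_shift {T : Ω ≃ᵐ Ω} (hT : MeasurePreserving T P P) (n : ℕ) {F : Ω → ℝ}
    (hF : Measurable F) : ∫ ω, F (T^[n] ω) ∂P = ∫ ω, F ω ∂P := by
  have h := hT.iterate n
  have h2 := integral_map (μ := P) h.measurable.aemeasurable (f := F) hF.aestronglyMeasurable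
  rw [h.map_eq] at h2
  exact h2.symm

omit mΩ in
theorem Inv_mono [MeasurableSpace Ω] (T : Ω ≃ᵐ Ω) (W d : ℕ) : Inv T W ≤ Inv T (W * d) := by
  have h := MeasurableSpace.le_invariants_iterate (T^[W]) d
  rw [← Function.iterate_mul] at h
  exact h

theorem avgP_congr {W m : ℕ} {F G : ℕ → ℝ} (h : ∀ p ∈ Ps W m, F p = G p) :
    avgP W m F = avgP W m G := by
  unfold avgP
  rw [Finset.sum_congr rfl h]

theorem avgP_add {W m : ℕ} (h : 0 < (Ps W m).card) (F : ℕ → ℝ) (c : ℝ) :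
    (avgP W m fun p => c + F p) = c + avgP W m F := by
  unfold avgP
  have h' : ((Ps W m).card : ℝ) ≠ 0 := by positivity
  rw [Finset.sum_add_distrib, Finset.sum_const, nsmul_eq_mul]
  field_simp

theorem Pset_dvd {W m p : ℕ} (hp : p ∈ Ps W m) : W ∣ p - 1 := by
  unfold Ps at hp
  rw [Finset.mem_filter] at hp
  exact (Nat.modEq_iff_dvd' hp.2.1.one_le).mp hp.2.2.symm

theorem avgP_int {T : Ω ≃ᵐ Ω} (W m e : ℕ) {u h : Ω → ℝ} (hu : Measurable u)
    (hu1 : ∀ ω, |u ω| ≤ 1) (hh : Measurable h) (hh1 : ∀ ω, |h ω| ≤ 1) :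
    (avgP W m fun p => ∫ ω, u ω * (2 * h (T^[(p - 1) * e] ω)) ∂P) =
      ∫ ω, u ω * (2 * avgP W m fun p => h (T^[(p - 1) * e] ω)) ∂P := by
  have hm : ∀ n : ℕ, Measurable fun ω => h (T^[n] ω) := fun n =>
    hh.comp (T.measurable.iterate n)
  unfold avgP
  rw [← integral_finsetSum]
  · rw [← integral_div]
    refine integral_congr_ae (ae_of_all _ fun ω => ?_)
    simp only
    rw [← Finset.mul_sum, ← Finset.mul_sum]
    ring
  · intro p _
    refine int_bd (C := 2) (hu.mul ((hm _).const_mul 2)) fun ω => ?_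
    rw [abs_mul, abs_mul, abs_two]
    have h1 := hu1 ω
    have h2 := hh1 (T^[(p - 1) * e] ω)
    have h3 := abs_nonneg (h (T^[(p - 1) * e] ω))
    have h4 := abs_nonneg (u ω)
    nlinarith

/-- the main step: both functions at distance `(p - 1) * e` -/
theorem core (hav : T_AVP) (hpn : T_PN) (T : Ω ≃ᵐ Ω) (w W e : ℕ) (ps f g : Ω → ℝ) (ε : ℝ)
    (hT : MeasurePreserving T P P) (hps : Measurable[Inv T W] ps)
    (hps1 : ∀ ω, 0 ≤ ps ω ∧ ps ω ≤ 1) (hf : Measurable f) (hf1 : ∀ ω, |f ω| ≤ 1)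
    (hg : Measurable g) (hg1 : ∀ ω, |g ω| ≤ 1) (hw : 0 < w) (hW : 0 < W) (hwW : w ! ∣ W)
    (he : 0 < e) (hε : 0 < ε) :
    ∃ m₀ : ℕ, ∀ m, m₀ ≤ m →
      |(avgP W m fun p => ∫ ω, ps ω * f ω * g (T^[(p - 1) * e] ω) ∂P) -
        ∫ ω, ps ω * (P[f | Inv T (W * e)]) ω * (P[g | Inv T (W * e)]) ω ∂P| ≤
      1 / (w : ℝ) * ∫ ω, ps ω ∂P + ε := by
  have hI : Inv T (W * e) ≤ mΩ := MeasurableSpace.invariants_le _
  have hI1 : Inv T W ≤ mΩ := MeasurableSpace.invariants_le _
  have hWI : Inv T W ≤ Inv T (W * e) := Inv_mono T W e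
  have hpsm : Measurable ps := hps.mono hI1 le_rfl
  have hpsI : Measurable[Inv T (W * e)] ps := hps.mono hWI le_rfl
  have hps0 : ∀ ω, |ps ω| ≤ 1 := fun ω => by
    rw [abs_of_nonneg (hps1 ω).1]; exact (hps1 ω).2
  set G0 : Ω → ℝ := P[g | Inv T (W * e)] with hG0
  set g0 : Ω → ℝ := fun ω => max (-1) (min 1 (G0 ω)) with hg0
  have hG0m : Measurable[Inv T (W * e)] G0 := stronglyMeasurable_condExp.measurable
  have hg0I : Measurable[Inv T (W * e)] g0 :=
    measurable_const.max (measurable_const.min hG0m)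
  have hg0m : Measurable g0 := hg0I.mono hI le_rfl
  have hg0b : ∀ ω, |g0 ω| ≤ 1 := fun ω =>
    abs_le.mpr ⟨le_max_left _ _, max_le (by norm_num) (min_le_left _ _)⟩
  have hG0b : ∀ᵐ ω ∂P, |G0 ω| ≤ 1 := ae_bdd_abs_condExp_of_ae_bdd_abs (ae_of_all _ hg1)
  have hgG : g0 =ᵐ[P] G0 := by
    filter_upwards [hG0b] with ω hω
    have h1 := abs_le.mp hω
    simp only [hg0]
    rw [min_eq_right h1.2, max_eq_right h1.1]
  have hfi : Integrable f P := int_bd hf hf1
  have hgi : Integrable g P := int_bd hg hg1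
  have hg0i : Integrable g0 P := int_bd hg0m hg0b
  -- the square root of the weight
  set r : Ω → ℝ := fun ω => √(ps ω) with hr
  have hr1 : ∀ ω, 0 ≤ r ω ∧ r ω ≤ 1 := fun ω =>
    ⟨Real.sqrt_nonneg _, Real.sqrt_le_one.mpr (hps1 ω).2⟩
  have hrr : ∀ ω, r ω * r ω = ps ω := fun ω => Real.mul_self_sqrt (hps1 ω).1
  have hrI : Measurable[Inv T (W * e)] r := Real.continuous_sqrt.measurable.comp hpsI
  have hrW : Measurable[Inv T W] r := Real.continuous_sqrt.measurable.comp hps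
  have hrm : Measurable r := hrI.mono hI le_rfl
  set h : Ω → ℝ := fun ω => r ω / 2 * (g ω - g0 ω) with hh
  have hhm : Measurable h := (hrm.div_const 2).mul (hg.sub hg0m)
  have hg1b : ∀ ω, |g ω - g0 ω| ≤ 2 := fun ω => by
    have h1 := abs_le.mp (hg1 ω)
    have h2 := abs_le.mp (hg0b ω)
    rw [abs_le]
    constructor <;> linarith
  have hhb : ∀ ω, |h ω| ≤ 1 := fun ω => by
    simp only [hh]
    rw [abs_mul, abs_of_nonneg (by have := (hr1 ω).1; positivity)]
    have h1 := (hr1 ω).1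
    have h2 := (hr1 ω).2
    have h3 := hg1b ω
    have h4 := abs_nonneg (g ω - g0 ω)
    nlinarith
  have hcond : P[h | Inv T (W * e)] =ᵐ[P] 0 := by
    have h1 : P[(fun ω => r ω / 2) * (g - g0) | Inv T (W * e)] =ᵐ[P]
        (fun ω => r ω / 2) * P[g - g0 | Inv T (W * e)] :=
      condExp_stronglyMeasurable_mul_of_bound (μ := P) hI
        (hrI.div_const 2).stronglyMeasurable (hgi.sub hg0i) 1
        (ae_of_all _ fun ω => by
          rw [Real.norm_eq_abs, abs_of_nonneg (by have := (hr1 ω).1; positivity)]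
          have h2 := (hr1 ω).2
          linarith)
    have h2 : P[g - g0 | Inv T (W * e)] =ᵐ[P] P[g | Inv T (W * e)] - P[g0 | Inv T (W * e)] :=
      condExp_sub hgi hg0i _
    have h3 : P[g0 | Inv T (W * e)] = g0 :=
      condExp_of_stronglyMeasurable hI hg0I.stronglyMeasurable hg0i
    have h4 : h = (fun ω => r ω / 2) * (g - g0) := by
      ext ω; simp [hh]
    rw [h4]
    filter_upwards [h1, h2, hgG] with ω a1 a2 a3
    rw [a1, Pi.mul_apply, a2, Pi.sub_apply, h3, a3]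
    simp only [Pi.zero_apply]
    exact mul_eq_zero_of_right _ (sub_self _)
  obtain ⟨m1, hm1⟩ := hav Ω P T w W e h (ε / (2 * w)) hT hhm hhb hw hW hwW he hcond
    (by positivity)
  obtain ⟨c, hc, m2, hm2⟩ := hpn W W hW dvd_rfl
  refine ⟨max m1 m2, fun m hm => ?_⟩
  have hcard : 0 < (Ps W m).card := by
    have h1 := (hm2 m (le_trans (le_max_right _ _) hm)).2
    exact_mod_cast h1
  have hAV := hm1 m (le_trans (le_max_left _ _) hm)
  -- the main term
  have hM : ∫ ω, ps ω * (P[f | Inv T (W * e)]) ω * G0 ω ∂P = ∫ ω, ps ω * f ω * g0 ω ∂P := by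
    have h1 : ∫ ω, (ps ω * g0 ω) * (P[f | Inv T (W * e)]) ω ∂P =
        ∫ ω, (ps ω * g0 ω) * f ω ∂P :=
      po hI (hpsI.mul hg0I) (C := 1) (ae_of_all _ fun ω => by
        rw [abs_mul]
        have h2 := hps0 ω
        have h3 := hg0b ω
        have h4 := abs_nonneg (ps ω)
        have h5 := abs_nonneg (g0 ω)
        nlinarith) hfi
    calc ∫ ω, ps ω * (P[f | Inv T (W * e)]) ω * G0 ω ∂P
        = ∫ ω, (ps ω * g0 ω) * (P[f | Inv T (W * e)]) ω ∂P := by
          refine integral_congr_ae ?_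
          filter_upwards [hgG] with ω hω
          rw [hω]; ring
      _ = ∫ ω, (ps ω * g0 ω) * f ω ∂P := h1
      _ = _ := integral_congr_ae (ae_of_all _ fun ω => by simp only; ring)
  -- the energy of the second part
  have hE : ∫ ω, h ω ^ 2 ∂P ≤ 1 / 4 * ∫ ω, ps ω ∂P := by
    have hb1 : ∀ ω, |ps ω * g0 ω| ≤ 1 := fun ω => by
      rw [abs_mul]
      have h2 := hps0 ω
      have h3 := hg0b ω
      have h4 := abs_nonneg (ps ω)
      have h5 := abs_nonneg (g0 ω)
      nlinarith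
    have h1 : ∫ ω, (ps ω * g0 ω) * G0 ω ∂P = ∫ ω, (ps ω * g0 ω) * g ω ∂P :=
      po hI (hpsI.mul hg0I) (C := 1) (ae_of_all _ hb1) hgi
    have h2 : ∫ ω, (ps ω * g0 ω) * G0 ω ∂P = ∫ ω, (ps ω * g0 ω) * g0 ω ∂P := by
      refine integral_congr_ae ?_
      filter_upwards [hgG] with ω hω
      rw [hω]
    have i1 : Integrable (fun ω => (ps ω * g0 ω) * g ω) P :=
      int_bd (C := 1) ((hpsm.mul hg0m).mul hg) fun ω => by
        rw [abs_mul]
        have h2 := hb1 ω
        have h3 := hg1 ω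
        have h4 := abs_nonneg (ps ω * g0 ω)
        have h5 := abs_nonneg (g ω)
        nlinarith
    have i2 : Integrable (fun ω => (ps ω * g0 ω) * g0 ω) P :=
      int_bd (C := 1) ((hpsm.mul hg0m).mul hg0m) fun ω => by
        rw [abs_mul]
        have h2 := hb1 ω
        have h3 := hg0b ω
        have h4 := abs_nonneg (ps ω * g0 ω)
        have h5 := abs_nonneg (g0 ω)
        nlinarith
    have i3 : Integrable ps P := int_bd hpsm hps0
    have h3 : ∫ ω, h ω ^ 2 ∂P ≤ ∫ ω, (1 / 4 * ps ω - 1 / 2 * ((ps ω * g0 ω) * g ω) +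
        1 / 2 * ((ps ω * g0 ω) * g0 ω)) ∂P := by
      refine integral_mono (int_bd (C := 1) (hhm.pow_const 2) fun ω => ?_)
        (((i3.const_mul _).sub (i1.const_mul _)).add (i2.const_mul _)) fun ω => ?_
      · rw [abs_pow]
        exact pow_le_one₀ (abs_nonneg _) (hhb ω)
      · simp only [hh]
        have a1 : (r ω / 2 * (g ω - g0 ω)) ^ 2 = 1 / 4 * ps ω * (g ω - g0 ω) ^ 2 := by
          rw [← hrr ω]; ring
        rw [a1]
        have a2 : g ω ^ 2 ≤ 1 := by
          rw [← sq_abs]; exact pow_le_one₀ (abs_nonneg _) (hg1 ω)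
        have a3 := (hps1 ω).1
        have a4 : 0 ≤ ps ω * (1 - g ω ^ 2) := mul_nonneg a3 (by linarith)
        have a5 : 0 ≤ ps ω * g0 ω ^ 2 := mul_nonneg a3 (sq_nonneg _)
        nlinarith
    have i4 : Integrable (fun ω => 1 / 4 * ps ω - 1 / 2 * ((ps ω * g0 ω) * g ω)) P :=
      (i3.const_mul _).sub (i1.const_mul _)
    rw [integral_add i4 (i2.const_mul _),
      integral_sub (i3.const_mul _) (i1.const_mul _), integral_const_mul, integral_const_mul,
      integral_const_mul, ← h1, h2] at h3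
    linarith
  -- the average of the second part
  have hX : (avgP W m fun p => ∫ ω, ps ω * f ω * g (T^[(p - 1) * e] ω) ∂P) =
      ∫ ω, ps ω * f ω * g0 ω ∂P +
        ∫ ω, (r ω * f ω) * (2 * avgP W m fun p => h (T^[(p - 1) * e] ω)) ∂P := by
    have hrf1 : ∀ ω, |r ω * f ω| ≤ 1 := fun ω => by
      rw [abs_mul, abs_of_nonneg (hr1 ω).1]
      have h1 := (hr1 ω).1
      have h2 := (hr1 ω).2
      have h3 := hf1 ω
      have h4 := abs_nonneg (f ω)
      nlinarith
    have hv := avgP_int (P := P) (T := T) W m e (u := fun ω => r ω * f ω) (hrm.mul hf) hrf1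
      hhm hhb
    rw [← hv, ← avgP_add hcard]
    refine avgP_congr fun p hp => ?_
    have hdv : W * e ∣ (p - 1) * e := Nat.mul_dvd_mul (Pset_dvd hp) dvd_rfl
    have hmT : Measurable (fun ω => h (T^[(p - 1) * e] ω)) :=
      hhm.comp (T.measurable.iterate _)
    have j1 : Integrable (fun ω => ps ω * f ω * g0 ω) P :=
      int_bd (C := 1) ((hpsm.mul hf).mul hg0m) fun ω => by
        rw [abs_mul, abs_mul]
        have h1 := hps0 ω
        have h2 := hf1 ω
        have h3 := hg0b ω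
        have h4 := abs_nonneg (ps ω)
        have h5 := abs_nonneg (f ω)
        have h6 := abs_nonneg (g0 ω)
        calc |ps ω| * |f ω| * |g0 ω| ≤ 1 * 1 * 1 := by gcongr
          _ = 1 := by norm_num
    have j2 : Integrable (fun ω => (r ω * f ω) * (2 * h (T^[(p - 1) * e] ω))) P :=
      int_bd (C := 2) ((hrm.mul hf).mul (hmT.const_mul 2)) fun ω => by
        rw [abs_mul, abs_mul 2, abs_two]
        have h1 := hrf1 ω
        have h2 := hhb (T^[(p - 1) * e] ω)
        have h3 := abs_nonneg (r ω * f ω)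
        have h4 := abs_nonneg (h (T^[(p - 1) * e] ω))
        nlinarith
    rw [← integral_add j1 j2]
    refine integral_congr_ae (ae_of_all _ fun ω => ?_)
    simp only [hh]
    rw [inv_it hrI hdv, inv_it hg0I hdv, ← hrr ω]
    ring
  rw [hX, hM, add_sub_cancel_left]
  have hw' : (0 : ℝ) < w := by exact_mod_cast hw
  set A : Ω → ℝ := fun ω => avgP W m fun p => h (T^[(p - 1) * e] ω) with hA
  have hAm : Measurable A := by
    simp only [hA]
    unfold avgP
    refine Measurable.div_const (Finset.measurable_sum _ fun p _ => ?_) _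
    exact hhm.comp (T.measurable.iterate _)
  have hAb : ∀ ω, |A ω| ≤ 1 := fun ω => by
    simp only [hA]
    unfold avgP
    have hc' : (0 : ℝ) < (Ps W m).card := by exact_mod_cast hcard
    rw [abs_div, abs_of_pos hc', div_le_one hc']
    calc |∑ p ∈ Ps W m, h (T^[(p - 1) * e] ω)| ≤ ∑ p ∈ Ps W m, |h (T^[(p - 1) * e] ω)| :=
          Finset.abs_sum_le_sum_abs _ _
      _ ≤ ∑ p ∈ Ps W m, (1 : ℝ) := Finset.sum_le_sum fun p _ => hhb _
      _ = (Ps W m).card := by simp
  have k1 : Integrable ps P := int_bd hpsm hps0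
  have k2 : Integrable (fun ω => A ω ^ 2) P :=
    int_bd (C := 1) (hAm.pow_const 2) fun ω => by
      rw [abs_pow]; exact pow_le_one₀ (abs_nonneg _) (hAb ω)
  calc |∫ ω, (r ω * f ω) * (2 * A ω) ∂P| ≤ ∫ ω, |(r ω * f ω) * (2 * A ω)| ∂P :=
        abs_integral_le_integral_abs
    _ ≤ ∫ ω, (1 / (2 * w) * ps ω + 2 * w * A ω ^ 2) ∂P := by
        refine integral_mono_of_nonneg (ae_of_all _ fun ω => abs_nonneg _)
          ((k1.const_mul _).add (k2.const_mul _)) (ae_of_all _ fun ω => ?_)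
        simp only
        have b1 : (r ω * f ω) ^ 2 ≤ ps ω := by
          rw [mul_pow, sq (r ω), hrr]
          have b2 : f ω ^ 2 ≤ 1 := by
            rw [← sq_abs]; exact pow_le_one₀ (abs_nonneg _) (hf1 ω)
          have b3 := (hps1 ω).1
          nlinarith
        have b4 : |(r ω * f ω) * (2 * A ω)| ≤ 1 / (2 * w) * (r ω * f ω) ^ 2 +
            2 * w * A ω ^ 2 := by
          rw [abs_le]
          have b5 : (1 / (2 * w) * (r ω * f ω) ^ 2 + 2 * w * A ω ^ 2) -
              (r ω * f ω) * (2 * A ω) = 1 / (2 * w) * (r ω * f ω - 2 * w * A ω) ^ 2 := by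
            field_simp
            ring
          have b6 : (1 / (2 * w) * (r ω * f ω) ^ 2 + 2 * w * A ω ^ 2) +
              (r ω * f ω) * (2 * A ω) = 1 / (2 * w) * (r ω * f ω + 2 * w * A ω) ^ 2 := by
            field_simp
            ring
          have b7 : 0 ≤ 1 / (2 * w) * (r ω * f ω - 2 * w * A ω) ^ 2 := by positivity
          have b8 : 0 ≤ 1 / (2 * w) * (r ω * f ω + 2 * w * A ω) ^ 2 := by positivity
          constructor <;> linarith
        have b9 : 1 / (2 * (w : ℝ)) * (r ω * f ω) ^ 2 ≤ 1 / (2 * w) * ps ω :=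
          mul_le_mul_of_nonneg_left b1 (by positivity)
        linarith
    _ = 1 / (2 * w) * ∫ ω, ps ω ∂P + 2 * w * ∫ ω, A ω ^ 2 ∂P := by
        rw [integral_add (k1.const_mul _) (k2.const_mul _), integral_const_mul,
          integral_const_mul]
    _ ≤ 1 / (2 * w) * ∫ ω, ps ω ∂P + 2 * w * (1 / (w : ℝ) ^ 2 * (1 / 4 * ∫ ω, ps ω ∂P) +
          ε / (2 * w)) := by
        have c1 : ∫ ω, A ω ^ 2 ∂P ≤ 1 / (w : ℝ) ^ 2 * (1 / 4 * ∫ ω, ps ω ∂P) + ε / (2 * w) := by
          refine hAV.trans ?_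
          have c2 := mul_le_mul_of_nonneg_left hE (by positivity : (0 : ℝ) ≤ 1 / (w : ℝ) ^ 2)
          linarith
        have c3 := mul_le_mul_of_nonneg_left c1 (by positivity : (0 : ℝ) ≤ 2 * w)
        linarith
    _ = 1 / (w : ℝ) * ∫ ω, ps ω ∂P + ε := by
        field_simp
        ring

end

/-- PI: pair independence. -/
theorem pf_PI (hav : T_AVP) (hpn : T_PN) : T_PI := by
  intro Ω mΩ P _ T w W a b d ps f g ε hT hps hps1 hf hf1 hg hg1 hw hW hwW hab hdd hd hε
  set e : ℕ := ((a : ℤ) - b).natAbs with he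
  have he0 : 0 < e := by
    rw [he, Int.natAbs_pos]
    intro h
    apply hab
    have h1 : (a : ℤ) = b := by linarith
    exact_mod_cast h1
  have hI1 : Inv T W ≤ mΩ := MeasurableSpace.invariants_le _
  have hpsm : Measurable ps := hps.mono hI1 le_rfl
  have hps0 : ∀ ω, |ps ω| ≤ 1 := fun ω => by
    rw [abs_of_nonneg (hps1 ω).1]; exact (hps1 ω).2
  -- first step
  have hstep : ∃ m₀ : ℕ, ∀ m, m₀ ≤ m →
      |(avgP W m fun p => ∫ ω, ps ω * f (T^[(p - 1) * a] ω) * g (T^[(p - 1) * b] ω) ∂P) -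
        ∫ ω, ps ω * (P[f | Inv T (W * e)]) ω * (P[g | Inv T (W * e)]) ω ∂P| ≤
      1 / (w : ℝ) * ∫ ω, ps ω ∂P + ε := by
    rcases lt_or_gt_of_ne hab with hlt | hgt
    · have hea : b = e + a := by omega
      obtain ⟨m₀, hm₀⟩ := core hav hpn T w W e ps f g ε hT hps hps1 hf hf1 hg hg1 hw hW hwW he0 hε
      refine ⟨m₀, fun m hm => ?_⟩
      have h1 := hm₀ m hm
      rwa [show (avgP W m fun p => ∫ ω, ps ω * f (T^[(p - 1) * a] ω) *
          g (T^[(p - 1) * b] ω) ∂P) =
          avgP W m fun p => ∫ ω, ps ω * f ω * g (T^[(p - 1) * e] ω) ∂P from ?_]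
      refine avgP_congr fun p hp => ?_
      have hF : Measurable fun ω => ps ω * f ω * g (T^[(p - 1) * e] ω) :=
        (hpsm.mul hf).mul (hg.comp (T.measurable.iterate _))
      rw [← int_shift hT ((p - 1) * a) hF]
      refine integral_congr_ae (ae_of_all _ fun ω => ?_)
      simp only
      rw [inv_it hps (Dvd.dvd.mul_right (Pset_dvd hp) a), ← Function.iterate_add_apply,
        ← Nat.mul_add, ← hea]
    · have hea : a = e + b := by omega
      obtain ⟨m₀, hm₀⟩ := core hav hpn T w W e ps g f ε hT hps hps1 hg hg1 hf hf1 hw hW hwW he0 hε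
      refine ⟨m₀, fun m hm => ?_⟩
      have h1 := hm₀ m hm
      rw [show (∫ ω, ps ω * (P[g | Inv T (W * e)]) ω * (P[f | Inv T (W * e)]) ω ∂P) =
        ∫ ω, ps ω * (P[f | Inv T (W * e)]) ω * (P[g | Inv T (W * e)]) ω ∂P from
          integral_congr_ae (ae_of_all _ fun ω => by simp only; ring)] at h1
      rwa [show (avgP W m fun p => ∫ ω, ps ω * f (T^[(p - 1) * a] ω) *
          g (T^[(p - 1) * b] ω) ∂P) =
          avgP W m fun p => ∫ ω, ps ω * g ω * f (T^[(p - 1) * e] ω) ∂P from ?_]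
      refine avgP_congr fun p hp => ?_
      have hF : Measurable fun ω => ps ω * g ω * f (T^[(p - 1) * e] ω) :=
        (hpsm.mul hg).mul (hf.comp (T.measurable.iterate _))
      rw [← int_shift hT ((p - 1) * b) hF]
      refine integral_congr_ae (ae_of_all _ fun ω => ?_)
      simp only
      rw [inv_it hps (Dvd.dvd.mul_right (Pset_dvd hp) b), ← Function.iterate_add_apply,
        ← Nat.mul_add, ← hea]
      ring
  obtain ⟨m₀, hm₀⟩ := hstep
  refine ⟨m₀, fun m hm => ?_⟩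
  -- second step
  obtain ⟨q, hq⟩ := hdd
  have hI0 : Inv T (W * e) ≤ mΩ := MeasurableSpace.invariants_le _
  have hI2 : Inv T (W * d) ≤ mΩ := MeasurableSpace.invariants_le _
  have h10 : Inv T W ≤ Inv T (W * e) := Inv_mono T W e
  have h02 : Inv T (W * e) ≤ Inv T (W * d) := by
    have h := Inv_mono T (W * e) q
    rwa [mul_assoc, ← hq] at h
  set F1 : Ω → ℝ := P[f | Inv T W] with hF1
  set F0 : Ω → ℝ := P[f | Inv T (W * e)] with hF0
  set F2 : Ω → ℝ := P[f | Inv T (W * d)] with hF2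
  set G0 : Ω → ℝ := P[g | Inv T (W * e)] with hG0
  set G1 : Ω → ℝ := P[g | Inv T W] with hG1
  have hfi : Integrable f P := int_bd hf hf1
  have hgi : Integrable g P := int_bd hg hg1
  have bF1 : ∀ᵐ ω ∂P, |F1 ω| ≤ 1 := ae_bdd_abs_condExp_of_ae_bdd_abs (ae_of_all _ hf1)
  have bF0 : ∀ᵐ ω ∂P, |F0 ω| ≤ 1 := ae_bdd_abs_condExp_of_ae_bdd_abs (ae_of_all _ hf1)
  have bF2 : ∀ᵐ ω ∂P, |F2 ω| ≤ 1 := ae_bdd_abs_condExp_of_ae_bdd_abs (ae_of_all _ hf1)
  have bG0 : ∀ᵐ ω ∂P, |G0 ω| ≤ 1 := ae_bdd_abs_condExp_of_ae_bdd_abs (ae_of_all _ hg1)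
  have mF1 : Measurable[Inv T W] F1 := stronglyMeasurable_condExp.measurable
  have mF0 : Measurable[Inv T (W * e)] F0 := stronglyMeasurable_condExp.measurable
  have mG0 : Measurable[Inv T (W * e)] G0 := stronglyMeasurable_condExp.measurable
  have iF1 : Integrable F1 P := integrable_condExp
  have iF0 : Integrable F0 P := integrable_condExp
  have iF2 : Integrable F2 P := integrable_condExp
  have iG0 : Integrable G0 P := integrable_condExp
  have hpsI : Measurable[Inv T (W * e)] ps := hps.mono h10 le_rfl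
  have s1 : ∫ ω, ps ω * F1 ω * G1 ω ∂P = ∫ ω, ps ω * F1 ω * G0 ω ∂P := by
    have t1 : ∫ ω, (ps ω * F1 ω) * (P[G0 | Inv T W]) ω ∂P = ∫ ω, (ps ω * F1 ω) * G0 ω ∂P :=
      po hI1 (hps.mul mF1) (C := 1) (by
        filter_upwards [bF1] with ω hω
        rw [abs_mul]
        have h2 := hps0 ω
        have h4 := abs_nonneg (ps ω)
        have h5 := abs_nonneg (F1 ω)
        nlinarith) iG0
    have t2 : P[G0 | Inv T W] =ᵐ[P] G1 := condExp_condExp_of_le h10 hI0
    rw [← t1]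
    refine integral_congr_ae ?_
    filter_upwards [t2] with ω hω
    rw [hω]
  have s2 : ∫ ω, |ps ω * (F0 ω - F1 ω)| ∂P ≤ ∫ ω, ps ω * |F2 ω - F1 ω| ∂P := by
    have t1 : P[ps * (F2 - F1) | Inv T (W * e)] =ᵐ[P] ps * P[F2 - F1 | Inv T (W * e)] :=
      condExp_stronglyMeasurable_mul_of_bound (μ := P) hI0 hpsI.stronglyMeasurable
        (iF2.sub iF1) 1 (ae_of_all _ fun ω => by rw [Real.norm_eq_abs]; exact hps0 ω)
    have t2 : P[F2 - F1 | Inv T (W * e)] =ᵐ[P] P[F2 | Inv T (W * e)] - P[F1 | Inv T (W * e)] :=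
      condExp_sub iF2 iF1 _
    have t3 : P[F2 | Inv T (W * e)] =ᵐ[P] F0 := condExp_condExp_of_le h02 hI2
    have t4 : P[F1 | Inv T (W * e)] = F1 :=
      condExp_of_stronglyMeasurable hI0 (mF1.mono h10 le_rfl).stronglyMeasurable iF1
    have t5 : ∫ ω, |ps ω * (F0 ω - F1 ω)| ∂P =
        ∫ ω, |(P[ps * (F2 - F1) | Inv T (W * e)]) ω| ∂P := by
      refine integral_congr_ae ?_
      filter_upwards [t1, t2, t3] with ω a1 a2 a3
      rw [a1, Pi.mul_apply, a2, Pi.sub_apply, a3, t4]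
    rw [t5]
    refine (integral_abs_condExp_le _).trans (le_of_eq ?_)
    refine integral_congr_ae (ae_of_all _ fun ω => ?_)
    simp only [Pi.mul_apply, Pi.sub_apply]
    rw [abs_mul, abs_of_nonneg (hps1 ω).1]
  have iA : Integrable (fun ω => ps ω * F0 ω * G0 ω) P := by
    refine Integrable.of_bound (((hpsm.mul (mF0.mono hI0 le_rfl)).mul
      (mG0.mono hI0 le_rfl)).aestronglyMeasurable) 1 ?_
    filter_upwards [bF0, bG0] with ω a1 a2
    rw [Real.norm_eq_abs, abs_mul, abs_mul]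
    have a3 := hps0 ω
    calc |ps ω| * |F0 ω| * |G0 ω| ≤ 1 * 1 * 1 := by gcongr
      _ = 1 := by norm_num
  have iB : Integrable (fun ω => ps ω * F1 ω * G0 ω) P := by
    refine Integrable.of_bound (((hpsm.mul (mF1.mono hI1 le_rfl)).mul
      (mG0.mono hI0 le_rfl)).aestronglyMeasurable) 1 ?_
    filter_upwards [bF1, bG0] with ω a1 a2
    rw [Real.norm_eq_abs, abs_mul, abs_mul]
    have a3 := hps0 ω
    calc |ps ω| * |F1 ω| * |G0 ω| ≤ 1 * 1 * 1 := by gcongr
      _ = 1 := by norm_num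
  have s3 : |∫ ω, ps ω * F0 ω * G0 ω ∂P - ∫ ω, ps ω * F1 ω * G1 ω ∂P| ≤
      ∫ ω, ps ω * |F2 ω - F1 ω| ∂P := by
    rw [s1, ← integral_sub iA iB]
    refine abs_integral_le_integral_abs.trans (le_trans ?_ s2)
    refine integral_mono_ae (iA.sub iB).abs ?_ ?_
    · refine Integrable.abs ?_
      refine (iF0.sub iF1).bdd_mul hpsm.aestronglyMeasurable (c := 1) ?_
      exact ae_of_all _ fun ω => by rw [Real.norm_eq_abs]; exact hps0 ω
    · filter_upwards [bG0] with ω hω
      have u1 : ps ω * F0 ω * G0 ω - ps ω * F1 ω * G0 ω = (ps ω * (F0 ω - F1 ω)) * G0 ω := by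
        ring
      rw [u1, abs_mul]
      exact mul_le_of_le_one_right (abs_nonneg _) hω
  have key := hm₀ m hm
  calc _ ≤ |(avgP W m fun p => ∫ ω, ps ω * f (T^[(p - 1) * a] ω) *
          g (T^[(p - 1) * b] ω) ∂P) - ∫ ω, ps ω * F0 ω * G0 ω ∂P| +
        |∫ ω, ps ω * F0 ω * G0 ω ∂P - ∫ ω, ps ω * F1 ω * G1 ω ∂P| := abs_sub_le _ _ _
    _ ≤ _ := by linarith

end Pool.Agent.H66.SG.PI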