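import Pool.Agent.H66.SG.T7

/-!
# Positive relative density of the primes `≡ 1 (mod W)` among those `≡ 1 (mod Q)`
-/

open Finset

namespace Pool.Agent.H66.SG.PN

open Pool.Agent.H67.AG

open Pool.Agent.H24.T2 (Pset)
open Pool.Agent.H24.AG

theorem card_primes_le (m : ℕ) (hm : 1 ≤ m) :
    (((Ioc (2 ^ m) (2 ^ (m + 1))).filter Nat.Prime).card : ℝ) ≤ 4 * (2 ^ m / m) := by
  have h1 := Chebyshev.theta_le_log4_mul_x (x := (2 : ℝ) ^ (m + 1)) (by positivity)
  have h2 : (((Ioc (2 ^ m) (2 ^ (m + 1))).filter Nat.Prime).card : ℝ) * (m * Real.log 2) ≤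
      Chebyshev.theta ((2 : ℝ) ^ (m + 1)) := by
    have h3 : Chebyshev.theta ((2 : ℝ) ^ (m + 1)) =
        ∑ p ∈ (Ioc 0 (2 ^ (m + 1))).filter Nat.Prime, Real.log p := by
      rw [Chebyshev.theta]
      have : ⌊(2 : ℝ) ^ (m + 1)⌋₊ = 2 ^ (m + 1) := by
        rw [show (2 : ℝ) ^ (m + 1) = ((2 ^ (m + 1) : ℕ) : ℝ) by push_cast; rfl, Nat.floor_natCast]
      rw [this]
    rw [h3]
    have h4 : ((Ioc (2 ^ m) (2 ^ (m + 1))).filter Nat.Prime) ⊆
        (Ioc 0 (2 ^ (m + 1))).filter Nat.Prime := by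
      apply filter_subset_filter
      apply Ioc_subset_Ioc_left
      exact Nat.zero_le _
    refine le_trans ?_ (sum_le_sum_of_subset_of_nonneg h4 fun p _ _ => Real.log_natCast_nonneg p)
    rw [← nsmul_eq_mul]
    refine card_nsmul_le_sum _ _ _ fun p hp => ?_
    rw [mem_filter, mem_Ioc] at hp
    rw [← Real.log_pow]
    apply Real.log_le_log (by positivity)
    exact_mod_cast hp.1.1.le
  have h5 : Real.log 4 = 2 * Real.log 2 := by
    rw [show (4 : ℝ) = 2 ^ 2 by norm_num, Real.log_pow]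
    norm_num
  have h6 : 0 < Real.log 2 := Real.log_pos (by norm_num)
  have hm' : (0 : ℝ) < m := by exact_mod_cast hm
  rw [h5] at h1
  have h7 : (((Ioc (2 ^ m) (2 ^ (m + 1))).filter Nat.Prime).card : ℝ) * m * Real.log 2 ≤
      4 * 2 ^ m * Real.log 2 := by
    have h9 : 2 * Real.log 2 * (2 : ℝ) ^ (m + 1) = 4 * 2 ^ m * Real.log 2 := by
      rw [pow_succ]
      ring
    rw [mul_assoc, ← h9]
    exact h2.trans h1
  have h8 := le_of_mul_le_mul_right h7 h6
  rw [← mul_div_assoc, le_div_iff₀ hm']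
  exact h8

theorem pf_PN (h : T_VCT) : T_PN := by
  intro Q W hW _
  obtain ⟨c, hc, m₀, h1⟩ := h W hW
  refine ⟨c / 4, by positivity, max m₀ 1, fun m hm => ?_⟩
  have hm0 : m₀ ≤ m := le_trans (le_max_left _ _) hm
  have hm1 : 1 ≤ m := le_trans (le_max_right _ _) hm
  have hm' : (0 : ℝ) < m := by exact_mod_cast hm1
  have h2 := h1 m hm0
  have h3 := card_primes_le m hm1
  have h4 : ((Pset Q m).card : ℝ) ≤
      (((Ioc (2 ^ m) (2 ^ (m + 1))).filter Nat.Prime).card : ℝ) := by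
    have h5 : Pset Q m ⊆ (Ioc (2 ^ m) (2 ^ (m + 1))).filter Nat.Prime := by
      intro p hp
      rw [Pset, mem_filter] at hp
      exact mem_filter.mpr ⟨hp.1, hp.2.1⟩
    exact_mod_cast card_le_card h5
  constructor
  · have h6 : c / 4 * ((Pset Q m).card : ℝ) ≤ c / 4 * (4 * (2 ^ m / m)) :=
      mul_le_mul_of_nonneg_left (h4.trans h3) (by positivity)
    have h7 : c / 4 * (4 * (2 ^ m / m)) = c * 2 ^ m / m := by ring
    linarith
  · have h6 : (0 : ℝ) < (Ps W m).card := lt_of_lt_of_le (by positivity) h2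
    exact_mod_cast h6

end Pool.Agent.H66.SG.PN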