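import Pool.Agent.H66.SG.T7

/-!
# Lower bound for the number of primes `≡ 1 (mod W)` in dyadic intervals
-/

open Finset

namespace Pool.Agent.H66.SG.VCT

open Pool.Agent.H67.AG

open Pool.Agent.H24.T2 (Pset)
open Pool.Agent.H24.AG

theorem pset_eq (W m : ℕ) : Ps W m = Pb W 1 m := rfl

theorem pf_VCT (h : T_VEC) (hd : T_VDY) : T_VCT := by
  classical
  intro W hW
  obtain ⟨c, hc, m₁, h1⟩ := hd
  let S : Finset ℕ := (range W).filter (fun b => b.Coprime W)
  have hS : 0 < S.card := by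
    rw [card_pos]
    refine ⟨1 % W, ?_⟩
    rw [mem_filter, mem_range]
    refine ⟨Nat.mod_lt _ hW, ?_⟩
    rw [Nat.coprime_iff_gcd_eq_one, ← Nat.gcd_rec, Nat.gcd_one_right]
  have hSr : (0 : ℝ) < S.card := by exact_mod_cast hS
  let ε : ℝ := c / (2 * S.card)
  have hε : 0 < ε := by positivity
  have h2 : ∀ b : ℕ, ∃ m₀ : ℕ, b.Coprime W → ∀ m : ℕ, m₀ ≤ m →
      |((Pb W b m).card : ℝ) - (Pb W 1 m).card| ≤ ε * 2 ^ m / m := by
    intro b
    by_cases hb : b.Coprime W
    · obtain ⟨m₀, h3⟩ := h W b 1 ε hW hb (Nat.coprime_one_left W) hε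
      exact ⟨m₀, fun _ => h3⟩
    · exact ⟨0, fun hb' => absurd hb' hb⟩
  choose f hf using h2
  refine ⟨ε, hε, max (max m₁ (S.sup f)) W, fun m hm => ?_⟩
  have hm1 : m₁ ≤ m := le_trans (le_trans (le_max_left _ _) (le_max_left _ _)) hm
  have hm2 : S.sup f ≤ m := le_trans (le_trans (le_max_right _ _) (le_max_left _ _)) hm
  have hm3 : W ≤ m := le_trans (le_max_right _ _) hm
  have h3 := h1 m hm1
  -- fibres
  have hmaps : ∀ p ∈ (Ioc (2 ^ m) (101 * 2 ^ m / 100)).filter Nat.Prime, p % W ∈ S := by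
    intro p hp
    rw [mem_filter, mem_Ioc] at hp
    rw [mem_filter, mem_range]
    refine ⟨Nat.mod_lt _ hW, ?_⟩
    have h4 : p.Coprime W := by
      rw [hp.2.coprime_iff_not_dvd]
      intro h5
      have h6 := Nat.le_of_dvd hW h5
      have h7 : m < 2 ^ m := Nat.lt_two_pow_self
      omega
    rw [Nat.coprime_iff_gcd_eq_one, ← Nat.gcd_rec, Nat.gcd_comm]
    exact h4
  have h4 : (((Ioc (2 ^ m) (101 * 2 ^ m / 100)).filter Nat.Prime).card : ℝ) ≤
      ∑ b ∈ S, ((Pb W b m).card : ℝ) := by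
    rw [card_eq_sum_card_fiberwise hmaps]
    push_cast
    refine sum_le_sum fun b _ => ?_
    have h5 : (((Ioc (2 ^ m) (101 * 2 ^ m / 100)).filter Nat.Prime).filter (fun p => p % W = b)) ⊆
        Pb W b m := by
      intro p hp
      rw [mem_filter, mem_filter] at hp
      rw [Pb, mem_filter]
      refine ⟨hp.1.1, hp.1.2, ?_⟩
      rw [← hp.2]
      exact (Nat.mod_modEq p W).symm
    exact_mod_cast card_le_card h5
  have h5 : ∀ b ∈ S, ((Pb W b m).card : ℝ) ≤ (Ps W m).card + ε * 2 ^ m / m := by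
    intro b hb
    have h6 := hf b (mem_filter.mp hb).2 m (le_trans (le_sup (f := f) hb) hm2)
    have h7 := (abs_le.mp h6).2
    rw [← pset_eq] at h7
    linarith
  have h6 := sum_le_sum h5
  rw [sum_const, nsmul_eq_mul] at h6
  have h7 : (S.card : ℝ) * (ε * 2 ^ m / m) = c * 2 ^ m / m / 2 := by
    simp only [ε]
    field_simp
  have h8 : c * 2 ^ m / m = 2 * (S.card : ℝ) * (ε * 2 ^ m / m) := by
    linarith
  have h9 : (S.card : ℝ) * (ε * 2 ^ m / m) ≤ (S.card : ℝ) * (Ps W m).card := by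
    have h10 : (S.card : ℝ) * ((Ps W m).card + ε * 2 ^ m / m) =
      (S.card : ℝ) * (Ps W m).card + (S.card : ℝ) * (ε * 2 ^ m / m) := by ring
    linarith
  exact le_of_mul_le_mul_left h9 hSr

end Pool.Agent.H66.SG.VCT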