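import Pool.Agent.H66.SG.T7
import Pool.Agent.H24.T2.Psk
import Pool.Agent.H18.T2.Multi
import Pool.Agent.H14.T2.Mom

/-!
ABSOLUTE GAP (`MP_c59857_nt`), row VCU: the second moment of the number of prime cubes.
-/

set_option autoImplicit false

open Finset

namespace Pool.Agent.H66.SG.VCU

open Pool.Agent.H67.AG

open Pool.Agent.H24.AG Pool.Agent.H24.T2

theorem mbS : StatementMB := by
  intro K
  obtain ⟨C, E, hC, h⟩ := Pool.Agent.H18.T2.multi_bound K
  exact ⟨C, E, hC, fun Q a N z U _ hQ hU hz hza => h Q a N z U hQ hU hz hza⟩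

theorem momS : StatementMOM := fun k M => Pool.Agent.H14.T2.mom k M

/-- **VCU.** -/
theorem pf_VCU (hc : T_VCT) : T_VCU := by
  classical
  intro W d hW hWe
  obtain ⟨c, hc0, m₀, hct⟩ := hc W hW
  obtain ⟨C₁, hC₁, hup⟩ := cub_upper mbS d
  obtain ⟨K, hK⟩ : ∃ K, 2 ^ d = K := ⟨_, rfl⟩
  rw [hK] at hup ⊢
  obtain ⟨C₂, hC₂, hmo⟩ := SS_moment momS d (2 * K)
  obtain ⟨P, hP⟩ : ∃ P, (Finset.univ : Finset (Finset (Fin d) × Finset (Fin d))).card = P :=
    ⟨_, rfl⟩
  obtain ⟨m₁, hm₁⟩ := hup W hW hWe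
  obtain ⟨m₂, hm₂⟩ := growthK 1 (2 * K) (1 / c ^ (2 * K)) one_pos
  obtain ⟨r, hr⟩ : ∃ r : ℝ, (W : ℝ) / Nat.totient W = r := ⟨_, rfl⟩
  have hφ : (0 : ℝ) < (Nat.totient W : ℝ) := by exact_mod_cast Nat.totient_pos.mpr hW
  have hWR : (0 : ℝ) < W := by exact_mod_cast hW
  have hr0 : 0 < r := by rw [← hr]; positivity
  refine ⟨C₁ ^ 2 * C₂ * (r / c) ^ (2 * K) + P * 3 ^ d, by positivity,
    max (max m₀ m₁) (max m₂ 1), fun m hm => ?_⟩
  have hm0 : m₀ ≤ m := le_trans (le_trans (le_max_left _ _) (le_max_left _ _)) hm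
  have hm1 : m₁ ≤ m := le_trans (le_trans (le_max_right _ _) (le_max_left _ _)) hm
  have hm2 : m₂ ≤ m := le_trans (le_trans (le_max_left _ _) (le_max_right _ _)) hm
  have hmp : 1 ≤ m := le_trans (le_trans (le_max_right _ _) (le_max_right _ _)) hm
  have hmR : (1 : ℝ) ≤ m := by exact_mod_cast hmp
  have hlow := hct m hm0
  have hup' := hm₁ m hm1 (Ps W m) (Ps_sub W m)
  have hgr := hm₂ m hm2
  rw [hr] at hup'
  have hAc := AA_card hW (Ps_sub W m)
  set A := AA W (Ps W m) with hA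
  obtain ⟨a, ha⟩ : ∃ a : ℝ, ((Ps W m).card : ℝ) = a := ⟨_, rfl⟩
  rw [ha] at hlow ⊢
  obtain ⟨N, hN⟩ : ∃ N : ℝ, (2 : ℝ) ^ m = N := ⟨_, rfl⟩
  have hN0 : 0 < N := by rw [← hN]; positivity
  have hNpos : 0 < 2 ^ m := by positivity
  have hNc : ((2 ^ m : ℕ) : ℝ) = N := by rw [← hN]; push_cast; rfl
  rw [hN] at hlow ⊢
  have ha0 : 0 < a := lt_of_lt_of_le (by positivity) hlow
  have haN : a ≤ N := by
    rw [← ha, ← hNc]
    have h1 : (Ps W m).card ≤ (Finset.Ioc (2 ^ m) (101 * 2 ^ m / 100)).card :=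
      Finset.card_le_card (Finset.filter_subset _ _)
    rw [Nat.card_Ioc] at h1
    have h2 : 101 * 2 ^ m / 100 - 2 ^ m ≤ 2 ^ m := by omega
    exact_mod_cast h1.trans h2
  have h1m : 1 / (m : ℝ) ≤ a / (c * N) := by
    rw [div_le_div_iff₀ (by positivity) (by positivity)]
    rw [div_le_iff₀ (by positivity)] at hlow
    linarith
  have hw : r / m ≤ r / c * (a / N) := by
    calc r / m = r * (1 / m) := by ring
      _ ≤ r * (a / (c * N)) := mul_le_mul_of_nonneg_left h1m hr0.le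
      _ = r / c * (a / N) := by field_simp
  have hX : ((2 ^ m / W : ℕ) : ℝ) ≤ N := by
    rw [← hNc]
    exact_mod_cast Nat.div_le_self _ _
  -- splitting
  set Bd := (box d (2 ^ m)).filter (fun t => ¬ Function.Injective (fun ω => Pool.Agent.H24.T2.Lam ω t)) with hBd
  set Bn := (box d (2 ^ m)).filter (fun t => Function.Injective (fun ω => Pool.Agent.H24.T2.Lam ω t)) with hBn
  have hsplit : ∑ t ∈ box d (2 ^ m), ((cub d A t).card : ℝ) ^ 2 =
      ∑ t ∈ Bn, ((cub d A t).card : ℝ) ^ 2 + ∑ t ∈ Bd, ((cub d A t).card : ℝ) ^ 2 :=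
    (Finset.sum_filter_add_sum_filter_not _ _ _).symm
  have hwK : 0 ≤ (r / m) ^ K := by positivity
  have hn : ∑ t ∈ Bn, ((cub d A t).card : ℝ) ^ 2 ≤
      (C₁ ^ 2 * C₂ * (r / c) ^ (2 * K)) * N ^ d * (N * (a / N) ^ K) ^ 2 := by
    calc ∑ t ∈ Bn, ((cub d A t).card : ℝ) ^ 2
        ≤ ∑ t ∈ Bn, (C₁ * (r / m) ^ K * N) ^ 2 * SS t ^ (2 * K) := by
          refine Finset.sum_le_sum fun t ht => ?_
          have h2 := hup' t (Finset.mem_filter.1 ht).2
          have hS : 0 ≤ SS t ^ K := pow_nonneg (zero_le_one.trans (one_le_SS t)) _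
          calc ((cub d A t).card : ℝ) ^ 2
              ≤ (C₁ * (r / m) ^ K * SS t ^ K * ((2 ^ m / W : ℕ) : ℝ)) ^ 2 :=
                pow_le_pow_left₀ (Nat.cast_nonneg _) h2 2
            _ ≤ (C₁ * (r / m) ^ K * SS t ^ K * N) ^ 2 := by
                refine pow_le_pow_left₀ (by positivity) ?_ 2
                exact mul_le_mul_of_nonneg_left hX (by positivity)
            _ = _ := by ring
      _ = (C₁ * (r / m) ^ K * N) ^ 2 * ∑ t ∈ Bn, SS t ^ (2 * K) := by rw [Finset.mul_sum]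
      _ ≤ (C₁ * (r / m) ^ K * N) ^ 2 * (C₂ * N ^ d) := by
          refine mul_le_mul_of_nonneg_left ?_ (by positivity)
          have h3 := hmo (2 ^ m) hNpos Bn (Finset.filter_subset _ _)
            (fun t ht => (Finset.mem_filter.1 ht).2)
          rwa [hNc] at h3
      _ ≤ (C₁ * (r / c * (a / N)) ^ K * N) ^ 2 * (C₂ * N ^ d) := by
          refine mul_le_mul_of_nonneg_right ?_ (by positivity)
          refine pow_le_pow_left₀ (by positivity) ?_ 2
          refine mul_le_mul_of_nonneg_right ?_ hN0.le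
          refine mul_le_mul_of_nonneg_left ?_ hC₁.le
          exact pow_le_pow_left₀ (by positivity) hw K
      _ = _ := by rw [mul_pow (r / c) (a / N) K, mul_comm 2 K, pow_mul]; ring
  have hd : ∑ t ∈ Bd, ((cub d A t).card : ℝ) ^ 2 ≤
      (P * 3 ^ d) * N ^ d * (N * (a / N) ^ K) ^ 2 := by
    have h2 := deg_card d (2 ^ m) hNpos Bd (Finset.filter_subset _ _)
      (fun t ht => (Finset.mem_filter.1 ht).2)
    rw [hP, hNc] at h2
    have h3 : ∑ t ∈ Bd, ((cub d A t).card : ℝ) ^ 2 ≤ Bd.card * N ^ 2 := by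
      rw [← nsmul_eq_mul]
      refine Finset.sum_le_card_nsmul _ _ _ fun t _ => ?_
      refine pow_le_pow_left₀ (Nat.cast_nonneg _) ?_ 2
      refine le_trans ?_ haN
      rw [← ha, ← hAc]
      exact_mod_cast Finset.card_le_card (cub_subset d A t)
    have hB0 : (0 : ℝ) ≤ Bd.card := Nat.cast_nonneg _
    have h4 : (Bd.card : ℝ) * N ≤ P * (3 * N) ^ d := by nlinarith
    -- (a / N) ^ (2 K) is at least 1 / N
    have h5 : c / m ≤ a / N := by
      rw [div_le_div_iff₀ (by positivity) hN0]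
      rw [div_le_iff₀ (by positivity)] at hlow
      linarith
    have h6 : 1 / N ≤ (c / m) ^ (2 * K) := by
      have h7 : (1 : ℝ) ≤ (2 : ℝ) ^ (m / 2) := one_le_pow₀ (by norm_num)
      rw [Nat.div_one, hNc] at hgr
      have h8 : 1 / c ^ (2 * K) * (m : ℝ) ^ (2 * K) ≤ N := by
        refine le_trans ?_ hgr
        have : 0 ≤ 1 / c ^ (2 * K) * (m : ℝ) ^ (2 * K) := by positivity
        nlinarith
      have h9 : (c / m) ^ (2 * K) = 1 / (1 / c ^ (2 * K) * (m : ℝ) ^ (2 * K)) := by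
        rw [div_pow]; field_simp
      rw [h9]
      exact one_div_le_one_div_of_le (by positivity) h8
    have h7 : 1 / N ≤ (a / N) ^ (2 * K) :=
      h6.trans (pow_le_pow_left₀ (by positivity) h5 _)
    have h8 : N ≤ (N * (a / N) ^ K) ^ 2 := by
      have h9 : (N * (a / N) ^ K) ^ 2 = N ^ 2 * (a / N) ^ (2 * K) := by
        rw [mul_comm 2 K, pow_mul]; ring
      rw [h9]
      calc N = N ^ 2 * (1 / N) := by field_simp
        _ ≤ _ := mul_le_mul_of_nonneg_left h7 (by positivity)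
    calc ∑ t ∈ Bd, ((cub d A t).card : ℝ) ^ 2 ≤ Bd.card * N ^ 2 := h3
      _ = (Bd.card * N) * N := by ring
      _ ≤ (P * (3 * N) ^ d) * (N * (a / N) ^ K) ^ 2 := by
          refine mul_le_mul h4 h8 hN0.le (by positivity)
      _ = _ := by rw [mul_pow]; ring
  rw [hsplit]
  calc _ ≤ (C₁ ^ 2 * C₂ * (r / c) ^ (2 * K)) * N ^ d * (N * (a / N) ^ K) ^ 2 +
        (P * 3 ^ d) * N ^ d * (N * (a / N) ^ K) ^ 2 := add_le_add hn hd
    _ = _ := by ring

end Pool.Agent.H66.SG.VCU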