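import Pool.Agent.H66.SG.VPR
import Pool.Agent.H25.LF.Targets

/-!
SHARP GAP (`MP_c59857_nt`), row VDY: primes in the intervals `(2 ^ m, 1.01 * 2 ^ m]`.
-/

set_option autoImplicit false

open Filter Topology Finset

namespace Pool.Agent.H66.SG.VDY

open Pool.Agent.H66.SG.VPR

/-- the sum of the logarithms of the primes in an interval -/
theorem theta_sub (N M : ℕ) (h : N ≤ M) : Chebyshev.theta M - Chebyshev.theta N =
    ∑ p ∈ (Ioc N M).filter Nat.Prime, Real.log p := by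
  rw [Chebyshev.theta, Chebyshev.theta, Nat.floor_natCast, Nat.floor_natCast]
  have h1 : (Ioc 0 M).filter Nat.Prime =
      (Ioc 0 N).filter Nat.Prime ∪ (Ioc N M).filter Nat.Prime := by
    rw [← filter_union, Ioc_union_Ioc_eq_Ioc (Nat.zero_le N) h]
  have h2 : Disjoint ((Ioc 0 N).filter Nat.Prime) ((Ioc N M).filter Nat.Prime) := by
    refine disjoint_left.2 fun p hp hp' => ?_
    rw [mem_filter, mem_Ioc] at hp hp'
    omega
  rw [h1, sum_union h2, add_sub_cancel_left]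

theorem pf_VDY (h : Pool.Agent.H25.LF.T_PNT) : T_VDY := by
  obtain ⟨x₀, hx⟩ := h (1 / 1000) (by norm_num)
  have e1 : ∀ᶠ m : ℕ in atTop, x₀ ≤ (2 : ℝ) ^ m :=
    (tendsto_pow_atTop_atTop_of_one_lt (by norm_num : (1 : ℝ) < 2)).eventually_ge_atTop x₀
  have e2 := ev_pow (show (0 : ℝ) < 1 / 1000 by norm_num)
  obtain ⟨m₀, hm₀⟩ := eventually_atTop.1 ((e1.and e2).and (eventually_ge_atTop 10))
  refine ⟨1 / 1000, by norm_num, m₀, fun m hm => ?_⟩
  obtain ⟨⟨h1, h2⟩, h3⟩ := hm₀ m hm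
  obtain ⟨N, hN⟩ : ∃ N, N = 2 ^ m := ⟨_, rfl⟩
  obtain ⟨M, hM⟩ : ∃ M, M = 101 * N / 100 := ⟨_, rfl⟩
  have hN1000 : 1024 ≤ N := by
    rw [hN]
    calc 1024 = 2 ^ 10 := by norm_num
      _ ≤ 2 ^ m := Nat.pow_le_pow_right (by norm_num) h3
  have hNM : N ≤ M := by omega
  have hM2 : M ≤ 2 * N := by omega
  have hM3 : 101 * N ≤ 100 * M + 100 := by omega
  have hNR : (N : ℝ) = 2 ^ m := by rw [hN]; push_cast; rfl
  have hN1000' : (1024 : ℝ) ≤ N := by exact_mod_cast hN1000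
  have hNM' : (N : ℝ) ≤ M := by exact_mod_cast hNM
  have hM2' : (M : ℝ) ≤ 2 * N := by exact_mod_cast hM2
  have hM3' : (101 : ℝ) * N ≤ 100 * M + 100 := by exact_mod_cast hM3
  have hM4 : 100 * M ≤ 101 * N := by omega
  have hM4' : (100 : ℝ) * M ≤ 101 * N := by exact_mod_cast hM4
  rw [← hNR] at h1
  have p1 := hx N h1
  have p2 := hx M (h1.trans hNM')
  rw [abs_le] at p1 p2
  have hMpos : (1 : ℝ) ≤ M := by linarith
  have t1 : Chebyshev.theta (N : ℝ) ≤ Chebyshev.psi (N : ℝ) := Chebyshev.theta_le_psi _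
  have t2 := Chebyshev.psi_sub_theta_le hMpos
  have hX : (M : ℝ) ≤ (2 : ℝ) ^ (m + 1) := by
    rw [pow_succ, ← hNR]
    linarith
  have t3 : 2 * √(M : ℝ) * Real.log M ≤ 2 * √((2 : ℝ) ^ (m + 1)) * (((m : ℝ) + 1) * Real.log 2) := by
    have h4 : Real.log M ≤ ((m : ℝ) + 1) * Real.log 2 := by
      have h5 : Real.log ((2 : ℝ) ^ (m + 1)) = ((m : ℝ) + 1) * Real.log 2 := by
        rw [Real.log_pow]
        push_cast
        ring
      rw [← h5]
      exact Real.log_le_log (by linarith) hX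
    exact mul_le_mul (mul_le_mul_of_nonneg_left (Real.sqrt_le_sqrt hX) (by norm_num)) h4
      (Real.log_nonneg hMpos) (by positivity)
  have hl2 : 0 < Real.log 2 := Real.log_pos (by norm_num)
  have hl1 : Real.log 2 ≤ 1 := by
    have := Real.log_two_lt_d9
    linarith
  have t4 : 2 * √((2 : ℝ) ^ (m + 1)) * (((m : ℝ) + 1) * Real.log 2) ≤ 1 / 1000 * N := by
    rw [hNR]
    have h5 : 0 ≤ 2 * √((2 : ℝ) ^ (m + 1)) * ((m : ℝ) + 1) := by positivity
    nlinarith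
  have t5 := theta_sub N M hNM
  have t6 : ∑ p ∈ (Ioc N M).filter Nat.Prime, Real.log p ≤
      (((Ioc N M).filter Nat.Prime).card : ℝ) * (((m : ℝ) + 1) * Real.log 2) := by
    rw [← nsmul_eq_mul]
    refine sum_le_card_nsmul _ _ _ fun p hp => ?_
    rw [mem_filter, mem_Ioc] at hp
    have h5 : Real.log ((2 : ℝ) ^ (m + 1)) = ((m : ℝ) + 1) * Real.log 2 := by
      rw [Real.log_pow]
      push_cast
      ring
    rw [← h5]
    have h6 : (p : ℝ) ≤ M := by exact_mod_cast hp.1.2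
    have h7 : (0 : ℝ) < p := by exact_mod_cast hp.2.pos
    exact Real.log_le_log h7 (h6.trans hX)
  have hmR : (10 : ℝ) ≤ m := by exact_mod_cast h3
  have hC0 : (0 : ℝ) ≤ (((Ioc N M).filter Nat.Prime).card : ℝ) := Nat.cast_nonneg _
  have t7 : (((Ioc N M).filter Nat.Prime).card : ℝ) * (((m : ℝ) + 1) * Real.log 2) ≤
      (((Ioc N M).filter Nat.Prime).card : ℝ) * (2 * m) := by
    refine mul_le_mul_of_nonneg_left ?_ hC0
    nlinarith
  have t8 : 1 / 500 * (N : ℝ) ≤ (((Ioc N M).filter Nat.Prime).card : ℝ) * (2 * m) := by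
    linarith [p1.1, p1.2, p2.1, p2.2]
  have hfin : 1 / 1000 * 2 ^ m / m ≤ (((Ioc N M).filter Nat.Prime).card : ℝ) := by
    rw [← hNR, div_le_iff₀ (by linarith)]
    linarith
  rw [hM, hN] at hfin
  exact hfin

end Pool.Agent.H66.SG.VDY
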