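import Pool.Agent.H66.SG.T7
import Mathlib.NumberTheory.Chebyshev

/-!
ABSOLUTE GAP (`MP_c59857_nt`), row VPR: irrational frequencies, sums over primes.
-/

set_option autoImplicit false

open Filter Topology Finset
open Pool.Agent.H24.AG
open ArithmeticFunction (vonMangoldt)

namespace Pool.Agent.H66.SG.VPR

open Pool.Agent.H67.AG

/-- partial summation with a nonincreasing nonnegative weight -/
theorem abel_aux (a : ℕ → ℂ) (w : ℕ → ℝ) (N M : ℕ) (B : ℝ)
    (hw : ∀ n, N < n → w (n + 1) ≤ w n)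
    (h : ∀ Y, N ≤ Y → Y ≤ M → ‖∑ n ∈ Ioc N Y, a n‖ ≤ B) (k : ℕ) (hk : N + (k + 1) ≤ M) :
    ‖∑ n ∈ Ioc N (N + (k + 1)), (w n : ℂ) * a n -
      (w (N + (k + 1)) : ℂ) * ∑ n ∈ Ioc N (N + (k + 1)), a n‖ ≤
      B * (w (N + 1) - w (N + (k + 1))) := by
  induction k with
  | zero =>
    have h1 : Ioc N (N + (0 + 1)) = {N + 1} := by
      ext x
      simp only [mem_Ioc, mem_singleton]
      omega
    rw [h1, sum_singleton, sum_singleton]
    simp
  | succ k ih =>
    have h1 : Ioc N (N + (k + 1 + 1)) = insert (N + (k + 1 + 1)) (Ioc N (N + (k + 1))) := by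
      ext x
      simp only [mem_Ioc, mem_insert]
      omega
    have h2 : N + (k + 1 + 1) ∉ Ioc N (N + (k + 1)) := by
      simp
    rw [h1, sum_insert h2, sum_insert h2]
    have h3 := ih (by omega)
    have h4 := h (N + (k + 1)) (by omega) (by omega)
    have h5 := hw (N + (k + 1)) (by omega)
    have h6 : N + (k + 1 + 1) = N + (k + 1) + 1 := by omega
    rw [h6] at *
    set S := ∑ n ∈ Ioc N (N + (k + 1)), (w n : ℂ) * a n
    set T := ∑ n ∈ Ioc N (N + (k + 1)), a n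
    have h7 : (w (N + (k + 1) + 1) : ℂ) * a (N + (k + 1) + 1) + S -
        (w (N + (k + 1) + 1) : ℂ) * (a (N + (k + 1) + 1) + T) =
        (S - (w (N + (k + 1)) : ℂ) * T) +
          ((w (N + (k + 1)) - w (N + (k + 1) + 1) : ℝ) : ℂ) * T := by
      push_cast
      ring
    rw [h7]
    refine (norm_add_le _ _).trans ?_
    rw [norm_mul, Complex.norm_real, Real.norm_of_nonneg (sub_nonneg.2 h5)]
    have h8 : (w (N + (k + 1)) - w (N + (k + 1) + 1)) * ‖T‖ ≤
        (w (N + (k + 1)) - w (N + (k + 1) + 1)) * B :=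
      mul_le_mul_of_nonneg_left h4 (sub_nonneg.2 h5)
    nlinarith

theorem abel (a : ℕ → ℂ) (w : ℕ → ℝ) (N M : ℕ) (B : ℝ) (hNM : N < M)
    (hw : ∀ n, N < n → w (n + 1) ≤ w n) (hw0 : ∀ n, N < n → 0 ≤ w n)
    (h : ∀ Y, N ≤ Y → Y ≤ M → ‖∑ n ∈ Ioc N Y, a n‖ ≤ B) :
    ‖∑ n ∈ Ioc N M, (w n : ℂ) * a n‖ ≤ B * w (N + 1) := by
  obtain ⟨k, rfl⟩ : ∃ k, M = N + (k + 1) := ⟨M - N - 1, by omega⟩
  have h1 := abel_aux a w N _ B hw h k le_rfl
  have h2 := h (N + (k + 1)) (by omega) le_rfl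
  set S := ∑ n ∈ Ioc N (N + (k + 1)), (w n : ℂ) * a n
  set T := ∑ n ∈ Ioc N (N + (k + 1)), a n
  have h3 : S = (S - (w (N + (k + 1)) : ℂ) * T) + (w (N + (k + 1)) : ℂ) * T := by ring
  rw [h3]
  refine (norm_add_le _ _).trans ?_
  rw [norm_mul, Complex.norm_real, Real.norm_of_nonneg (hw0 _ (by omega))]
  have h4 : w (N + (k + 1)) * ‖T‖ ≤ w (N + (k + 1)) * B :=
    mul_le_mul_of_nonneg_left h2 (hw0 _ (by omega))
  nlinarith

theorem ev_pow {ε : ℝ} (hε : 0 < ε) : ∀ᶠ m : ℕ in atTop,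
    2 * √((2 : ℝ) ^ (m + 1)) * (m + 1) ≤ ε * 2 ^ m := by
  have h1 : (1 : ℝ) < √2 := by
    rw [show (1 : ℝ) = √1 by simp]
    exact Real.sqrt_lt_sqrt (by norm_num) (by norm_num)
  have h2 := (tendsto_pow_const_div_const_pow_of_one_lt 1 h1).comp (tendsto_add_atTop_nat 1)
  have h3 := h2.eventually (gt_mem_nhds (show (0 : ℝ) < ε / 4 by positivity))
  filter_upwards [h3] with m hm
  simp only [Function.comp_apply, pow_one] at hm
  have h4 : √((2 : ℝ) ^ (m + 1)) = √2 ^ (m + 1) := by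
    rw [Real.sqrt_eq_iff_mul_self_eq (by positivity) (by positivity), ← mul_pow,
      Real.mul_self_sqrt (by norm_num)]
  have h5 : √2 ^ (m + 1) * √2 ^ (m + 1) = (2 : ℝ) * 2 ^ m := by
    rw [← mul_pow, Real.mul_self_sqrt (by norm_num), pow_succ]
    ring
  have h6 : (0 : ℝ) < √2 ^ (m + 1) := by positivity
  rw [div_lt_iff₀ h6] at hm
  push_cast at hm
  rw [h4]
  nlinarith

theorem pf_VPR (h : T_VIR) : T_VPR := by
  intro θ hθ ε hε
  obtain ⟨X₀, hX₀⟩ := h θ hθ (ε / 12) (by positivity)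
  have hlim := ev_pow (show (0 : ℝ) < ε / 2 by positivity)
  obtain ⟨m₁, hm₁⟩ := eventually_atTop.1 hlim
  refine ⟨max (max m₁ X₀) 7, fun m hm => ?_⟩
  have hm1 : m₁ ≤ m := (le_max_left _ _).trans ((le_max_left _ _).trans hm)
  have hm2 : X₀ ≤ m := (le_max_right _ _).trans ((le_max_left _ _).trans hm)
  have hm7 : 7 ≤ m := (le_max_right _ _).trans hm
  have hm3 : 1 ≤ m := by omega
  have hmR : (1 : ℝ) ≤ m := by exact_mod_cast hm3
  have hl2 : (0.69 : ℝ) < Real.log 2 := by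
    have := Real.log_two_gt_d9
    linarith
  set N := 2 ^ m with hN
  have hNR : (N : ℝ) = 2 ^ m := by rw [hN]; push_cast; rfl
  have hX : X₀ ≤ 2 ^ (m + 1) := by
    refine hm2.trans (Nat.lt_two_pow_self.le.trans ?_)
    exact Nat.pow_le_pow_right (by norm_num) (Nat.le_succ m)
  have hN2 : 2 ^ (m + 1) = 2 * N := by rw [hN, pow_succ]; ring
  have hN0 : 0 < N := by positivity
  have hN100 : 100 ≤ N := by
    have h1 : 2 ^ 7 ≤ 2 ^ m := Nat.pow_le_pow_right (by norm_num) hm7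
    rw [hN]
    omega
  have hNM1 : N < 101 * N / 100 := by omega
  have hNM2 : 101 * N / 100 ≤ 2 ^ (m + 1) := by omega
  set a : ℕ → ℂ := fun n => ((vonMangoldt n : ℝ) : ℂ) * ee (θ * n) with ha
  set w : ℕ → ℝ := fun n => 1 / Real.log n with hw
  have hps : ∀ Y, Y ≤ 2 ^ (m + 1) → ‖∑ n ∈ Icc 1 Y, a n‖ ≤ ε / 12 * (2 ^ (m + 1) : ℕ) :=
    fun Y hY => hX₀ _ hX Y hY
  have hB : ∀ Y, N ≤ Y → Y ≤ 2 ^ (m + 1) → ‖∑ n ∈ Ioc N Y, a n‖ ≤ ε / 3 * 2 ^ m := by
    intro Y h1 h2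
    have h3 := hps Y h2
    have h4 := hps N (by omega)
    have h5 : ∑ n ∈ Ioc N Y, a n = ∑ n ∈ Icc 1 Y, a n - ∑ n ∈ Icc 1 N, a n := by
      have h6 : ∀ Z, Icc 1 Z = Ioc 0 Z := fun Z => by
        ext x
        simp only [mem_Icc, mem_Ioc]
        omega
      rw [h6, h6, ← sum_Ioc_consecutive a (Nat.zero_le N) h1]
      ring
    rw [h5]
    refine (norm_sub_le _ _).trans ?_
    have h7 : ((2 ^ (m + 1) : ℕ) : ℝ) = 2 * 2 ^ m := by push_cast; ring
    rw [h7] at h3 h4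
    linarith
  have hlog : ∀ n : ℕ, N < n → m * Real.log 2 ≤ Real.log n := by
    intro n hn
    rw [← Real.log_pow]
    apply Real.log_le_log (by positivity)
    rw [← hNR]
    exact_mod_cast hn.le
  have hml : 0 < m * Real.log 2 := by positivity
  have hwa : ∀ n : ℕ, N < n → w n ≤ 1 / (m * Real.log 2) := by
    intro n hn
    exact one_div_le_one_div_of_le hml (hlog n hn)
  have hw0 : ∀ n : ℕ, N < n → 0 ≤ w n := by
    intro n hn
    exact one_div_nonneg.2 (hml.le.trans (hlog n hn))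
  have hwm : ∀ n : ℕ, N < n → w (n + 1) ≤ w n := by
    intro n hn
    apply one_div_le_one_div_of_le (hml.trans_le (hlog n hn))
    apply Real.log_le_log (by exact_mod_cast hN0.trans hn)
    push_cast
    linarith
  have h1 := abel a w N (101 * N / 100) _ hNM1 hwm hw0 (fun Y h1 h2 => hB Y h1 (h2.trans hNM2))
  -- the prime powers
  have h2 : ∑ p ∈ (Ioc N (101 * N / 100)).filter Nat.Prime, ee (θ * p) =
      ∑ n ∈ Ioc N (101 * N / 100), (w n : ℂ) * a n -
        ∑ n ∈ (Ioc N (101 * N / 100)).filter (fun n => ¬ n.Prime), (w n : ℂ) * a n := by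
    rw [← sum_filter_add_sum_filter_not (Ioc N (101 * N / 100)) Nat.Prime (fun n => (w n : ℂ) * a n)]
    rw [add_sub_cancel_right]
    refine sum_congr rfl fun p hp => ?_
    rw [mem_filter, mem_Ioc] at hp
    have h3 : Real.log p ≠ 0 := (hml.trans_le (hlog p hp.1.1)).ne'
    simp only [ha, hw]
    rw [ArithmeticFunction.vonMangoldt_apply_prime hp.2, ← mul_assoc, ← Complex.ofReal_mul,
      one_div_mul_cancel h3, Complex.ofReal_one, one_mul]
  have h3 : ‖∑ n ∈ (Ioc N (101 * N / 100)).filter (fun n => ¬ n.Prime), (w n : ℂ) * a n‖ ≤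
      1 / (m * Real.log 2) * (2 * √((2 : ℝ) ^ (m + 1)) * ((m + 1) * Real.log 2)) := by
    refine (norm_sum_le _ _).trans ?_
    have h4 : ∀ n ∈ (Ioc N (101 * N / 100)).filter (fun n => ¬ n.Prime), ‖(w n : ℂ) * a n‖ ≤
        1 / (m * Real.log 2) * vonMangoldt n := by
      intro n hn
      rw [mem_filter, mem_Ioc] at hn
      have h5 : ‖ee (θ * n)‖ = 1 := by
        unfold ee
        rw [Complex.norm_exp]
        simp
      simp only [ha]
      rw [norm_mul, norm_mul, h5, mul_one, Complex.norm_real, Complex.norm_real,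
        Real.norm_of_nonneg (hw0 n hn.1.1),
        Real.norm_of_nonneg ArithmeticFunction.vonMangoldt_nonneg]
      exact mul_le_mul_of_nonneg_right (hwa n hn.1.1) ArithmeticFunction.vonMangoldt_nonneg
    refine (sum_le_sum h4).trans ?_
    rw [← mul_sum]
    apply mul_le_mul_of_nonneg_left _ (by positivity)
    have h6 := Chebyshev.psi_sub_theta_le (x := (2 : ℝ) ^ (m + 1)) (one_le_pow₀ (by norm_num))
    rw [Chebyshev.psi_sub_theta_eq_sum_not_prime] at h6
    have h7 : ⌊(2 : ℝ) ^ (m + 1)⌋₊ = 2 ^ (m + 1) := by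
      have : ((2 : ℝ) ^ (m + 1)) = ((2 ^ (m + 1) : ℕ) : ℝ) := by push_cast; rfl
      rw [this, Nat.floor_natCast]
    rw [h7, Real.log_pow] at h6
    push_cast at h6
    refine le_trans ?_ h6
    apply sum_le_sum_of_subset_of_nonneg
    · intro n hn
      rw [mem_filter, mem_Ioc] at hn ⊢
      exact ⟨⟨by omega, hn.1.2.trans hNM2⟩, hn.2⟩
    · intro n _ _
      exact ArithmeticFunction.vonMangoldt_nonneg
  rw [h2]
  refine (norm_sub_le _ _).trans ?_
  have h8 := hwa (N + 1) (Nat.lt_succ_self N)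
  have h9 : ε / 3 * 2 ^ m * w (N + 1) ≤ ε / 3 * 2 ^ m * (1 / (m * Real.log 2)) :=
    mul_le_mul_of_nonneg_left h8 (by positivity)
  have h10 := hm₁ m hm1
  have hm0 : (0 : ℝ) < m := by linarith
  have h11 : ε / 3 * 2 ^ m * (1 / (m * Real.log 2)) ≤ ε / 2 * 2 ^ m / m := by
    rw [mul_one_div, div_le_div_iff₀ hml hm0]
    have : ε / 3 * 2 ^ m * m ≤ ε / 2 * 2 ^ m * (m * Real.log 2) := by
      have h12 : 0 < ε * 2 ^ m * m := by positivity
      nlinarith
    exact this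
  have h12 : 1 / (m * Real.log 2) * (2 * √((2 : ℝ) ^ (m + 1)) * ((m + 1) * Real.log 2)) ≤
      ε / 2 * 2 ^ m / m := by
    have h13 : 1 / (m * Real.log 2) * (2 * √((2 : ℝ) ^ (m + 1)) * ((m + 1) * Real.log 2)) =
        (2 * √((2 : ℝ) ^ (m + 1)) * (m + 1)) / m := by
      have : Real.log 2 ≠ 0 := by positivity
      field_simp
    rw [h13]
    exact div_le_div_of_nonneg_right h10 hm0.le
  have h14 : ε * 2 ^ m / m = ε / 2 * 2 ^ m / m + ε / 2 * 2 ^ m / m := by ring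
  rw [h14]
  linarith

end Pool.Agent.H66.SG.VPR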