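import Pool.Agent.H67.AG.AllF
import Pool.Agent.H80.AG.All9
import Pool.Agent.H55.LF.PNT
import Pool.Agent.H35.LF.DIV
import Pool.Agent.H59.LF.MU1
import Pool.Agent.H66.SG.ER
import Pool.Agent.H66.SG.ERC
import Pool.Agent.H66.SG.VEC
import Pool.Agent.H66.SG.VDY
import Pool.Agent.H66.SG.VCT
import Pool.Agent.H66.SG.PN
import Pool.Agent.H66.SG.K1
import Pool.Agent.H66.SG.VVQ
import Pool.Agent.H66.SG.VPR
import Pool.Agent.H66.SG.VVI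
import Pool.Agent.H66.SG.V
import Pool.Agent.H66.SG.AVP
import Pool.Agent.H66.SG.PI
import Pool.Agent.H66.SG.VCU
import Pool.Agent.H66.SG.P3
import Pool.Agent.H66.SG.A0
import Pool.Agent.H66.SG.A1
import Pool.Agent.H66.SG.LE
import Pool.Agent.H66.SG.A2
import Pool.Agent.H66.SG.A3
import Pool.Agent.H66.SG.CA
import Pool.Agent.H66.SG.CLM
import Pool.Agent.H66.SG.CHW
import Pool.Agent.H66.SG.CHL
import Pool.Agent.H66.SG.CHR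
import Pool.Agent.H66.SG.DW
import Pool.Agent.H66.SG.DR
import Pool.Agent.H66.SG.DRM
import Pool.Agent.H66.SG.S2
import Pool.Agent.H66.SG.S4
import Pool.Agent.H66.SG.S5
import Pool.Agent.H66.SG.S1
import Pool.Agent.H66.SG.LMD
import Pool.Agent.H66.SG.LMF
import Pool.Agent.H66.SG.FIN
import Pool.Agent.H66.SG.CB2
import Pool.Agent.H66.SG.END
import Pool.Agent.H66.SG.CB
import Pool.Agent.H66.SG.ERG
import Pool.Agent.H66.SG.EN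
import Pool.Agent.H66.SG.ENS
import Pool.Agent.H66.SG.ARR
import Pool.Agent.H66.SG.SYS
import Pool.Agent.H66.SG.ER1
import Pool.Agent.H66.SG.ER2
import Pool.Agent.H66.SG.CTX
import Pool.Agent.H66.SG.FRT

/-!
SHARP GAP (`MP_c59857_nt`): assembly, everything except the descent.
-/

set_option autoImplicit false

namespace Pool.Agent.H66.SG.AllA

open Pool.Agent.H67.AG.AllF

theorem s_ER : T_ER := Pool.Agent.H66.SG.ER.pf_ER c_UL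

theorem s_ERC : T_ERC := Pool.Agent.H66.SG.ERC.pf_ERC s_ER

theorem s_VEC : T_VEC := Pool.Agent.H66.SG.VEC.pf_VEC c_VPSI c_VCS

theorem s_VDY : T_VDY := Pool.Agent.H66.SG.VDY.pf_VDY (Pool.Agent.H55.LF.pf_PNT Pool.Agent.H35.LF.pf_DIV Pool.Agent.H59.LF.pf_MU1)

theorem s_VCT : T_VCT := Pool.Agent.H66.SG.VCT.pf_VCT s_VEC s_VDY

theorem s_PN : T_PN := Pool.Agent.H66.SG.PN.pf_PN s_VCT

theorem s_K1 : T_K1 := Pool.Agent.H66.SG.K1.pf_K1 c_UL s_PN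

theorem s_VVQ : T_VVQ := Pool.Agent.H66.SG.VVQ.pf_VVQ c_VRA s_VEC s_VCT

theorem s_VPR : T_VPR := Pool.Agent.H66.SG.VPR.pf_VPR c_VIR

theorem s_VVI : T_VVI := Pool.Agent.H66.SG.VVI.pf_VVI s_VPR s_VCT

theorem s_V : T_V := Pool.Agent.H66.SG.V.pf_V s_VVQ s_VVI

theorem s_AVP : T_AVP := Pool.Agent.H66.SG.AVP.pf_AVP s_V c_HER s_PN

theorem s_PI : T_PI := Pool.Agent.H66.SG.PI.pf_PI s_AVP s_PN

theorem s_VCU : T_VCU := Pool.Agent.H66.SG.VCU.pf_VCU s_VCT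

theorem s_P3 : T_P3 := Pool.Agent.H66.SG.P3.pf_P3 c_VVD s_VCU c_VAV

theorem s_A0 : T_A0 := Pool.Agent.H66.SG.A0.pf_A0 c_UL s_PN s_P3

theorem s_A1 : T_A1 := Pool.Agent.H66.SG.A1.pf_A1 c_UL s_PN s_PI s_A0

theorem s_LE : T_LE := Pool.Agent.H66.SG.LE.pf_LE c_DU

theorem s_A2 : T_A2 := Pool.Agent.H66.SG.A2.pf_A2 s_A1 s_LE c_RA c_LV

theorem s_A3 : T_A3 := Pool.Agent.H66.SG.A3.pf_A3 

theorem s_CA : T_CA := Pool.Agent.H66.SG.CA.pf_CA s_A2 s_A3 c_J1 c_J2 c_J3 c_J4 c_NXI c_TW c_NR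

theorem s_CLM : T_CLM := Pool.Agent.H66.SG.CLM.pf_CLM c_CK c_J1 c_J2

theorem s_CHW : T_CHW := Pool.Agent.H66.SG.CHW.pf_CHW c_UL c_LV c_RS s_LE c_J2 c_J3

theorem s_CHL : T_CHL := Pool.Agent.H66.SG.CHL.pf_CHL c_ME c_J2 c_J3

theorem s_CHR : T_CHR := Pool.Agent.H66.SG.CHR.pf_CHR c_AP c_NXI c_QM

theorem s_DW : T_DW := Pool.Agent.H66.SG.DW.pf_DW c_UL s_PI

theorem s_DR : T_DR := Pool.Agent.H66.SG.DR.pf_DR s_DW s_LE c_RA c_LV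

theorem s_DRM : T_DRM := Pool.Agent.H66.SG.DRM.pf_DRM s_DR c_TRI c_J2 c_J3

theorem s_S2 : T_S2 := Pool.Agent.H66.SG.S2.pf_S2 c_UL s_PN

theorem s_S4 : T_S4 := Pool.Agent.H66.SG.S4.pf_S4 

theorem s_S5 : T_S5 := Pool.Agent.H66.SG.S5.pf_S5 c_ME

theorem s_S1 : T_S1 := Pool.Agent.H66.SG.S1.pf_S1 c_UL

theorem s_LMD : T_LMD := Pool.Agent.H66.SG.LMD.pf_LMD c_UL s_PN

theorem s_LMF : T_LMF := Pool.Agent.H66.SG.LMF.pf_LMF c_UL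

theorem s_FIN : T_FIN := Pool.Agent.H66.SG.FIN.pf_FIN c_TRI c_MC c_J2 c_J3 s_DRM

theorem s_CB2 : T_CB2 := Pool.Agent.H66.SG.CB2.pf_CB2 c_NXI s_FIN c_MEM c_PXL c_QQA c_QQT

theorem s_END : T_END := Pool.Agent.H66.SG.END.pf_END s_DR c_TRI c_MN c_JT c_CL c_PM c_PE c_AI c_RS c_DU c_J2 c_J3

theorem s_EN : T_EN := Pool.Agent.H66.SG.EN.pf_EN

theorem s_ENS : T_ENS := Pool.Agent.H66.SG.ENS.pf_ENS s_EN s_PN

theorem s_ARR : T_ARR := Pool.Agent.H66.SG.ARR.pf_ARR Pool.Agent.H80.AG.all_MMX s_ENS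

theorem s_SYS : T_SYS := Pool.Agent.H66.SG.SYS.pf_SYS s_ARR Pool.Agent.H80.AG.all_UNI
  Pool.Agent.H61.AG.pf_PTO

theorem s_ER1 : T_ER1 := Pool.Agent.H66.SG.ER1.pf_ER1 Pool.Agent.H50.AG.pf_MRC

/-- the theorem from the descent -/
theorem almost (h : T_CB) : AbsGapAt (1 / 9) :=
  fin9 s_SYS s_ER1 Pool.Agent.H66.SG.ER2.pf_ER2 Pool.Agent.H66.SG.CTX.pf_CTX
    Pool.Agent.H66.SG.FRT.pf_FRT
    (fun c => (Pool.Agent.H66.SG.ERG.pf_ERG s_ERC s_K1 s_CA h s_END c_TW).false c)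

end Pool.Agent.H66.SG.AllA
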