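import Pool.Agent.H67.AG.T7
import Pool.Agent.H24.AG.Targets

/-!
SHARP GAP (`MP_c59857_nt`): definitions. The proof is that of `H67_gap.md`, with primes in the
intervals `(2 ^ m, 1.01 * 2 ^ m]` and with the constants `0.0565` (relation), `0.05655` (good
points) and `0.13` (dichotomy).
-/

set_option autoImplicit false

open MeasureTheory ProbabilityTheory Filter Topology Finset
open scoped Nat ENNReal

namespace Pool.Agent.H66.SG

open Pool.Agent.H24.T2 (Pset)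
open Pool.Agent.H67.AG (ul Inv Rt Av SA kap JJ TT InvZ nxt triv tow Fac Tup dl Dlt Mis)

/-! ### averages over primes in short intervals -/

/-- primes `≡ 1 (mod W)` in `(2 ^ m, 1.01 * 2 ^ m]` -/
def Ps (W m : ℕ) : Finset ℕ :=
  (Finset.Ioc (2 ^ m) (101 * 2 ^ m / 100)).filter (fun p => p.Prime ∧ p ≡ 1 [MOD W])

theorem mem_Ps {W m p : ℕ} : p ∈ Ps W m ↔
    (2 ^ m < p ∧ p ≤ 101 * 2 ^ m / 100) ∧ p.Prime ∧ p ≡ 1 [MOD W] := by
  unfold Ps
  rw [Finset.mem_filter, Finset.mem_Ioc]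

theorem Ps_le {W m p : ℕ} (hp : p ∈ Ps W m) : (p : ℝ) ≤ 101 / 100 * 2 ^ m := by
  have h1 := (mem_Ps.1 hp).1.2
  have h2 : 100 * p ≤ 101 * 2 ^ m := by omega
  have h3 : (100 : ℝ) * p ≤ 101 * 2 ^ m := by exact_mod_cast h2
  linarith

theorem Ps_sub (W m : ℕ) : Ps W m ⊆ Pset W m := by
  intro p hp
  obtain ⟨⟨h1, h2⟩, h3⟩ := mem_Ps.1 hp
  unfold Pset
  rw [Finset.mem_filter, Finset.mem_Ioc]
  refine ⟨⟨h1, ?_⟩, h3⟩
  have h4 : 2 ^ (m + 1) = 2 * 2 ^ m := by rw [pow_succ, mul_comm]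
  omega

/-- average over the primes `≡ 1 (mod W)` in `(2 ^ m, 1.01 * 2 ^ m]` -/
noncomputable def avgP (W m : ℕ) (F : ℕ → ℝ) : ℝ := (∑ p ∈ Ps W m, F p) / ((Ps W m).card : ℝ)

section tup

variable {Ω : Type} [mΩ : MeasurableSpace Ω] {k : ℕ}

/-- the relation of the tuple `y` for the prime `p` fails -/
def bd (T : Ω ≃ᵐ Ω) (β : Fin k → ℕ) (σ : ℝ) (y : Fin k → Ω → ℝ) (p : ℕ) : Set Ω :=
  {ω | ∏ i, y i (T^[(p - 1) * β i] ω) ≠ σ}

/-- the asymptotic error of the relation on the set `A` -/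
noncomputable def Lam (U : Ultrafilter ℕ) (W : ℕ) (P : Measure Ω) (T : Ω ≃ᵐ Ω) (β : Fin k → ℕ)
    (σ : ℝ) (y : Fin k → Ω → ℝ) (A : Set Ω) : ℝ :=
  ul U fun m => avgP W m fun p => P.real (A ∩ bd T β σ y p)

end tup

/-! ### the data -/

/-- the constant of the relation -/
noncomputable def κ₁ : ℝ := 113 / 2000

/-- the threshold for good points -/
noncomputable def κ₂ : ℝ := 1131 / 20000

/-- the threshold of the dichotomy -/
noncomputable def m₁ : ℝ := 13 / 100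

/-- the data for the contradiction -/
structure Ctx where
  X : Type
  [mX : MeasurableSpace X]
  [sX : StandardBorelSpace X]
  μ : Measure X
  [pμ : IsProbabilityMeasure μ]
  T : X ≃ᵐ X
  erg : Ergodic T μ
  D : X → ℝ
  Dm : Measurable D
  Dv : ∀ x, D x = 1 ∨ D x = -1
  mr : ∀ W, 0 < W → μ[D | Inv T W] =ᵐ[μ] 0
  k : ℕ
  kpos : 0 < k
  Q : ℕ
  Qpos : 0 < Q
  Qev : Even Q
  β : Fin k → ℕ
  inj : Function.Injective β
  σ : ℝ
  σv : σ = 1 ∨ σ = -1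
  Y : Set X
  Ym : MeasurableSet Y
  Yinv : T^[Q] ⁻¹' Y = Y
  Ypos : 0 < μ.real Y
  V : Ultrafilter ℕ
  hV : (V : Filter ℕ) ≤ atTop
  U : ℕ → Ultrafilter ℕ
  hU : ∀ w, (U w : Filter ℕ) ≤ atTop
  rel : ∀ᶠ w in (V : Filter ℕ), ul (U w) (fun m => avgP (Q * w !) m fun p =>
    μ.real (Y ∩ {x | ∏ i, D (T^[p * β i] x) ≠ σ})) ≤ κ₁ * μ.real Y

namespace Ctx

variable (c : Ctx)

instance : MeasurableSpace c.X := c.mX
instance : StandardBorelSpace c.X := c.sX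
instance : IsProbabilityMeasure c.μ := c.pμ

/-- the modulus -/
def W (w : ℕ) : ℕ := c.Q * w !

/-- the tuple of a point -/
def Dt (i : Fin c.k) (x : c.X) : ℝ := c.D (c.T^[c.β i] x)

/-- the tuple of the first point of a pair -/
def D1 (i : Fin c.k) (q : c.X × c.X) : ℝ := c.Dt i q.1

/-- the tuple of the second point of a pair -/
def D2 (i : Fin c.k) (q : c.X × c.X) : ℝ := c.Dt i q.2

end Ctx

/-- the data with the density of the errors -/
structure CtxE extends Ctx where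
  e : X → ℝ
  em : Measurable[Rt T] e
  e0 : ∀ x, 0 ≤ e x ∧ e x ≤ 1
  eint : ∫ x in Y, e x ∂μ ≤ κ₁ * μ.real Y
  elim : ∀ ψ : X → ℝ, Measurable[Rt T] ψ → (∀ x, |ψ x| ≤ 1) →
    Tendsto (fun w => ul (U w) fun m => avgP (Q * w !) m fun p =>
      ∫ x in Y ∩ bd T β σ (fun i x => D (T^[β i] x)) p, ψ x ∂μ) (V : Filter ℕ)
      (𝓝 (∫ x in Y, ψ x * e x ∂μ))

namespace CtxE

variable (c : CtxE)

/-- the good points -/
def Xg : Set c.X := {x | x ∈ c.Y ∧ c.e x ≤ κ₂}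

/-- closeness has positive mass in the relatively independent self-joining over `Z` -/
def CP (Z : SA c.X) : Prop :=
  0 < (JJ c.μ Z).real {q | q.1 ∈ c.Xg ∧ q.2 ∈ c.Xg ∧
    Mis (JJ c.μ Z) (Rt (TT c.T)) c.D1 c.D2 q ≤ 1 / 2}

end CtxE

end Pool.Agent.H66.SG
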