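import Pool.Agent.H66.SG.T9
import Pool.Agent.H18.T2.EN2

/-!
SHARP GAP (`MP_c59857_nt`), row EN: entropy decrement with the constant `1 + τ`.
-/

set_option autoImplicit false

namespace Pool.Agent.H66.SG.EN

open Finset Filter
open Pool.Agent.H24.MR Pool.Agent.H59.MR Pool.Agent.H18.MR
open Pool.Agent.H24.T2 (rel)
open Pool.Agent.H18.T2 (nn nn_add nn_pos W W_nonneg log_block dense_block weighted_sum_le
  exists_start sum_blocks)

/-- Donsker–Varadhan for an event, with a parameter. -/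
theorem dv_event_t {Ω : Type*} (μ : FAP Ω) {α β : Type*} [Fintype α] [DecidableEq α] [Fintype β]
    [DecidableEq β] (s : ℝ)
    (X : Ω → α) (Y : Ω → β) (B : α → β → Prop) [∀ a b, Decidable (B a b)] :
    (1 - Real.exp (-s)) * (∑ a, ∑ b, law μ X a * law μ Y b * (if B a b then 1 else 0)) ≤
      mi μ X Y + s * ∑ a, ∑ b, law μ (fun ω => (X ω, Y ω)) (a, b) * (if B a b then 1 else 0) := by
  set T : Ω → α × β := fun ω => (X ω, Y ω) with hT
  set p : α × β → ℝ := law μ T with hp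
  set px : α → ℝ := law μ X with hpx
  set py : β → ℝ := law μ Y with hpy
  have e1 : ∀ t, p t ≤ px t.1 := fun t => law_le_comp μ T Prod.fst t
  have e2 : ∀ t, p t ≤ py t.2 := fun t => law_le_comp μ T Prod.snd t
  have p0 : ∀ t, 0 ≤ p t := law_nonneg μ T
  set f : α × β → ℝ := fun t => if B t.1 t.2 then 1 else 0 with hf
  have g := gibbs Finset.univ p (fun t => px t.1 * py t.2 * Real.exp (-(s * f t))) p0
    (fun t => mul_nonneg (mul_nonneg (law_nonneg μ _ _) (law_nonneg μ _ _)) (Real.exp_pos _).le)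
    (fun t ht => by
      by_contra hne
      have hpos : 0 < p t := lt_of_le_of_ne (p0 t) (Ne.symm hne)
      have h1 : 0 < px t.1 := hpos.trans_le (e1 t)
      have h2 : 0 < py t.2 := hpos.trans_le (e2 t)
      have : 0 < px t.1 * py t.2 * Real.exp (-(s * f t)) := by positivity
      linarith)
  have hps : ∑ t, p t = 1 := law_sum μ T
  have hlog : ∀ t, p t * Real.log (px t.1 * py t.2 * Real.exp (-(s * f t))) =
      p t * Real.log (px t.1) + p t * Real.log (py t.2) - s * (p t * f t) := by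
    intro t
    rcases eq_or_lt_of_le (p0 t) with h0 | h0
    · rw [← h0]; ring
    · have h1 : 0 < px t.1 := h0.trans_le (e1 t)
      have h2 : 0 < py t.2 := h0.trans_le (e2 t)
      rw [Real.log_mul (mul_pos h1 h2).ne' (Real.exp_pos _).ne', Real.log_mul h1.ne' h2.ne',
        Real.log_exp]
      ring
  have hexp : ∀ t, px t.1 * py t.2 * Real.exp (-(s * f t)) =
      px t.1 * py t.2 - (1 - Real.exp (-s)) * (px t.1 * py t.2 * f t) := by
    intro t
    simp only [hf]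
    split_ifs
    · rw [mul_one]
      ring
    · simp
  have htot : ∑ t : α × β, px t.1 * py t.2 = 1 := by
    rw [Fintype.sum_prod_type]
    simp only
    rw [← Finset.sum_mul_sum, law_sum, law_sum, one_mul]
  rw [Finset.sum_congr rfl (fun t _ => hlog t), Finset.sum_sub_distrib, Finset.sum_add_distrib,
    Finset.sum_congr rfl (fun t _ => hexp t), Finset.sum_sub_distrib, ← Finset.mul_sum,
    ← Finset.mul_sum, htot] at g
  have s1 := sum_law_comp μ T Prod.fst (fun u => Real.log (px u))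
  have s2 := sum_law_comp μ T Prod.snd (fun u => Real.log (py u))
  rw [← hp] at s1 s2
  rw [s1, s2, hps] at g
  have t1 : ∑ a, ∑ b, px a * py b * (if B a b then 1 else 0) =
      ∑ t : α × β, px t.1 * py t.2 * f t := by
    rw [Fintype.sum_prod_type]
  have t2 : ∑ a, ∑ b, p (a, b) * (if B a b then 1 else 0) = ∑ t : α × β, p t * f t := by
    rw [Fintype.sum_prod_type]
  rw [t1, t2]
  have u1 : ent μ T = -∑ t, p t * Real.log (p t) := rfl
  have u2 : ent μ X = -∑ t, px t * Real.log (px t) := rfl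
  have u3 : ent μ Y = -∑ t, py t * Real.log (py t) := rfl
  have u4 : mi μ X Y = ent μ X + ent μ Y - ent μ T := rfl
  rw [u4, u1, u2, u3]
  linarith

theorem prime_rel_t {ν : Set ℕ → ℝ} (hν : FinAddInv ν) {Q u0 : ℕ} (hQ : 0 < Q) (t : ℝ) (a : ℕ → ℝ) (ha : ∀ n, a n = 1 ∨ a n = -1) (s : ℝ) {k : ℕ} (β : Fin k → ℕ)
    (K' n p : ℕ) (hβ : ∀ i, β i ≤ K') [NeZero p]
    (hp : Nat.Coprime Q p) (hn : p * (Q + K') ≤ Q * n) :
    (1 - Real.exp (-t)) * (condP ν hν Q u0 hQ).P {y | rel β a p y ≠ s} ≤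
      miN (condP ν hν Q u0 hQ) (blk a Q n) p +
        t * (p * (Q * ν {y | y ≡ u0 [MOD Q] ∧ p ∣ y ∧ rel β a p y ≠ s})) := by
  classical
  set μ := condP ν hν Q u0 hQ with hμ
  have hp0 : 0 < p := Nat.pos_of_ne_zero (NeZero.ne p)
  set B : (Fin (Q * n) → Bool) → ZMod p → Prop := fun x r =>
    ∏ i, sg (extb x (Q * kk Q p r + p * β i)) ≠ s with hB
  have hlt : ∀ (r : ZMod p) (i : Fin k), Q * kk Q p r + p * β i < Q * n := by
    intro r i
    have h1 : kk Q p r < p := ZMod.val_lt _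
    have h2 : kk Q p r + 1 ≤ p := h1
    have h3 : Q * (kk Q p r + 1) ≤ Q * p := Nat.mul_le_mul_left _ h2
    have h4 : p * β i ≤ p * K' := Nat.mul_le_mul_left _ (hβ i)
    nlinarith
  have hBiff : ∀ (y : ℕ) (r : ZMod p), B (blk a Q n y) r ↔
      y + Q * kk Q p r ∈ {y | rel β a p y ≠ s} := by
    intro y r
    simp only [hB, Set.mem_ofPred_eq, rel]
    have : ∀ i, sg (extb (blk a Q n y) (Q * kk Q p r + p * β i)) =
        a (y + Q * kk Q p r + p * β i) := by
      intro i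
      rw [sg_extb_blk ha y _ (hlt r i), Nat.add_assoc]
    rw [Finset.prod_congr rfl (fun i _ => this i)]
  have dv := dv_event_t μ t (blk a Q n) (fun y : ℕ => (y : ZMod p)) B
  -- the product side
  have hprod : ∑ x, ∑ r, law μ (blk a Q n) x * law μ (fun y : ℕ => (y : ZMod p)) r *
      (if B x r then 1 else 0) = μ.P {y | rel β a p y ≠ s} := by
    rw [Finset.sum_comm]
    have : ∀ r : ZMod p, ∑ x, law μ (blk a Q n) x * law μ (fun y : ℕ => (y : ZMod p)) r *
        (if B x r then 1 else 0) = 1 / p * μ.P {y | rel β a p y ≠ s} := by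
      intro r
      have e : ∀ x, law μ (blk a Q n) x * law μ (fun y : ℕ => (y : ZMod p)) r *
        (if B x r then 1 else 0) = 1 / p * (law μ (blk a Q n) x * (if B x r then 1 else 0)) := by
        intro x
        rw [law_zmod hν hQ p hp r]
        ring
      rw [Finset.sum_congr rfl (fun x _ => e x), ← Finset.mul_sum, sum_law_ind]
      congr 1
      have : {y | B (blk a Q n y) r} =
          {y | y + Q * kk Q p r ∈ {y | rel β a p y ≠ s}} := by
        ext y; exact hBiff y r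
      rw [this]
      exact condP_shift hν hQ _ _
    rw [Finset.sum_congr rfl (fun r _ => this r)]
    simp only [Finset.sum_const, Finset.card_univ, ZMod.card, nsmul_eq_mul]
    have : (p : ℝ) ≠ 0 := by positivity
    field_simp
  -- the joint side
  have hjoint : ∑ x, ∑ r, law μ (fun y => (blk a Q n y, ((y : ℕ) : ZMod p))) (x, r) *
      (if B x r then 1 else 0) = p * (Q * ν {y | y ≡ u0 [MOD Q] ∧ p ∣ y ∧ rel β a p y ≠ s}) := by
    rw [Finset.sum_comm]
    have : ∀ r : ZMod p, ∑ x, law μ (fun y => (blk a Q n y, ((y : ℕ) : ZMod p))) (x, r) *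
      (if B x r then 1 else 0) = Q * ν {y | y ≡ u0 [MOD Q] ∧ p ∣ y ∧ rel β a p y ≠ s} := by
      intro r
      have h := sum_law_joint μ (blk a Q n) (fun y : ℕ => (y : ZMod p)) r (fun x => B x r)
      rw [h]
      have : {y : ℕ | B (blk a Q n y) r ∧ ((y : ℕ) : ZMod p) = r} =
          {y | y + Q * kk Q p r ∈ {y | p ∣ y ∧ rel β a p y ≠ s}} := by
        ext y
        simp only [Set.mem_ofPred_eq]
        rw [hBiff, dvd_add_kk hp]
        simp only [Set.mem_ofPred_eq]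
        tauto
      rw [this, hμ, condP_shift hν hQ, condP_apply]
      rfl
    rw [Finset.sum_congr rfl (fun r _ => this r)]
    simp only [Finset.sum_const, Finset.card_univ, ZMod.card, nsmul_eq_mul]
  rw [hprod, hjoint] at dv
  rw [miN_eq]
  exact dv

theorem dec_of_mi {ν : Set ℕ → ℝ} (hν : FinAddInv ν) (a : ℕ → ℝ)
    (ha : ∀ n, a n = 1 ∨ a n = -1) {Q : ℕ} (hQ : 0 < Q) (u0 : ℕ) {k : ℕ} (β : Fin k → ℕ) (K : ℕ)
    (hβ : ∀ i, β i ≤ K) (τ θ : ℝ) (hτ : 0 < τ) (hτ1 : τ ≤ 1) (hθ : 0 < θ)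
    (m : ℕ)
    (hI : miN (condP ν hν Q u0 hQ) (blk a Q (nn Q K m)) (∏ p ∈ Pset Q m, p) ≤
      τ * θ ^ 2 / 2 * (Pset Q m).card) :
    Dec β ν a Q u0 τ θ m := by
  classical
  set μ := condP ν hν Q u0 hQ with hμ
  have hQ0 : (0:ℝ) < Q := by exact_mod_cast hQ
  refine ⟨(Pset Q m).filter (fun p => ¬ miN μ (blk a Q (nn Q K m)) p ≤ τ * θ / 2), ?_, ?_⟩
  · have h1 := sum_miN_le hν hQ (u0 := u0) (blk a Q (nn Q K m)) (Pset Q m)
      (fun p hp => (mem_Pset.1 hp).2.1) (fun p hp => coprime_of_mod_one (mem_Pset.1 hp).2.2)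
    rw [← hμ] at h1
    have h2 := h1.trans hI
    have h3 : ∑ p ∈ (Pset Q m).filter (fun p => ¬ miN μ (blk a Q (nn Q K m)) p ≤ τ * θ / 2),
        τ * θ / 2 ≤ ∑ p ∈ Pset Q m, miN μ (blk a Q (nn Q K m)) p := by
      calc _ ≤ ∑ p ∈ (Pset Q m).filter (fun p => ¬ miN μ (blk a Q (nn Q K m)) p ≤ τ * θ / 2),
            miN μ (blk a Q (nn Q K m)) p := by
            apply Finset.sum_le_sum
            intro p hp
            exact (not_le.1 (Finset.mem_filter.1 hp).2).le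
        _ ≤ _ := Finset.sum_le_sum_of_subset_of_nonneg (Finset.filter_subset _ _)
            (fun p _ _ => miN_nonneg μ _ p)
    rw [Finset.sum_const, nsmul_eq_mul] at h3
    have h7 := h3.trans h2
    have h8 : τ * θ / 2 * (((Pset Q m).filter
        (fun p => ¬ miN μ (blk a Q (nn Q K m)) p ≤ τ * θ / 2)).card : ℝ) ≤
        τ * θ / 2 * (θ * (Pset Q m).card) := by
      calc _ = (((Pset Q m).filter
            (fun p => ¬ miN μ (blk a Q (nn Q K m)) p ≤ τ * θ / 2)).card : ℝ) * (τ * θ / 2) := mul_comm _ _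
        _ ≤ _ := h7
        _ = _ := by ring
    exact le_of_mul_le_mul_left h8 (by positivity)
  · intro p hp hpX σ
    have hp' : p ∈ Pset Q m := hp
    have hp1 := mem_Pset.1 hp'
    have hp2 : miN μ (blk a Q (nn Q K m)) p ≤ τ * θ / 2 := by
      by_contra hcon
      exact hpX (Finset.mem_filter.2 ⟨hp', hcon⟩)
    have : NeZero p := ⟨hp1.2.1.ne_zero⟩
    have hlen : p * (Q + K) ≤ Q * nn Q K m := by
      simp only [nn]
      calc p * (Q + K) ≤ 2 ^ (m + 1) * (Q + K) := Nat.mul_le_mul_right _ hp1.1.2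
        _ = 1 * ((Q + K) * 2 ^ (m + 1)) := by ring
        _ ≤ Q * ((Q + K) * 2 ^ (m + 1)) := Nat.mul_le_mul_right _ hQ
    have h := prime_rel_t hν hQ (u0 := u0) τ a ha σ β K (nn Q K m) p hβ
      (coprime_of_mod_one hp1.2.2) hlen
    rw [← hμ, hμ, condP_apply] at h
    simp only [Set.mem_ofPred_eq] at h
    rw [← hμ] at h
    have he : τ / (1 + τ) ≤ 1 - Real.exp (-τ) := by
      have h1 : Real.exp (-τ) ≤ 1 / (1 + τ) := by
        rw [Real.exp_neg, ← one_div]
        apply one_div_le_one_div_of_le (by linarith)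
        have := Real.add_one_le_exp τ
        linarith
      have h2 : τ / (1 + τ) = 1 - 1 / (1 + τ) := by
        have : (1 + τ) ≠ 0 := by positivity
        field_simp
        ring
      linarith
    have hd := hν.nonneg {y | y ≡ u0 [MOD Q] ∧ rel β a p y ≠ σ}
    have hd2 := hν.nonneg {y | y ≡ u0 [MOD Q] ∧ p ∣ y ∧ rel β a p y ≠ σ}
    have hp0 : (0:ℝ) ≤ p := Nat.cast_nonneg p
    have h1 : τ / (1 + τ) * (Q * ν {y | y ≡ u0 [MOD Q] ∧ rel β a p y ≠ σ}) ≤
        τ * θ / 2 + τ * (p * (Q * ν {y | y ≡ u0 [MOD Q] ∧ p ∣ y ∧ rel β a p y ≠ σ})) := by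
      calc _ ≤ (1 - Real.exp (-τ)) *
            (Q * ν {y | y ≡ u0 [MOD Q] ∧ rel β a p y ≠ σ}) := by
            gcongr
        _ ≤ _ := h
        _ ≤ _ := by linarith
    have h2 : Q * ν {y | y ≡ u0 [MOD Q] ∧ rel β a p y ≠ σ} ≤
        Q * ((1 + τ) * (p * ν {y | y ≡ u0 [MOD Q] ∧ p ∣ y ∧ rel β a p y ≠ σ}) + θ / Q) := by
      have e : Q * ((1 + τ) * (p * ν {y | y ≡ u0 [MOD Q] ∧ p ∣ y ∧ rel β a p y ≠ σ}) + θ / Q) =
          (1 + τ) * (p * (Q * ν {y | y ≡ u0 [MOD Q] ∧ p ∣ y ∧ rel β a p y ≠ σ})) + θ := by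
        field_simp
      rw [e]
      have h3 : 0 ≤ p * (Q * ν {y | y ≡ u0 [MOD Q] ∧ p ∣ y ∧ rel β a p y ≠ σ}) := by positivity
      have h4 : 0 < τ / (1 + τ) := by positivity
      refine le_of_mul_le_mul_left (h1.trans ?_) h4
      have h5 : τ / (1 + τ) * ((1 + τ) * (p * (Q * ν {y | y ≡ u0 [MOD Q] ∧ p ∣ y ∧
          rel β a p y ≠ σ})) + θ) = τ * (p * (Q * ν {y | y ≡ u0 [MOD Q] ∧ p ∣ y ∧
          rel β a p y ≠ σ})) + τ * θ / (1 + τ) := by
        have : (1 + τ) ≠ 0 := by positivity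
        field_simp
      rw [h5]
      have h6 : τ * θ / 2 ≤ τ * θ / (1 + τ) :=
        div_le_div_of_nonneg_left (by positivity) (by positivity) (by linarith)
      linarith
    exact le_of_mul_le_mul_left h2 hQ0

/-- the total weight of the bad scales is bounded independently of the number of scales -/
theorem bad_sum_le (C : ℕ) (hC : 2 ≤ C) {ν : Set ℕ → ℝ} (hν : FinAddInv ν) (a : ℕ → ℝ)
    (ha : ∀ n, a n = 1 ∨ a n = -1) {Q : ℕ} (hQ : 0 < Q) (u0 : ℕ) {k : ℕ} (β : Fin k → ℕ) (K : ℕ)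
    (hβ : ∀ i, β i ≤ K) (τ θ : ℝ) (hτ : 0 < τ) (hτ1 : τ ≤ 1) (hθ : 0 < θ)
    (j1 : ℕ)
    (hj1 : ∀ j, j1 ≤ j → C ^ (j + 1) + (C + 1) * (j + 1) ≤ C ^ (j + 2)) (J : ℕ) (hJ : j1 ≤ J)
    (Bad : Finset ℕ) (hB : Bad ⊆ Ico (C ^ j1) (C ^ J)) (hbad : ∀ m ∈ Bad, ¬ Dec β ν a Q u0 τ θ m) :
    τ * θ ^ 2 / (4 * (Q + K)) * ∑ m ∈ Bad, W C Q m ≤
      2 * (C + 1) * (Q * Real.log 2) + Real.log 4 := by
  classical
  set μ := condP ν hν Q u0 hQ with hμ
  set h : ℕ → ℝ := fun m => ent μ (blk a Q (nn Q K m)) / nn Q K m with hh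
  set I : ℕ → ℝ := fun m => miN μ (blk a Q (nn Q K m)) (∏ p ∈ Pset Q m, p) / nn Q K m with hI
  have hQ0 : (0:ℝ) < Q := by exact_mod_cast hQ
  have hnn0 : ∀ m, (0:ℝ) < nn Q K m := nn_pos hQ
  have hpos : ∀ m, 0 ≤ h m := fun m => div_nonneg (ent_nonneg μ _) (hnn0 m).le
  have hIpos : ∀ m, 0 ≤ I m := fun m => div_nonneg (miN_nonneg μ _ _) (hnn0 m).le
  have hlog4 : 0 ≤ Real.log 4 := Real.log_nonneg (by norm_num)
  have hH : ∀ m, h m ≤ Q * Real.log 2 := by
    intro m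
    simp only [hh]
    rw [div_le_iff₀ (hnn0 m)]
    refine (ent_le_log_card μ _).trans ?_
    rw [Fintype.card_fun, Fintype.card_bool, Fintype.card_fin]
    push_cast
    rw [Real.log_pow]
    push_cast
    exact le_of_eq (by ring)
  have hdec : ∀ m s, h (m + s) ≤ h m - I m + Real.log 4 / 2 ^ s := by
    intro m s
    have : NeZero (∏ p ∈ Pset Q m, p) := ⟨prod_Pset_ne_zero Q m⟩
    have h1 := ent_blk_decr hν hQ (u0 := u0) a (nn Q K m) (∏ p ∈ Pset Q m, p)
      (Nat.Coprime.prod_right fun p hp => coprime_of_mod_one (mem_Pset.1 hp).2.2) (2 ^ s)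
    rw [← hμ] at h1
    have h2 := log_prod_Pset_le Q m
    have e : ent μ (blk a Q (nn Q K (m + s))) = ent μ (blk a Q (2 ^ s * nn Q K m)) := by
      rw [nn_add]
    have h3 : (nn Q K (m + s) : ℝ) = 2 ^ s * nn Q K m := by rw [nn_add]; push_cast; ring
    simp only [hh, hI]
    rw [e, h3, div_le_iff₀ (by have := hnn0 m; positivity)]
    have h4 : (2:ℝ) ^ (m + 1) ≤ nn Q K m := by
      have : 2 ^ (m + 1) ≤ nn Q K m := by
        simp only [nn]
        exact Nat.le_mul_of_pos_left _ (by omega)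
      exact_mod_cast this
    have h5 : (2:ℝ) ^ (m + 1) * Real.log 4 ≤ nn Q K m * Real.log 4 := by gcongr
    have h6 : (ent μ (blk a Q (nn Q K m)) / (nn Q K m : ℝ) -
        miN μ (blk a Q (nn Q K m)) (∏ p ∈ Pset Q m, p) / (nn Q K m : ℝ) + Real.log 4 / 2 ^ s) *
        (2 ^ s * nn Q K m) = 2 ^ s * (ent μ (blk a Q (nn Q K m)) -
        miN μ (blk a Q (nn Q K m)) (∏ p ∈ Pset Q m, p)) + nn Q K m * Real.log 4 := by
      have := (hnn0 m).ne'
      field_simp
      try ring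
    rw [h6]
    push_cast at h1 h2
    linarith
  have hanti : Antitone h := by
    apply antitone_nat_of_succ_le
    intro m
    have h1 := ent_blk_decr hν hQ (u0 := u0) a (nn Q K m) 1 (Nat.coprime_one_right Q) (2 ^ 1)
    rw [← hμ] at h1
    have e : ent μ (blk a Q (nn Q K (m + 1))) = ent μ (blk a Q (2 ^ 1 * nn Q K m)) := by
      rw [nn_add]
    have h3 : (nn Q K (m + 1) : ℝ) = 2 ^ 1 * nn Q K m := by rw [nn_add]; push_cast; ring
    have h4 := miN_nonneg μ (blk a Q (nn Q K m)) 1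
    simp only [hh]
    rw [e, h3, div_le_div_iff₀ (by have := hnn0 m; positivity) (hnn0 m)]
    simp only [Nat.cast_one, Real.log_one, Nat.cast_ofNat, pow_one] at h1
    have h5 : ent μ (blk a Q (2 ^ 1 * nn Q K m)) ≤ 2 * ent μ (blk a Q (nn Q K m)) := by
      linarith
    have := hnn0 m
    nlinarith
  have main := weighted_sum_le h I hpos hanti (Real.log 4) hlog4 hdec C hC (Q * Real.log 2) hH
    j1 hj1 J hJ
  refine le_trans ?_ main
  -- compare the bad weights with the decrements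
  have e1 : ∑ j ∈ Ico j1 J, (1 / ((j : ℝ) + 1)) * ∑ m ∈ Ico (C ^ j) (C ^ (j + 1)), I m =
      ∑ m ∈ Ico (C ^ j1) (C ^ J), (1 / ((Nat.log C m : ℝ) + 1)) * I m := by
    rw [sum_blocks C hC _ j1 J hJ]
    apply Finset.sum_congr rfl
    intro j _
    rw [Finset.mul_sum]
    apply Finset.sum_congr rfl
    intro m hm
    rw [log_block hm]
  rw [e1, Finset.mul_sum]
  calc ∑ m ∈ Bad, τ * θ ^ 2 / (4 * (Q + K)) * W C Q m
      ≤ ∑ m ∈ Bad, (1 / ((Nat.log C m : ℝ) + 1)) * I m := by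
        apply Finset.sum_le_sum
        intro m hm
        have hnd := hbad m hm
        have h1 : τ * θ ^ 2 / 2 * (Pset Q m).card <
            miN μ (blk a Q (nn Q K m)) (∏ p ∈ Pset Q m, p) := by
          by_contra hcon
          exact hnd (dec_of_mi hν a ha hQ u0 β K hβ τ θ hτ hτ1 hθ m (not_lt.1 hcon))
        have h2 : τ * θ ^ 2 / (4 * (Q + K)) * (((Pset Q m).card : ℝ) / 2 ^ m) ≤ I m := by
          simp only [hI]
          rw [le_div_iff₀ (hnn0 m)]
          have e : τ * θ ^ 2 / (4 * (Q + K)) * (((Pset Q m).card : ℝ) / 2 ^ m) * nn Q K m =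
              τ * θ ^ 2 / 2 * (Pset Q m).card := by
            simp only [nn]
            push_cast
            have h1 : (Q:ℝ) + K ≠ 0 := by positivity
            field_simp
            ring
          rw [e]
          exact h1.le
        calc τ * θ ^ 2 / (4 * (Q + K)) * W C Q m
            = (1 / ((Nat.log C m : ℝ) + 1)) *
              (τ * θ ^ 2 / (4 * (Q + K)) * (((Pset Q m).card : ℝ) / 2 ^ m)) := by
              unfold W; ring
          _ ≤ _ := by gcongr
    _ ≤ _ := by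
        apply Finset.sum_le_sum_of_subset_of_nonneg hB
        intro m _ _
        have := hIpos m
        positivity

theorem pf_EN : T_EN := by
  classical
  obtain ⟨C, c, hC, hc, hM⟩ := Pool.Agent.H62.MR.me
  have hC0 : (0:ℝ) < C := by exact_mod_cast (by omega : 0 < C)
  refine ⟨c / (2 * C), by positivity, ?_⟩
  intro Q k β τ θ ρ m₀ hQ hτ hτ1 hθ hρ
  have hQ0 : (0:ℝ) < Q := by exact_mod_cast hQ
  have hφ0 : (0:ℝ) < Nat.totient Q := by exact_mod_cast Nat.totient_pos.2 hQ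
  set K : ℕ := ∑ i, β i with hK
  have hβ : ∀ i, β i ≤ K := fun i =>
    Finset.single_le_sum (f := β) (fun _ _ => Nat.zero_le _) (Finset.mem_univ i)
  obtain ⟨x₀, hx₀⟩ := hM Q hQ
  obtain ⟨j0, hj0⟩ := exists_start C hC
  set j1 : ℕ := max (max j0 m₀) ⌈x₀⌉₊ with hj1
  have hj1a : j0 ≤ j1 := (le_max_left _ _).trans (le_max_left _ _)
  have hj1b : m₀ ≤ j1 := (le_max_right _ _).trans (le_max_left _ _)
  have hj1c : ⌈x₀⌉₊ ≤ j1 := le_max_right _ _
  have hjC : ∀ j, j ≤ C ^ j := fun j => (Nat.lt_pow_self (by omega)).le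
  have hmert : ∀ j, j1 ≤ j → c / (Nat.totient Q : ℝ) ≤
      ∑ p ∈ (Ioc (2 ^ C ^ j) ((2 ^ C ^ j) ^ C)).filter (fun p => p.Prime ∧ p ≡ 1 [MOD Q]),
        (1 / (p : ℝ)) := by
    intro j hj
    have hx : x₀ ≤ ((2 ^ C ^ j : ℕ) : ℝ) := by
      have h1 : ⌈x₀⌉₊ ≤ 2 ^ C ^ j :=
        hj1c.trans (hj.trans ((hjC j).trans (Nat.lt_two_pow_self).le))
      exact (Nat.le_ceil x₀).trans (by exact_mod_cast h1)
    have h := hx₀ _ hx
    have e : ⌊((2 ^ C ^ j : ℕ) : ℝ) ^ C⌋₊ = (2 ^ C ^ j) ^ C := by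
      rw [← Nat.cast_pow, Nat.floor_natCast]
    rw [Nat.floor_natCast, e] at h
    exact h
  set B : ℝ := 2 * (C + 1) * (Q * Real.log 2) + Real.log 4 with hB
  set w : ℝ := τ * θ ^ 2 / (4 * (Q + K)) with hw
  have hw0 : 0 < w := by positivity
  set D : ℕ → Prop := fun m => c / (2 * C) * 2 ^ m / (Nat.totient Q * m) ≤ ((Pset Q m).card : ℝ)
    with hD
  -- total weight
  have htot : ∀ J, j1 ≤ J → c / (2 * Nat.totient Q) * (∑ j ∈ Ico j1 J, (1 / ((j : ℝ) + 1))) ≤
      ∑ m ∈ (Ico (C ^ j1) (C ^ J)).filter D, W C Q m := by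
    intro J hJ
    rw [Finset.sum_filter, sum_blocks C hC _ j1 J hJ, Finset.mul_sum]
    apply Finset.sum_le_sum
    intro j hj
    have h1 := dense_block C hC c hc Q hQ j (hmert j (Finset.mem_Ico.1 hj).1)
    rw [← Finset.sum_filter]
    have e : ∑ m ∈ (Ico (C ^ j) (C ^ (j + 1))).filter D, W C Q m =
        (1 / ((j : ℝ) + 1)) * ∑ m ∈ (Ico (C ^ j) (C ^ (j + 1))).filter D,
          ((Pset Q m).card : ℝ) / 2 ^ m := by
      rw [Finset.mul_sum]
      apply Finset.sum_congr rfl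
      intro m hm
      unfold W
      rw [log_block (Finset.mem_filter.1 hm).1]
    rw [e, mul_comm]
    gcongr
  -- choose the number of blocks
  obtain ⟨J, hJ1, hJ2⟩ : ∃ J, j1 ≤ J ∧ (|B| + 1) / (w * min ρ 1) ≤
      ∑ m ∈ (Ico (C ^ j1) (C ^ J)).filter D, W C Q m := by
    have htop := Real.tendsto_sum_range_one_div_nat_succ_atTop
    obtain ⟨J, hJa, hJb⟩ := ((htop.eventually_ge_atTop
      ((|B| + 1) / (w * min ρ 1) / (c / (2 * Nat.totient Q)) +
        ∑ i ∈ range j1, (1 / ((i : ℝ) + 1)))).and (eventually_ge_atTop j1)).exists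
    refine ⟨J, hJb, le_trans ?_ (htot J hJb)⟩
    rw [Finset.sum_Ico_eq_sub _ hJb]
    have h0 : 0 < c / (2 * Nat.totient Q) := by positivity
    have h1 : (|B| + 1) / (w * min ρ 1) / (c / (2 * Nat.totient Q)) ≤
        ∑ i ∈ range J, (1 / ((i : ℝ) + 1)) - ∑ i ∈ range j1, (1 / ((i : ℝ) + 1)) := by linarith
    rw [div_le_iff₀ h0] at h1
    linarith
  set M := (Ico (C ^ j1) (C ^ J)).filter D with hMdef
  set T := ∑ m ∈ M, W C Q m with hT
  have hρ1 : 0 < min ρ 1 := lt_min hρ one_pos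
  have hT0 : 0 < T := lt_of_lt_of_le (by positivity) hJ2
  refine ⟨M, fun m => W C Q m / T, ?_, ?_, ?_⟩
  · intro m hm
    have h1 := Finset.mem_filter.1 hm
    have h2 := Finset.mem_Ico.1 h1.1
    refine ⟨hj1b.trans ((hjC j1).trans h2.1), h1.2, ?_⟩
    exact div_nonneg (W_nonneg C Q m) hT0.le
  · rw [← Finset.sum_div, ← hT, div_self hT0.ne']
  · intro ν hν a ha u₀ Bad hBad hnd
    have h1 := bad_sum_le C hC hν a ha hQ u₀ β K hβ τ θ hτ hτ1 hθ j1
      (fun j hj => hj0 j (hj1a.trans hj)) J hJ1 Bad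
      (hBad.trans (Finset.filter_subset _ _)) hnd
    rw [← hw, ← hB] at h1
    rw [← Finset.sum_div, div_le_iff₀ hT0]
    have h2 : w * ∑ m ∈ Bad, W C Q m ≤ |B| + 1 := h1.trans ((le_abs_self B).trans (by linarith))
    rw [div_le_iff₀ (by positivity)] at hJ2
    have h3 : w * ∑ m ∈ Bad, W C Q m ≤ w * (ρ * T) := by
      calc _ ≤ |B| + 1 := h2
        _ ≤ T * (w * min ρ 1) := hJ2
        _ ≤ T * (w * ρ) := by gcongr; exact min_le_left _ _
        _ = _ := by ring
    exact le_of_mul_le_mul_left h3 hw0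

end Pool.Agent.H66.SG.EN
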