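import Pool.Agent.H66.SG.Defs

/-!
SHARP GAP (`MP_c59857_nt`): targets, section 3 (averages over primes).
-/

set_option autoImplicit false

open MeasureTheory ProbabilityTheory Filter Topology Finset
open scoped Nat ENNReal

namespace Pool.Agent.H66.SG

open Pool.Agent.H24.T2 (Pset)
open Pool.Agent.H24.AG (ee ps)
open Pool.Agent.H24.T2 (box cub AA)
open Pool.Agent.H67.AG (ul Inv Rt Av SA kap JJ TT InvZ nxt triv tow XN PN TN XX PX TX prX Fac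
  Tup dl Dlt Mis Sw SwE)

/-- the primes `≡ b (mod W)` in `(2 ^ m, 1.01 * 2 ^ m]` -/
def Pb (W b m : ℕ) : Finset ℕ :=
  (Finset.Ioc (2 ^ m) (101 * 2 ^ m / 100)).filter (fun p => p.Prime ∧ p ≡ b [MOD W])

/-- VPR: irrational frequencies, primes. -/
def T_VPR : Prop := ∀ θ : ℝ, Irrational θ → ∀ ε : ℝ, 0 < ε → ∃ m₀ : ℕ, ∀ m : ℕ, m₀ ≤ m →
  ‖∑ p ∈ (Finset.Ioc (2 ^ m) (101 * 2 ^ m / 100)).filter Nat.Prime, ee (θ * p)‖ ≤ ε * 2 ^ m / m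

/-- VEC: the residue classes contain the same number of primes. -/
def T_VEC : Prop := ∀ (W b b' : ℕ) (ε : ℝ), 0 < W → b.Coprime W → b'.Coprime W → 0 < ε →
  ∃ m₀ : ℕ, ∀ m : ℕ, m₀ ≤ m → |((Pb W b m).card : ℝ) - (Pb W b' m).card| ≤ ε * 2 ^ m / m

/-- VDY: primes in short intervals. -/
def T_VDY : Prop := ∃ c : ℝ, 0 < c ∧ ∃ m₀ : ℕ, ∀ m : ℕ, m₀ ≤ m →
  c * 2 ^ m / m ≤ (((Finset.Ioc (2 ^ m) (101 * 2 ^ m / 100)).filter Nat.Prime).card : ℝ)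

/-- VCT: the number of primes `≡ 1 (mod W)`, lower bound. -/
def T_VCT : Prop := ∀ W : ℕ, 0 < W → ∃ c : ℝ, 0 < c ∧ ∃ m₀ : ℕ, ∀ m : ℕ, m₀ ≤ m →
  c * 2 ^ m / m ≤ ((Ps W m).card : ℝ)

/-- VVQ: rational frequencies. -/
def T_VVQ : Prop := ∀ (w W q : ℕ) (a : ℤ), 0 < w → 0 < W → w ! ∣ W → 2 ≤ q →
  IsCoprime a (q : ℤ) → ∀ ε : ℝ, 0 < ε → ∃ m₀ : ℕ, ∀ m, m₀ ≤ m →
  ‖∑ p ∈ Ps W m, ee ((a : ℝ) / q * ((p - 1) / W : ℕ))‖ ≤ (1 / w + ε) * (Ps W m).card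

/-- VVI: irrational frequencies, primes `≡ 1 (mod W)`. -/
def T_VVI : Prop := ∀ (W : ℕ) (θ : ℝ), 0 < W → Irrational θ → ∀ ε : ℝ, 0 < ε →
  ∃ m₀ : ℕ, ∀ m, m₀ ≤ m →
  ‖∑ p ∈ Ps W m, ee (θ * ((p - 1) / W : ℕ))‖ ≤ ε * (Ps W m).card

/-- VCU: the second moment of the number of prime cubes. -/
def T_VCU : Prop := ∀ W d : ℕ, 0 < W → Even W → ∃ C : ℝ, 0 < C ∧ ∃ m₀ : ℕ, ∀ m, m₀ ≤ m →
  ∑ t ∈ box d (2 ^ m), ((cub d (AA W (Ps W m)) t).card : ℝ) ^ 2 ≤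
    C * (2 ^ m : ℝ) ^ d * ((2 ^ m : ℝ) * (((Ps W m).card : ℝ) / 2 ^ m) ^ (2 ^ d)) ^ 2

/-- PN: there are many primes in the progressions `1 (mod W)`, compared with all the primes of
the dyadic interval in a progression of a smaller modulus. -/
def T_PN : Prop := ∀ Q W : ℕ, 0 < W → Q ∣ W → ∃ c : ℝ, 0 < c ∧ ∃ m₀ : ℕ, ∀ m, m₀ ≤ m →
  c * ((Pset Q m).card : ℝ) ≤ (Ps W m).card ∧ 0 < (Ps W m).card

/-- V: exponential sums over primes. -/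
def T_V : Prop := ∀ (w W : ℕ) (ph : ℝ), 0 < w → 0 < W → w ! ∣ W → (∀ n : ℤ, ph ≠ n) →
  ∀ ε : ℝ, 0 < ε → ∃ m₀ : ℕ, ∀ m, m₀ ≤ m →
    ‖∑ p ∈ Ps W m, Complex.exp (2 * Real.pi * Complex.I * (ph * ((p - 1) / W : ℕ)))‖ ≤
      (1 / w + ε) * (Ps W m).card

/-- AVP: averages over primes of the iterates, for functions without invariant part. -/
def T_AVP : Prop := ∀ (Ω : Type) [MeasurableSpace Ω] (P : Measure Ω) [IsProbabilityMeasure P]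
  (T : Ω ≃ᵐ Ω) (w W b : ℕ) (f : Ω → ℝ) (ε : ℝ), MeasurePreserving T P P → Measurable f →
  (∀ ω, |f ω| ≤ 1) → 0 < w → 0 < W → w ! ∣ W → 0 < b → P[f | Inv T (W * b)] =ᵐ[P] 0 →
  0 < ε → ∃ m₀ : ℕ, ∀ m, m₀ ≤ m →
    ∫ ω, (avgP W m fun p => f (T^[(p - 1) * b] ω)) ^ 2 ∂P ≤
      1 / (w : ℝ) ^ 2 * ∫ ω, f ω ^ 2 ∂P + ε

/-- PI: pair independence. -/
def T_PI : Prop := ∀ (Ω : Type) [MeasurableSpace Ω] (P : Measure Ω) [IsProbabilityMeasure P]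
  (T : Ω ≃ᵐ Ω) (w W a b d : ℕ) (ps f g : Ω → ℝ) (ε : ℝ), MeasurePreserving T P P →
  Measurable[Inv T W] ps → (∀ ω, 0 ≤ ps ω ∧ ps ω ≤ 1) → Measurable f → (∀ ω, |f ω| ≤ 1) →
  Measurable g → (∀ ω, |g ω| ≤ 1) → 0 < w → 0 < W → w ! ∣ W → a ≠ b →
  ((a : ℤ) - b).natAbs ∣ d → 0 < d → 0 < ε → ∃ m₀ : ℕ, ∀ m, m₀ ≤ m →
    |(avgP W m fun p => ∫ ω, ps ω * f (T^[(p - 1) * a] ω) * g (T^[(p - 1) * b] ω) ∂P) -
      ∫ ω, ps ω * (P[f | Inv T W]) ω * (P[g | Inv T W]) ω ∂P| ≤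
    ∫ ω, ps ω * |(P[f | Inv T (W * d)]) ω - (P[f | Inv T W]) ω| ∂P +
      1 / (w : ℝ) * ∫ ω, ps ω ∂P + ε

/-- P3: the step of the tower which controls the averages over primes. -/
def T_P3 : Prop := ∀ (X : Type) [MeasurableSpace X] [StandardBorelSpace X] (μ : Measure X)
  [IsProbabilityMeasure μ] (T : X ≃ᵐ X) (k W : ℕ) (β : Fin k → ℕ) (l : Fin k) (f₀ : X → ℝ)
  (ε : ℝ), Ergodic T μ → Function.Injective β → 0 < W → Even W → Measurable f₀ →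
  (∀ x, |f₀ x| ≤ 1) → μ[f₀ | (tow μ T (k - 1)).1] =ᵐ[μ] 0 → 0 < ε →
  ∃ m₀ : ℕ, ∀ m, m₀ ≤ m → ∀ f : Fin k → X → ℝ, (∀ i, Measurable (f i)) →
    (∀ i x, |f i x| ≤ 1) → f l = f₀ →
    |avgP W m fun p => ∫ x, ∏ i, f i (T^[(p - 1) * β i] x) ∂μ| ≤ ε

end Pool.Agent.H66.SG
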