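import Pool.Agent.H66.SG.T3

/-!
SHARP GAP (`MP_c59857_nt`): targets, sections 4, 5, 8.
-/

set_option autoImplicit false

open MeasureTheory ProbabilityTheory Filter Topology Finset
open scoped Nat ENNReal

namespace Pool.Agent.H66.SG

open Pool.Agent.H24.T2 (Pset)
open Pool.Agent.H67.AG (ul Inv Rt Av SA kap JJ TT InvZ nxt triv tow XN PN TN XX PX TX prX Fac
  Tup dl Dlt Mis Sw SwE)

/-! ### Section 4 -/

/-- DW: the dichotomy for a fixed modulus. -/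
def T_DW : Prop := ∀ (Ω : Type) [MeasurableSpace Ω] (P : Measure Ω) [IsProbabilityMeasure P]
  (T : Ω ≃ᵐ Ω) (k : ℕ) (β : Fin k → ℕ) (σ : ℝ) (w W : ℕ) (U : Ultrafilter ℕ)
  (y y' : Fin k → Ω → ℝ) (A : Set Ω), MeasurePreserving T P P → Function.Injective β →
  (σ = 1 ∨ σ = -1) → 0 < w → 0 < W → w ! ∣ W → (U : Filter ℕ) ≤ atTop → Tup y → Tup y' →
  MeasurableSet[Inv T W] A →
  ∫ ω in A, (Mis P (Inv T W) y y' ω - Mis P (Inv T W) y y' ω ^ 2) ∂P ≤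
    Lam U W P T β σ y A + Lam U W P T β σ y' A +
    k * ∑ i, ∫ ω in A, |(P[dl y y' i | Inv T (W * Dlt β)]) ω - (P[dl y y' i | Inv T W]) ω| ∂P +
    (k : ℝ) ^ 2 / w * P.real A

/-- ER: the density of the errors. -/
def T_ER : Prop := ∀ c : Ctx, ∃ e : c.X → ℝ, Measurable[Rt c.T] e ∧ (∀ x, 0 ≤ e x ∧ e x ≤ 1) ∧
  ∫ x in c.Y, e x ∂c.μ ≤ κ₁ * c.μ.real c.Y ∧
  ∀ ψ : c.X → ℝ, Measurable[Rt c.T] ψ → (∀ x, |ψ x| ≤ 1) →
    Tendsto (fun w => ul (c.U w) fun m => avgP (c.Q * w !) m fun p =>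
      ∫ x in c.Y ∩ bd c.T c.β c.σ (fun i x => c.D (c.T^[c.β i] x)) p, ψ x ∂c.μ)
      (c.V : Filter ℕ) (𝓝 (∫ x in c.Y, ψ x * e x ∂c.μ))

/-- LE: the limit of the errors on a joint system. -/
def T_LE : Prop := ∀ (c : CtxE) (Ω : Type) [MeasurableSpace Ω] (P : Measure Ω)
  [IsProbabilityMeasure P] (T : Ω ≃ᵐ Ω) (g : Ω → c.X) (A : Set Ω), MeasurePreserving T P P →
  Fac P T c.μ c.T g → MeasurableSet[Rt T] A → A ⊆ g ⁻¹' c.Y →
  Tendsto (fun w => Lam (c.U w) (c.W w) P T c.β c.σ (fun i ω => c.Dt i (g ω)) A) (c.V : Filter ℕ)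
    (𝓝 (∫ ω in A, c.e (g ω) ∂P))

/-- DR: the dichotomy for the rational sets. -/
def T_DR : Prop := ∀ (c : CtxE) (P : Measure (c.X × c.X)) [IsProbabilityMeasure P],
  MeasurePreserving (TT c.T) P P → MeasurePreserving Prod.fst P c.μ →
  MeasurePreserving Prod.snd P c.μ →
  ∀ᵐ q ∂P, q.1 ∈ c.Y → q.2 ∈ c.Y →
    Mis P (Rt (TT c.T)) c.D1 c.D2 q - Mis P (Rt (TT c.T)) c.D1 c.D2 q ^ 2 ≤ c.e q.1 + c.e q.2

/-- ERC: from the data to the data with the density of the errors. -/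
def T_ERC : Prop := ∀ c : Ctx, ∃ c' : CtxE, c'.toCtx = c

/-! ### Section 5 -/

namespace CtxE

variable (c : CtxE)

/-- the conditional expectation of the tuple over the tower -/
noncomputable def Db (i : Fin c.k) (x : c.X) : ℝ :=
  max (-1) (min 1 ((c.μ[c.Dt i | (tow c.μ c.T (c.k - 1)).1]) x))

/-- the conditional variance -/
noncomputable def aa (i : Fin c.k) (x : c.X) : ℝ := 1 - c.Db i x ^ 2

/-- the sum over a subset of the indices, conditioned on `m` -/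
noncomputable def VI (m : MeasurableSpace c.X) (I : Finset (Fin c.k)) (x : c.X) : ℝ :=
  ∑ i ∈ I, (c.μ[c.aa i | m]) x

end CtxE

/-- A0: the relation for the conditional expectations. -/
def T_A0 : Prop := ∀ (c : CtxE), 2 ≤ c.k → ∀ (w : ℕ) (A : Set c.X),
  MeasurableSet[Inv c.T (c.W w)] A →
  (1 : ℝ) * c.μ.real A - 2 * Lam (c.U w) (c.W w) c.μ c.T c.β c.σ c.Dt A =
    c.σ * ul (c.U w) fun m => avgP (c.W w) m fun p =>
      ∫ x in A, ∏ i, c.Db i (c.T^[(p - 1) * c.β i] x) ∂c.μ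

/-- A1: the inequality for the conditional variances, fixed modulus. -/
def T_A1 : Prop := ∀ (c : CtxE), 2 ≤ c.k → ∀ (w : ℕ) (I : Finset (Fin c.k)) (A : Set c.X),
  0 < w → MeasurableSet[Inv c.T (c.W w)] A →
  ∫ x in A, (c.VI (Inv c.T (c.W w)) I x - c.VI (Inv c.T (c.W w)) I x ^ 2 / 2) ∂c.μ ≤
    4 * Lam (c.U w) (c.W w) c.μ c.T c.β c.σ c.Dt A +
    c.k * ∑ i, ∫ x, |(c.μ[c.aa i | Inv c.T (c.W w * Dlt c.β)]) x -
      (c.μ[c.aa i | Inv c.T (c.W w)]) x| ∂c.μ + (c.k : ℝ) ^ 2 / w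

/-- A2: the inequality for the conditional variances, rational sets. -/
def T_A2 : Prop := ∀ (c : CtxE), 2 ≤ c.k → ∀ I : Finset (Fin c.k), ∀ᵐ x ∂c.μ, x ∈ c.Y →
  c.VI (Rt c.T) I x - c.VI (Rt c.T) I x ^ 2 / 2 ≤ 4 * c.e x

/-- A3: finite combinatorics. -/
def T_A3 : Prop := ∀ (k : ℕ) (a : Fin k → ℝ), (∀ i, 0 ≤ a i ∧ a i ≤ 1) →
  (∀ I : Finset (Fin k), ∑ i ∈ I, a i - (∑ i ∈ I, a i) ^ 2 / 2 ≤ 4 * κ₂) →
  ∑ i, a i ≤ 2 * m₁

/-- CA: the first step. -/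
def T_CA : Prop := ∀ c : CtxE, 2 ≤ c.k → c.CP (tow c.μ c.T (c.k - 1))

/-- CB: the descent. -/
def T_CB : Prop := ∀ (c : CtxE) (Z : SA c.X), InvZ c.T Z → c.CP (nxt c.μ c.T Z) → c.CP Z

/-! ### Section 8 -/

/-- ED: the last step. -/
def T_END : Prop := ∀ c : CtxE, c.CP (triv c.X) → False

/-- K1: one point. -/
def T_K1 : Prop := ∀ c : Ctx, c.k = 1 → False

/-- ERG: the ergodic theorem which we want. -/
def T_ERG : Prop := IsEmpty Ctx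

end Pool.Agent.H66.SG
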