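import Pool.Agent.H66.SG.T4

/-!
SHARP GAP (`MP_c59857_nt`): targets, section 6 (the switching lemma).
-/

set_option autoImplicit false

open MeasureTheory ProbabilityTheory Filter Topology Finset
open scoped Nat ENNReal

namespace Pool.Agent.H66.SG

open Pool.Agent.H24.T2 (Pset)
open Pool.Agent.H67.AG (ul Inv Rt Av SA kap JJ TT InvZ nxt triv tow XN PN TN XX PX TX prX Fac
  Tup dl Dlt Mis Sw SwE)

section sw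

variable {d : Sw} (e : SwE d) (yl : Fin d.k → e.Ω → ℝ)

/-- product of the last tuple and the reference `b` -/
def gl (b : Fin d.n) (i : Fin d.k) (ω : e.Ω) : ℝ := yl i ω * e.yb b i ω

/-- the defect of the asymptotic invariance of the products, on the set `A` -/
noncomputable def E2 (L : ℕ) (A : Set e.Ω) : ℝ :=
  ∑ j : Fin d.k → Fin d.n, ul (hyperfilter ℕ) fun L'' => ul d.U fun m => avgP d.W m fun p =>
    ∫ ω in A, |Av d.T' d.W L (d.FF p j) (e.g ω) - Av d.T' d.W L'' (d.FF p j) (e.g ω)| ∂e.P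

/-- the bound for the errors of the pairs, on the set `A` -/
noncomputable def E4 (L : ℕ) (i : Fin d.k) (A : Set e.Ω) : ℝ :=
  1 / (L : ℝ) * ∑ l ∈ range L, ∫ ω in A, e.mv (Dlt d.β * l) ω ∂e.P +
  1 / (L : ℝ) * ∑ l ∈ range L, ∫ ω in A, e.mv l ω ∂e.P +
  1 / (Dlt d.β : ℝ) * ∑ r ∈ range (Dlt d.β), ∫ ω in A, e.mv r ω ∂e.P +
  Dlt d.β / (L : ℝ) * e.P.real A +
  ∑ b, ∫ ω in A, |Av e.T (d.W * Dlt d.β) L (gl e yl b i) ω - Av e.T d.W L (gl e yl b i) ω| ∂e.P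

/-- the bound for the dichotomy of `yl` and `yt t`, on the set `A` -/
noncomputable def EL (L L₂ : ℕ) (A : Set e.Ω) : ℝ :=
  Lam d.U d.W e.P e.T d.β d.σ yl A + Lam d.U d.W e.P e.T d.β d.σ e.ys A +
  2 * d.k / (L : ℝ) * ∑ l ∈ range L, ∫ ω in A, e.mv l ω ∂e.P + E2 e L A +
  d.k * ∑ i, E4 e yl L₂ i A + (d.k : ℝ) ^ 2 / d.w * e.P.real A

end sw

/-- S1: the products are asymptotically invariant in mean square. -/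
def T_S1 : Prop := ∀ (d : Sw) (ε : ℝ), 0 < ε → ∃ L : ℕ, 0 < L ∧ ∀ L'' : ℕ, L ≤ L'' →
  ∀ j : Fin d.k → Fin d.n, ul d.U (fun m => avgP d.W m fun p =>
    ∫ ω, (Av d.T' d.W L (d.FF p j) ω - Av d.T' d.W L'' (d.FF p j) ω) ^ 2 ∂d.P') ≤ ε

/-- S2: the relation holds for the shifted selection, uniformly in the shift. -/
def T_S2 : Prop := ∀ (d : Sw) (e : SwE d) (L t : ℕ) (A : Set e.Ω), 0 < L →
  MeasurableSet[Inv e.T d.W] A →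
  Lam d.U d.W e.P e.T d.β d.σ (e.yt t) A ≤ Lam d.U d.W e.P e.T d.β d.σ e.ys A +
    2 * d.k / (L : ℝ) * ∑ l ∈ range L, ∫ ω in A, e.mv l ω ∂e.P + E2 e L A

/-- S3: errors of the pairs, uniformly in the shift. -/
def T_S3 : Prop := ∀ (d : Sw) (e : SwE d) (yl : Fin d.k → e.Ω → ℝ) (L t : ℕ) (i : Fin d.k)
  (A : Set e.Ω), Tup yl → 0 < L → MeasurableSet[Inv e.T d.W] A →
  ∫ ω in A, |(e.P[dl yl (e.yt t) i | Inv e.T (d.W * Dlt d.β)]) ω -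
    (e.P[dl yl (e.yt t) i | Inv e.T d.W]) ω| ∂e.P ≤ E4 e yl L i A

/-- S3b: the dichotomy for the last tuple and the shifted selection, with an additive bound. -/
def T_S3b : Prop := ∀ (d : Sw) (e : SwE d) (yl : Fin d.k → e.Ω → ℝ) (L L₂ t : ℕ) (A : Set e.Ω),
  Tup yl → 0 < L → 0 < L₂ → MeasurableSet[Inv e.T d.W] A →
  ∫ ω in A, (Mis e.P (Inv e.T d.W) yl (e.yt t) ω - Mis e.P (Inv e.T d.W) yl (e.yt t) ω ^ 2) ∂e.P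
    ≤ EL e yl L L₂ A

/-- S4: a path with small steps does not cross the gap (abstract form). -/
def T_S4 : Prop := ∀ (Ω : Type) (m : MeasurableSpace Ω) [mΩ : MeasurableSpace Ω] (P : Measure Ω)
  [IsProbabilityMeasure P] (M : ℕ → Ω → ℝ) (s₀ : Ω → ℝ) (E : Set Ω → ℝ) (A : Set Ω), m ≤ mΩ →
  (∀ t, Measurable[m] (M t)) → (∀ t, Integrable (M t) P) →
  (∀ t, Integrable (fun ω => M t ω ^ 2) P) → Measurable[m] s₀ → MeasurableSet[m] A →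
  (∀ t, ∀ᵐ ω ∂P, |M (t + 1) ω - M t ω| ≤ s₀ ω) →
  (∀ B, MeasurableSet[m] B → 0 ≤ E B) →
  (∀ B B', MeasurableSet[m] B → MeasurableSet[m] B' → Disjoint B B' → E (B ∪ B') = E B + E B') →
  (∀ t B, MeasurableSet[m] B → ∫ ω in B, (M t ω - M t ω ^ 2) ∂P ≤ E B) →
  P.real (A ∩ {ω | M 0 ω ≤ 1 / 2 ∧ s₀ ω ≤ 1 / 100 ∧ ∃ t, 1 / 2 < M t ω}) ≤ 401 / 100 * E A

/-- S4b: the bound is additive and the steps are small. -/
def T_S4b : Prop := ∀ (d : Sw) (e : SwE d) (yl : Fin d.k → e.Ω → ℝ) (L L₂ : ℕ), Tup yl → 0 < L →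
  0 < L₂ →
  (∀ B, MeasurableSet B → 0 ≤ EL e yl L L₂ B) ∧
  (∀ B B', MeasurableSet B → MeasurableSet B' → Disjoint B B' →
    EL e yl L L₂ (B ∪ B') = EL e yl L L₂ B + EL e yl L L₂ B') ∧
  (∀ᵐ ω ∂e.P, Mis e.P (Inv e.T d.W) yl (e.yt 0) ω = Mis e.P (Inv e.T d.W) yl e.ys ω) ∧
  ∀ t, ∀ᵐ ω ∂e.P, |Mis e.P (Inv e.T d.W) yl (e.yt (t + 1)) ω -
    Mis e.P (Inv e.T d.W) yl (e.yt t) ω| ≤ d.k * (e.P[e.mv 1 | Inv e.T d.W]) ω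

/-- S5: average over the shift. -/
def T_S5 : Prop := ∀ (d : Sw) (e : SwE d) (yl : Fin d.k → e.Ω → ℝ), Tup yl → ∀ᵐ ω ∂e.P,
  (∀ t, Mis e.P (Inv e.T d.W) yl (e.yt t) ω ≤ 1 / 2) →
    ∃ b, Mis e.P (Inv e.T d.W) yl (e.yb b) ω ≤ 1 / 2

/-- S6: the parameters. -/
def T_S6 : Prop := ∀ (d : Sw) (η : ℝ) (L₂ : ℕ), 0 < η → (d.k : ℝ) ^ 2 / d.w ≤ η → 0 < L₂ →
  Dlt d.β / (L₂ : ℝ) ≤ η →
  ∃ L L₁ : ℕ, 0 < L ∧ ∀ (e : SwE d) (yl : Fin d.k → e.Ω → ℝ), Tup yl →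
    (∀ l ≤ L₁, e.P.real {ω | e.s (e.T^[d.W * l] ω) ≠ e.s ω} ≤ η) →
    ∑ b, ∑ i, ∫ ω, |Av e.T (d.W * Dlt d.β) L₂ (gl e yl b i) ω -
      Av e.T d.W L₂ (gl e yl b i) ω| ∂e.P ≤ η →
    (∀ A : Set e.Ω, MeasurableSet A → EL e yl L L₂ A ≤
      Lam d.U d.W e.P e.T d.β d.σ yl A + Lam d.U d.W e.P e.T d.β d.σ e.ys A +
        12 * ((d.k : ℝ) + 1) ^ 2 * η) ∧
    e.P.real {ω | 1 / 100 < d.k * (e.P[e.mv 1 | Inv e.T d.W]) ω} ≤ 100 * d.k * η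

/-- SW: the switching lemma. -/
def T_SW : Prop := ∀ (d : Sw) (η : ℝ) (L₂ : ℕ), 0 < η → (d.k : ℝ) ^ 2 / d.w ≤ η → 0 < L₂ →
  Dlt d.β / (L₂ : ℝ) ≤ η →
  ∃ L₁ : ℕ, ∀ (e : SwE d) (yl : Fin d.k → e.Ω → ℝ), Tup yl →
    (∀ l ≤ L₁, e.P.real {ω | e.s (e.T^[d.W * l] ω) ≠ e.s ω} ≤ η) →
    ∑ b, ∑ i, ∫ ω, |Av e.T (d.W * Dlt d.β) L₂ (gl e yl b i) ω -
      Av e.T d.W L₂ (gl e yl b i) ω| ∂e.P ≤ η →
    ∀ A : Set e.Ω, MeasurableSet[Inv e.T d.W] A →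
      e.P.real (A ∩ {ω | Mis e.P (Inv e.T d.W) yl e.ys ω ≤ 1 / 2 ∧
        ∀ b, 1 / 2 < Mis e.P (Inv e.T d.W) yl (e.yb b) ω}) ≤
        401 / 100 * (Lam d.U d.W e.P e.T d.β d.σ yl A + Lam d.U d.W e.P e.T d.β d.σ e.ys A) +
          300 * ((d.k : ℝ) + 1) ^ 2 * η

end Pool.Agent.H66.SG
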