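import Pool.Agent.H80.AG.Targets9
import Pool.Agent.H66.SG.T4

/-!
SHARP GAP (`MP_c59857_nt`): targets, section 9 (from number theory to dynamics).
-/

set_option autoImplicit false

open MeasureTheory ProbabilityTheory Filter Topology Finset
open scoped Nat ENNReal

namespace Pool.Agent.H66.SG

open Pool.Agent.H24.MR (lam dens FinAddInv)
open Pool.Agent.H24.T2 (Pset rel)
open Pool.Agent.H67.AG (ul Inv Rt Av SA kap JJ TT InvZ nxt triv tow Fac Tup dl Dlt Mis)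
open Pool.Agent.H80.AG (sg Fam Lb Om sh shM DD RB ptO)

/-- the relation at the scale `m`, with the divisibility condition; the bound does not depend on
the prime -/
def RelAt (η : ℝ) (Q : ℕ) {n : ℕ} (β : Fin n → ℕ) (U : Ultrafilter ℕ) (N : ℕ → ℕ) (m : ℕ) :
    Prop :=
  ∃ (c : ℕ) (σ : ℝ), σ ≠ 0 ∧ ∀ p ∈ Pset Q m,
    dens U N {y | y ≡ c [MOD Q] ∧ p ∣ y ∧ rel β lam p y ≠ σ} ≤ η / (2 ^ m * Q)

/-- the local statement for the constant `η` -/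
def LocN (η : ℝ) : Prop := ∀ (k Q : ℕ) (β : Fin (k + 1) → ℕ), 0 < Q → Even Q →
  Function.Injective β → ∀ ρ : ℝ, 0 < ρ →
    ∃ (M : Finset ℕ) (wt : ℕ → ℝ), (∀ m ∈ M, 0 ≤ wt m) ∧ ∑ m ∈ M, wt m = 1 ∧
      ∀ (U : Ultrafilter ℕ) (N : ℕ → ℕ), Tendsto N (U : Filter ℕ) atTop → ∀ B ⊆ M,
        (∀ m ∈ B, RelAt η Q β U N m) → ∑ m ∈ B, wt m ≤ ρ

/-- the theorem for the constant `κ` -/
def AbsGapAt (κ : ℝ) : Prop :=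
    ∀ (r : ℕ) (α : Fin r → ℤ) (ε : Fin r → ℕ) (q n₀ : ℕ), Function.Injective α →
      (∀ i, 1 ≤ ε i) → (∃ i, Odd (ε i)) → 0 < q → ∀ ρ : ℝ, 0 < ρ → ∃ K : ℕ, ∀ x y : ℕ, 0 < x →
        K * x ≤ y →
        ∑ N ∈ (Finset.Icc x y).filter (fun N : ℕ =>
          (1 - κ) * (∑ n ∈ (Finset.Icc 1 N).filter (fun n => n ≡ n₀ [MOD q]),
            |∏ i, ((ArithmeticFunction.moebius (((n : ℤ) + α i).toNat) : ℤ) : ℝ) ^ ε i|)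
            < |∑ n ∈ (Finset.Icc 1 N).filter (fun n => n ≡ n₀ [MOD q]),
            ∏ i, ((ArithmeticFunction.moebius (((n : ℤ) + α i).toNat) : ℤ) : ℝ) ^ ε i|),
          (1 : ℝ) / N ≤ ρ * Real.log (y / x)

/-- the bound for the error of the relation at the index `i` -/
noncomputable def er (η : ℝ) (i : ℕ) : ℝ := 101 / 100 * η + 6 / ((i : ℝ) + 1)

/-- the relation holds, without the divisibility condition, on average over the primes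
`≡ 1 (mod Q w!)` of the short interval at the scale `m` -/
def GoodAt (η : ℝ) (Q : ℕ) {n : ℕ} (β : Fin n → ℕ) (U : Ultrafilter ℕ) (N : ℕ → ℕ) (w i m : ℕ)
    (c : ℕ) (b : Bool) : Prop :=
  c < Q ∧ ∑ p ∈ Ps (Q * w !) m, dens U N {y | y ≡ c [MOD Q] ∧ rel β lam p y ≠ sg b} ≤
    er η i / Q * (Ps (Q * w !) m).card

/-- the measure on the symbolic space which comes from a failure of the local statement -/
structure SysP (Q : ℕ) [NeZero Q] {n : ℕ} (β : Fin n → ℕ) (ρ η : ℝ) (m : ℕ → ℕ → ℕ)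
    (P : Measure (Om Q)) : Prop where
  prob : IsProbabilityMeasure P
  inv : MeasurePreserving (shM Q) P P
  mi : ∀ w i, i ≤ m w i
  lab : ∀ w i, ρ / 2 ≤ P.real {ω | (ω.2.2 (w, i)).1 = true}
  relation : ∀ w i, ∑ p ∈ Ps (Q * w !) (m w i),
    P.real {ω | (ω.2.2 (w, i)).1 = true ∧ ω.2.1 = (ω.2.2 (w, i)).2.1 ∧
      ω ∈ RB Q β p (ω.2.2 (w, i)).2.2} ≤
    er η i / Q * (Ps (Q * w !) (m w i)).card * P.real {ω | (ω.2.2 (w, i)).1 = true}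
  mr : ∀ W : ℕ, 0 < W → ∀ ε : ℝ, 0 < ε → ∃ h₀ : ℕ, ∀ h, h₀ ≤ h →
    P.real {ω | ε * h ≤ |∑ y ∈ range h, DD Q ((shM Q)^[W * y] ω)|} ≤ ε

/-- the decoupling of the divisibility condition, with the constant `1 + τ` -/
def Dec {k : ℕ} (β : Fin k → ℕ) (ν : Set ℕ → ℝ) (a : ℕ → ℝ) (Q u₀ : ℕ) (τ θ : ℝ) (m : ℕ) : Prop :=
  ∃ X : Finset ℕ, (X.card : ℝ) ≤ θ * (Pset Q m).card ∧ ∀ p ∈ Pset Q m, p ∉ X → ∀ σ : ℝ,
    ν {y | y ≡ u₀ [MOD Q] ∧ rel β a p y ≠ σ} ≤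
      (1 + τ) * (p * ν {y | y ≡ u₀ [MOD Q] ∧ p ∣ y ∧ rel β a p y ≠ σ}) + θ / Q

/-- EN: entropy decrement with the constant `1 + τ`. -/
def T_EN : Prop := ∃ c₀ : ℝ, 0 < c₀ ∧ ∀ (Q k : ℕ) (β : Fin k → ℕ) (τ θ ρ : ℝ) (m₀ : ℕ), 0 < Q →
  0 < τ → τ ≤ 1 → 0 < θ → 0 < ρ →
  ∃ (M : Finset ℕ) (wt : ℕ → ℝ),
    (∀ m ∈ M, m₀ ≤ m ∧ c₀ * 2 ^ m / (Nat.totient Q * m) ≤ ((Pset Q m).card : ℝ) ∧ 0 ≤ wt m) ∧
    ∑ m ∈ M, wt m = 1 ∧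
    ∀ ν : Set ℕ → ℝ, FinAddInv ν → ∀ a : ℕ → ℝ, (∀ n, a n = 1 ∨ a n = -1) → ∀ u₀ : ℕ,
      ∀ Bad : Finset ℕ, Bad ⊆ M → (∀ m ∈ Bad, ¬ Dec β ν a Q u₀ τ θ m) → ∑ m ∈ Bad, wt m ≤ ρ

/-- ENS: entropy decrement for the modulus `Q w!`. -/
def T_ENS : Prop := ∀ (Q k : ℕ) (β : Fin k → ℕ) (ρ : ℝ) (w i : ℕ), 0 < Q → 0 < ρ →
  ∃ (M : Finset ℕ) (wt : ℕ → ℝ),
    (∀ m ∈ M, i ≤ m ∧ (Ps (Q * w !) m).Nonempty ∧ 0 ≤ wt m) ∧ ∑ m ∈ M, wt m = 1 ∧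
    ∀ η : ℝ, 0 < η → η < 1 / 2 → ∀ (U : Ultrafilter ℕ) (N : ℕ → ℕ),
      Tendsto N (U : Filter ℕ) atTop → ∀ B ⊆ M,
        (∀ m ∈ B, RelAt η Q β U N m ∧ ¬ ∃ c b, GoodAt η Q β U N w i m c b) → ∑ m ∈ B, wt m ≤ ρ

/-- ARR: the families of densities which come from a failure of the local statement. -/
def T_ARR : Prop := ∀ η : ℝ, 0 < η → η < 1 / 2 → ¬ LocN η →
  ∃ (k Q : ℕ) (β : Fin (k + 1) → ℕ) (ρ : ℝ) (Mf : ℕ → ℕ → Finset ℕ), 0 < Q ∧ Even Q ∧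
    Function.Injective β ∧ 0 < ρ ∧ (∀ w i, ∀ m ∈ Mf w i, i ≤ m) ∧
    ∀ J : ℕ, ∃ (F : Fam) (m : ℕ → ℕ → ℕ) (l : Fin F.n → ℕ × ℕ → Lb Q), ∀ w ≤ J, ∀ i ≤ J,
      m w i ∈ Mf w i ∧
      ρ / 2 ≤ ∑ a, (if (l a (w, i)).1 = true then F.u a else 0) ∧
      ∀ a, (l a (w, i)).1 = true →
        ∑ p ∈ Ps (Q * w !) (m w i), dens (F.U a) (F.N a)
          {y | (y : ZMod Q) = (l a (w, i)).2.1 ∧ rel β lam p y ≠ sg (l a (w, i)).2.2} ≤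
          er η i / Q * (Ps (Q * w !) (m w i)).card

/-- SYS: the measure on the symbolic space. -/
def T_SYS : Prop := ∀ η : ℝ, 0 < η → η < 1 / 2 → ¬ LocN η →
  ∃ (k Q : ℕ) (_ : NeZero Q) (β : Fin (k + 1) → ℕ) (ρ : ℝ) (m : ℕ → ℕ → ℕ)
    (P : Measure (Om Q)), Even Q ∧ Function.Injective β ∧ 0 < ρ ∧ SysP Q β ρ η m P

/-- ER1: ergodic components. -/
def T_ER1 : Prop := ∀ (Q n : ℕ) [NeZero Q] (β : Fin n → ℕ) (ρ η : ℝ) (m : ℕ → ℕ → ℕ)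
  (P : Measure (Om Q)), SysP Q β ρ η m P →
  ∃ κ : Kernel (Om Q) (Om Q), IsMarkovKernel κ ∧ (∀ B, MeasurableSet B → P B = ∫⁻ ω, κ ω B ∂P) ∧
    ∀ᵐ ω ∂P, Ergodic (shM Q) (κ ω) ∧
      ∀ W, 0 < W → (κ ω)[DD Q | Inv (shM Q) W] =ᵐ[κ ω] 0

/-- ER2: a component on which the relation holds. -/
def T_ER2 : Prop := ∀ (Q n : ℕ) [NeZero Q] (β : Fin n → ℕ) (ρ η : ℝ) (m : ℕ → ℕ → ℕ)
  (P : Measure (Om Q)), 0 < ρ → 0 < η → SysP Q β ρ η m P →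
  ∀ κ : Kernel (Om Q) (Om Q), IsMarkovKernel κ → (∀ B, MeasurableSet B → P B = ∫⁻ ω, κ ω B ∂P) →
    (∀ᵐ ω ∂P, Ergodic (shM Q) (κ ω)) → ∀ S : Set (Om Q), (∀ᵐ ω ∂P, ω ∈ S) →
    ∃ ω ∈ S, ∃ᶠ w in atTop, ∃ᶠ i in atTop, ∃ (c : ZMod Q) (b : Bool),
      ∑ p ∈ Ps (Q * w !) (m w i), (κ ω).real {x | x.2.1 = c ∧ x ∈ RB Q β p b} ≤
        203 / 200 * η / Q * (Ps (Q * w !) (m w i)).card

/-- CTX: pigeonhole, and the data. -/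
def T_CTX : Prop := ∀ (Q k : ℕ) [NeZero Q] (β : Fin (k + 1) → ℕ) (η : ℝ) (m : ℕ → ℕ → ℕ)
  (ν : Measure (Om Q)), Even Q → Function.Injective β → 0 < η → 203 / 200 * η ≤ κ₁ →
  IsProbabilityMeasure ν → Ergodic (shM Q) ν →
  (∀ W, 0 < W → ν[DD Q | Inv (shM Q) W] =ᵐ[ν] 0) → (∀ w i, i ≤ m w i) →
  (∃ᶠ w in atTop, ∃ᶠ i in atTop, ∃ (c : ZMod Q) (b : Bool),
    ∑ p ∈ Ps (Q * w !) (m w i), ν.real {x | x.2.1 = c ∧ x ∈ RB Q β p b} ≤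
      203 / 200 * η / Q * (Ps (Q * w !) (m w i)).card) →
  Nonempty Ctx

/-- FRT: the front end. -/
def T_FRT : Prop := LocN (1389 / 25000) → AbsGapAt (1 / 9)

/-- if the data are contradictory, then the theorem holds -/
theorem fin9 (hS : T_SYS) (h1 : T_ER1) (h2 : T_ER2) (hC : T_CTX) (hF : T_FRT) (hE : Ctx → False) :
    AbsGapAt (1 / 9) := by
  refine hF ?_
  have hη : (0 : ℝ) < 1389 / 25000 := by norm_num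
  by_contra hno
  obtain ⟨k, Q, hQ, β, ρ, m, P, hQe, hβ, hρ, hP⟩ := hS _ hη (by norm_num) hno
  obtain ⟨κ, hκ, hd, hae⟩ := h1 Q (k + 1) β ρ _ m P hP
  obtain ⟨ω, hω, hfr⟩ := h2 Q (k + 1) β ρ _ m P hρ hη hP κ hκ hd (hae.mono fun _ h => h.1)
    {ω | Ergodic (shM Q) (κ ω) ∧ ∀ W, 0 < W → (κ ω)[DD Q | Inv (shM Q) W] =ᵐ[κ ω] 0} hae
  have hpr : IsProbabilityMeasure (κ ω) := inferInstance
  obtain ⟨c⟩ := hC Q k β _ m (κ ω) hQe hβ hη (by unfold κ₁; norm_num) hpr hω.1 hω.2 hP.mi hfr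
  exact hE c

end Pool.Agent.H66.SG
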