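import Pool.Agent.H66.SG.T7

/-!
ABSOLUTE GAP (`MP_c59857_nt`), row VVI: irrational frequencies, primes `≡ 1 (mod W)`.
-/

set_option autoImplicit false

open Filter Topology Finset
open Pool.Agent.H24.AG
open Pool.Agent.H24.T2 (Pset)

namespace Pool.Agent.H66.SG.VVI

open Pool.Agent.H67.AG

theorem ee_add (x y : ℝ) : ee (x + y) = ee x * ee y := by
  unfold ee
  rw [← Complex.exp_add]
  congr 1
  push_cast
  ring

theorem norm_ee (x : ℝ) : ‖ee x‖ = 1 := by
  unfold ee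
  rw [Complex.norm_exp]
  simp

theorem ee_natCast (n : ℕ) : ee (n : ℝ) = 1 := by
  unfold ee
  rw [Complex.exp_eq_one_iff]
  exact ⟨n, by push_cast; ring⟩

theorem ee_eq_one {x : ℝ} (h : ee x = 1) : ∃ k : ℤ, x = k := by
  unfold ee at h
  rw [Complex.exp_eq_one_iff] at h
  obtain ⟨k, hk⟩ := h
  refine ⟨k, ?_⟩
  have h1 : (2 * Real.pi * Complex.I : ℂ) ≠ 0 := Complex.two_pi_I_ne_zero
  have h2 : (x : ℂ) = (k : ℂ) := by
    apply mul_left_cancel₀ h1
    rw [hk]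
    ring
  exact_mod_cast h2

theorem ee_nat_mul (n : ℕ) (x : ℝ) : ee (n * x) = ee x ^ n := by
  unfold ee
  rw [← Complex.exp_nat_mul]
  congr 1
  push_cast
  ring

theorem orth (W n : ℕ) (hW : 0 < W) :
    ∑ t ∈ range W, ee ((t : ℝ) * n / W) = if W ∣ n then (W : ℂ) else 0 := by
  have hW0 : (W : ℝ) ≠ 0 := by positivity
  have h1 : ∀ t ∈ range W, ee ((t : ℝ) * n / W) = ee ((n : ℝ) / W) ^ t := by
    intro t _
    rw [← ee_nat_mul]
    congr 1
    ring
  rw [sum_congr rfl h1]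
  split_ifs with h
  · obtain ⟨k, rfl⟩ := h
    have h2 : ((W * k : ℕ) : ℝ) / W = (k : ℕ) := by
      push_cast
      field_simp
    rw [h2, ee_natCast]
    simp
  · have h3 : ee ((n : ℝ) / W) ≠ 1 := by
      intro h4
      obtain ⟨k, hk⟩ := ee_eq_one h4
      apply h
      have h5 : (n : ℝ) = W * k := by
        rw [← hk]
        field_simp
      have h6 : (n : ℤ) = W * k := by exact_mod_cast h5
      exact Int.natCast_dvd_natCast.1 ⟨k, h6⟩
    rw [geom_sum_eq h3, ← ee_nat_mul]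
    have h7 : (W : ℝ) * ((n : ℝ) / W) = (n : ℕ) := by field_simp
    rw [h7, ee_natCast, sub_self, zero_div]

theorem irr_div {θ : ℝ} (hθ : Irrational θ) (W t : ℕ) (hW : 0 < W) :
    Irrational ((θ + t) / W) := by
  have h1 : Irrational (θ + (t : ℝ)) := hθ.add_natCast t
  exact h1.div_natCast hW.ne'

theorem pf_VVI (hp : T_VPR) (hc : T_VCT) : T_VVI := by
  intro W θ hW hθ ε hε
  obtain ⟨c, hc0, m₁, hm₁⟩ := hc W hW
  have h1 : ∀ t : ℕ, ∃ m₀ : ℕ, ∀ m : ℕ, m₀ ≤ m →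
      ‖∑ p ∈ (Ioc (2 ^ m) (101 * 2 ^ m / 100)).filter Nat.Prime, ee ((θ + t) / W * p)‖ ≤
        ε * c * 2 ^ m / m := fun t => hp _ (irr_div hθ W t hW) (ε * c) (by positivity)
  choose m₀ hm₀ using h1
  refine ⟨max m₁ ((range W).sup m₀), fun m hm => ?_⟩
  have h2 : ∀ t ∈ range W, ‖∑ p ∈ (Ioc (2 ^ m) (101 * 2 ^ m / 100)).filter Nat.Prime,
      ee ((θ + t) / W * p)‖ ≤ ε * c * 2 ^ m / m := fun t ht =>
    hm₀ t m ((le_sup ht).trans ((le_max_right _ _).trans hm))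
  have h3 := hm₁ m ((le_max_left _ _).trans hm)
  have hW0 : (W : ℝ) ≠ 0 := by positivity
  have hWC : (W : ℂ) ≠ 0 := by exact_mod_cast hW.ne'
  have h4 : ∑ p ∈ Ps W m, ee (θ * ((p - 1) / W : ℕ)) =
      (1 / (W : ℂ)) * ∑ t ∈ range W, ee (-((θ + t) / W)) *
        ∑ p ∈ (Ioc (2 ^ m) (101 * 2 ^ m / 100)).filter Nat.Prime, ee ((θ + t) / W * p) := by
    have h5 : Ps W m = ((Ioc (2 ^ m) (101 * 2 ^ m / 100)).filter Nat.Prime).filter
        (fun p => W ∣ p - 1) := by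
      ext p
      unfold Ps
      simp only [mem_filter, and_assoc]
      constructor
      · rintro ⟨h6, h7, h8⟩
        exact ⟨h6, h7, (Nat.modEq_iff_dvd' h7.one_lt.le).1 h8.symm⟩
      · rintro ⟨h6, h7, h8⟩
        exact ⟨h6, h7, ((Nat.modEq_iff_dvd' h7.one_lt.le).2 h8).symm⟩
    rw [h5, sum_filter]
    have h6 : ∀ p ∈ (Ioc (2 ^ m) (101 * 2 ^ m / 100)).filter Nat.Prime,
        (if W ∣ p - 1 then ee (θ * ((p - 1) / W : ℕ)) else 0) =
          (1 / (W : ℂ)) * ∑ t ∈ range W, ee (-((θ + t) / W)) * ee ((θ + t) / W * p) := by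
      intro p hp'
      have hp1 : 1 ≤ p := (mem_filter.1 hp').2.one_lt.le
      have h7 : ∀ t ∈ range W, ee (-((θ + t) / W)) * ee ((θ + t) / W * p) =
          ee (θ * ((p - 1 : ℕ) : ℝ) / W) * ee ((t : ℝ) * ((p - 1 : ℕ) : ℝ) / W) := by
        intro t _
        rw [← ee_add, ← ee_add]
        congr 1
        push_cast [Nat.cast_sub hp1]
        ring
      rw [sum_congr rfl h7, ← mul_sum, orth W (p - 1) hW]
      split_ifs with h8
      · obtain ⟨k, hk⟩ := h8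
        rw [hk, Nat.mul_div_cancel_left k hW]
        have h9 : θ * ((W * k : ℕ) : ℝ) / W = θ * (k : ℝ) := by
          push_cast
          field_simp
        rw [h9]
        field_simp
      · simp
    rw [sum_congr rfl h6, ← mul_sum, sum_comm]
    simp only [mul_sum]
  rw [h4, norm_mul]
  have h5 : ‖∑ t ∈ range W, ee (-((θ + t) / W)) *
      ∑ p ∈ (Ioc (2 ^ m) (101 * 2 ^ m / 100)).filter Nat.Prime, ee ((θ + t) / W * p)‖ ≤
        W * (ε * c * 2 ^ m / m) := by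
    refine (norm_sum_le _ _).trans ?_
    have h6 : ∀ t ∈ range W, ‖ee (-((θ + t) / W)) *
        ∑ p ∈ (Ioc (2 ^ m) (101 * 2 ^ m / 100)).filter Nat.Prime, ee ((θ + t) / W * p)‖ ≤
          ε * c * 2 ^ m / m := by
      intro t ht
      rw [norm_mul, norm_ee, one_mul]
      exact h2 t ht
    refine (sum_le_sum h6).trans ?_
    rw [sum_const, card_range, nsmul_eq_mul]
  have h6 : ‖(1 / (W : ℂ))‖ = 1 / (W : ℝ) := by
    rw [norm_div, norm_one, Complex.norm_natCast]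
  rw [h6]
  calc 1 / (W : ℝ) * _ ≤ 1 / (W : ℝ) * (W * (ε * c * 2 ^ m / m)) :=
        mul_le_mul_of_nonneg_left h5 (by positivity)
    _ = ε * (c * 2 ^ m / m) := by field_simp
    _ ≤ ε * (Ps W m).card := mul_le_mul_of_nonneg_left h3 hε.le

end Pool.Agent.H66.SG.VVI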